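import Mathlib

/-!
# Hohenberg-Kohn in `L^{3/2} + L^∞` : project specification (helper998)

Statements `S_...` (as `Prop`s) of the separate tasks.
-/

set_option autoImplicit false

noncomputable section

namespace Pool.Agent.H998.HK

open MeasureTheory Filter Topology Set
open scoped ENNReal NNReal RealInnerProductSpace

/-- `ℝ³` -/
abbrev E3 : Type := EuclideanSpace ℝ (Fin 3)

/-- test functions -/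
def Test {X : Type} [NormedAddCommGroup X] [NormedSpace ℝ X] (φ : X → ℝ) : Prop :=
  ContDiff ℝ ((⊤ : ℕ∞) : WithTop ℕ∞) φ ∧ HasCompactSupport φ

/-- `∂ᵢ φ` on `ℝ³` -/
def pd (i : Fin 3) (φ : E3 → ℝ) (x : E3) : ℝ := fderiv ℝ φ x (EuclideanSpace.single i (1 : ℝ))

/-- `D` is the weak gradient of `u : ℝ³ → H` -/
def WeakGrad {H : Type} [NormedAddCommGroup H] [NormedSpace ℝ H] (u : E3 → H)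
    (D : Fin 3 → E3 → H) : Prop :=
  ∀ i, ∀ φ : E3 → ℝ, Test φ → ∫ x, pd i φ x • u x = -∫ x, φ x • D i x

/-! ### Task HLS: Hardy-Littlewood-Sobolev inequality for kernels of weak type `r` -/

def S_HLS : Prop := ∀ p q r : ℝ, 1 < p → 1 < q → 1 < r → 1 / p + 1 / q + 1 / r = 2 →
  ∃ C : ℝ≥0, ∀ (X Y : Type) [MeasurableSpace X] [MeasurableSpace Y] (μ : Measure X) (ν : Measure Y)
    [SigmaFinite μ] [SigmaFinite ν] (N : X → Y → ℝ≥0∞), Measurable (Function.uncurry N) →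
    (∀ x (t : ℝ), 0 < t → ν {y | ENNReal.ofReal t < N x y} ≤ ENNReal.ofReal (t ^ (-r))) →
    (∀ y (t : ℝ), 0 < t → μ {x | ENNReal.ofReal t < N x y} ≤ ENNReal.ofReal (t ^ (-r))) →
    ∀ (f : X → ℝ≥0∞) (g : Y → ℝ≥0∞), Measurable f → Measurable g →
      ∫⁻ x, ∫⁻ y, f x * N x y * g y ∂ν ∂μ ≤
        C * (∫⁻ x, f x ^ p ∂μ) ^ (1 / p) * (∫⁻ y, g y ^ q ∂ν) ^ (1 / q)

/-! ### Task J: two one-dimensional integrals -/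

/-- `J₀(T,b) = ∫₀² du / (√(u(2-u)) √(T+2u) √(2|u-b|))` -/
def J0 (T b : ℝ) : ℝ≥0∞ :=
  ∫⁻ u in Ioo (0 : ℝ) 2, ENNReal.ofReal (1 / (√(u * (2 - u)) * √(T + 2 * u) * √(2 * |u - b|)))

/-- `J₁(T,b)` -/
def J1 (T b : ℝ) : ℝ≥0∞ :=
  ∫⁻ u in Ioo (0 : ℝ) 2, ENNReal.ofReal (1 / (√(u * (2 - u)) * √(T + 2 * u) * √(2 * |u - b|)) *
    ((if u < b then 2 - u else u) * |u - b|) ^ (-(1 / 4 : ℝ)))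

def S_J : Prop := ∃ C : ℝ, 0 < C ∧ ∀ T b : ℝ, 0 < T → 0 < b → b < 2 →
  J0 T b ≤ ENNReal.ofReal (C * (T ^ (-(1 / 6 : ℝ)) * (1 + T) ^ (-(1 / 3 : ℝ)) *
    (b ^ (-(1 / 3 : ℝ)) + (2 - b) ^ (-(1 / 3 : ℝ))))) ∧
  J1 T b ≤ ENNReal.ofReal (C * (T ^ (-(1 / 3 : ℝ)) * (1 + T) ^ (-(1 / 6 : ℝ)) *
    (b ^ (-(2 / 3 : ℝ)) + (2 - b) ^ (-(2 / 3 : ℝ)))))

/-! ### The kernel -/

/-- `e^{-κ√σ} / (4π√σ)`, a function of `σ = |x|²` -/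
def yukR (κ σ : ℝ) : ℝ := Real.exp (-(κ * √σ)) / (4 * Real.pi * √σ)

/-- the Yukawa kernel `e^{-κ|x|} / (4π|x|)` -/
def yuk (κ : ℝ) (x : E3) : ℝ := yukR κ (‖x‖ ^ 2)

/-- the component of degree `j` in `x` of the Taylor expansion of `x ↦ yuk κ (x - y)` at `0` -/
def tc (κ : ℝ) (j : ℕ) (x y : E3) : ℝ :=
  ∑ p ∈ Finset.range (j / 2 + 1), iteratedDeriv (j - p) (yukR κ) (‖y‖ ^ 2) /
    ((p.factorial : ℝ) * ((j - 2 * p).factorial : ℝ)) * (‖x‖ ^ 2) ^ p *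
      (-2 * ⟪x, y⟫) ^ (j - 2 * p)

/-- the kernel with the Taylor polynomial of degree `< m` subtracted -/
def Km (κ : ℝ) (m : ℕ) (x y : E3) : ℝ := yuk κ (x - y) - ∑ j ∈ Finset.range m, tc κ j x y

def TT (x y : E3) : ℝ := (‖x‖ - ‖y‖) ^ 2 / (‖x‖ * ‖y‖)
def bb (x y : E3) : ℝ := 1 - ⟪x, y⟫ / (‖x‖ * ‖y‖)

/-! ### Task TAYLOR -/

def S_TAYLOR : Prop := ∀ κ : ℝ, 0 ≤ κ → ∀ x y : E3,
  (‖x‖ < ‖y‖ → HasSum (fun j => tc κ j x y) (yuk κ (x - y))) ∧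
  (∀ ρ : ℝ, 0 < ρ → ρ * ‖x‖ < ‖y‖ → ∀ j,
    |tc κ j x y| ≤ (ρ ^ j)⁻¹ / (4 * Real.pi * (‖y‖ - ρ * ‖x‖)))

/-! ### Task KB: pointwise bounds of the kernel -/

def S_KB : Prop := ∃ C : ℝ, 0 < C ∧ ∀ (κ : ℝ) (m : ℕ) (x y : E3), 0 ≤ κ → 0 < ‖x‖ → 0 < ‖y‖ →
  ‖x‖ ≠ ‖y‖ → 0 < bb x y → bb x y < 2 →
  |Km κ m x y| ≤ C * ((‖x‖ / ‖y‖) ^ m * (‖x‖ * ‖y‖) ^ (-(1 / 2 : ℝ)) *
    (TT x y ^ (-(1 / 6 : ℝ)) * (1 + TT x y) ^ (-(1 / 3 : ℝ)) *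
      (bb x y ^ (-(1 / 3 : ℝ)) + (2 - bb x y) ^ (-(1 / 3 : ℝ))))) ∧
  √κ * |Km κ m x y| ≤ C * ((‖x‖ / ‖y‖) ^ m * (‖x‖ * ‖y‖) ^ (-(1 / 2 : ℝ)) * ‖y‖ ^ (-(1 / 2 : ℝ)) *
    (TT x y ^ (-(1 / 3 : ℝ)) * (1 + TT x y) ^ (-(1 / 6 : ℝ)) *
      (bb x y ^ (-(2 / 3 : ℝ)) + (2 - bb x y) ^ (-(2 / 3 : ℝ)))))

/-! ### Task BIL: bilinear estimates -/

/-- the weighted kernel `|K_m(x,y)| (|y|/|x|)^{m+1/4}` -/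
def wK (κ : ℝ) (m : ℕ) (x y : E3) : ℝ := Km κ m x y * (‖y‖ / ‖x‖) ^ ((m : ℝ) + 1 / 4)

/-- `(∫ f^p)^{1/p}` -/
def nrm (p : ℝ) (f : E3 → ℝ≥0∞) : ℝ≥0∞ := (∫⁻ x, f x ^ p) ^ (1 / p)

def S_BIL : Prop := ∃ C : ℝ≥0, ∀ (κ : ℝ) (m : ℕ) (r0 : ℝ), 0 ≤ κ → 0 < r0 →
  ∀ f g : E3 → ℝ≥0∞, Measurable f → Measurable g → (∀ x, r0 < ‖x‖ → f x = 0) →
    (∀ x, r0 < ‖x‖ → g x = 0) →
  (∫⁻ x, ∫⁻ y, f x * ENNReal.ofReal |wK κ m x y| * g y ≤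
    C * nrm (6 / 5) f * nrm (6 / 5) g) ∧
  (∫⁻ x, ∫⁻ y, f x * ENNReal.ofReal (√κ * |wK κ m x y|) * g y ≤
    C * ENNReal.ofReal √r0 * nrm (6 / 5) f * nrm 2 g) ∧
  (∫⁻ x, ∫⁻ y, f x * ENNReal.ofReal (√κ * |wK κ m x y|) * g y ≤
    C * ENNReal.ofReal √r0 * nrm 2 f * nrm (6 / 5) g)

/-! ### Task L2: the `L²` estimate -/

def S_L2 : Prop := ∃ C : ℝ, 0 < C ∧ ∀ (κ : ℝ) (m : ℕ) (ρ r0 : ℝ), 0 < κ → 1 ≤ m → 0 < ρ → ρ < r0 →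
  ∀ f g : E3 → ℝ, MemLp f 2 → MemLp g 2 →
    (∀ x, (‖x‖ < ρ ∨ r0 < ‖x‖) → f x = 0) → (∀ x, (‖x‖ < ρ ∨ r0 < ‖x‖) → g x = 0) →
  κ * |∫ x, ∫ y, f x * wK κ m x y * g y| ≤ C * r0 * √(∫ x, f x ^ 2) * √(∫ x, g x ^ 2)

/-! ### Task REP: representation of solutions -/

/-- weak form of `-Δu + κ²u = F` -/
def WeakEq (κ : ℝ) (u : E3 → ℝ) (D : Fin 3 → E3 → ℝ) (F : E3 → ℝ) : Prop :=
  ∀ φ : E3 → ℝ, Test φ →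
    ∫ x, (∑ i, D i x * pd i φ x + κ ^ 2 * (u x * φ x)) = ∫ x, F x * φ x

def S_YUK : Prop := ∀ (κ r0 : ℝ) (u F : E3 → ℝ) (D : Fin 3 → E3 → ℝ), 0 < κ → 0 < r0 →
  MemLp u 2 → (∀ i, MemLp (D i) 2) → Integrable F → WeakGrad u D → WeakEq κ u D F →
  (∀ x, r0 < ‖x‖ → u x = 0) → (∀ i x, r0 < ‖x‖ → D i x = 0) → (∀ x, r0 < ‖x‖ → F x = 0) →
  ∀ᵐ x, u x = ∫ y, yuk κ (x - y) * F y

def S_REP : Prop := ∀ (κ ρ r0 : ℝ) (u F : E3 → ℝ) (D : Fin 3 → E3 → ℝ), 0 < κ → 0 < ρ → ρ < r0 →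
  MemLp u 2 → (∀ i, MemLp (D i) 2) → Integrable F → WeakGrad u D → WeakEq κ u D F →
  (∀ x, (‖x‖ < ρ ∨ r0 < ‖x‖) → u x = 0) → (∀ i x, (‖x‖ < ρ ∨ r0 < ‖x‖) → D i x = 0) →
  (∀ x, (‖x‖ < ρ ∨ r0 < ‖x‖) → F x = 0) →
  ∀ m : ℕ, ∀ᵐ x, u x = ∫ y, Km κ m x y * F y

/-! ### Task STAR: the scalar Carleman inequality -/

/-- the square of the weight, `|x|^{-(2m+1/2)}` -/
def om2 (m : ℕ) (x : E3) : ℝ≥0∞ := ENNReal.ofReal (‖x‖ ^ (-(2 * (m : ℝ) + 1 / 2)))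

def S_STAR : Prop := ∃ C : ℝ≥0, ∀ (V : E3 → ℝ) (κ ρ r0 M : ℝ) (m : ℕ) (u g₁ g₂ g₃ : E3 → ℝ)
  (D : Fin 3 → E3 → ℝ), Measurable V → 1 ≤ κ → 0 < ρ → ρ < r0 → r0 ≤ 1 → 1 ≤ m → 0 ≤ M →
  (∫⁻ x in Metric.closedBall (0 : E3) r0, ENNReal.ofReal (|V x| ^ (3 / 2 : ℝ))) ^ (2 / 3 : ℝ) ≤
    ENNReal.ofReal M →
  MemLp u 2 → (∀ i, MemLp (D i) 2) → MemLp g₁ 2 → MemLp g₂ 2 → MemLp g₃ 2 → WeakGrad u D →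
  WeakEq κ u D (fun x => √|V x| * g₁ x + √κ * g₂ x + g₃ x) →
  (∀ x, (‖x‖ < ρ ∨ r0 < ‖x‖) → u x = 0 ∧ g₁ x = 0 ∧ g₂ x = 0 ∧ g₃ x = 0 ∧ ∀ i, D i x = 0) →
  (∫⁻ x, om2 m x * ENNReal.ofReal (|V x| * u x ^ 2)) + ENNReal.ofReal κ *
      ∫⁻ x, om2 m x * ENNReal.ofReal (u x ^ 2) ≤
    C * ENNReal.ofReal ((M + r0) ^ 2) *
      ∫⁻ x, om2 m x * ENNReal.ofReal (g₁ x ^ 2 + g₂ x ^ 2 + g₃ x ^ 2)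

/-! ### Hilbert space valued functions -/

section hilbert

variable {H : Type} [NormedAddCommGroup H] [InnerProductSpace ℂ H] [CompleteSpace H]

/-- `R ^ a` for a positive operator -/
def Rpow (R : H →L[ℂ] H) (a : ℝ) : H →L[ℂ] H := cfc (fun r : ℝ => r ^ a) R

/-- `R` is self-adjoint, `0 ≤ R ≤ 1`, injective -/
structure GoodR (R : H →L[ℂ] H) : Prop where
  sa : IsSelfAdjoint R
  spec : ∀ r ∈ spectrum ℝ R, 0 ≤ r ∧ r ≤ 1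
  inj : Function.Injective R

/-- weak form of `-Δ(Rχ) + χ = R(Vχ) + R^{3/4} g + R g₃` on `ℝ³` (all functions with values in
`H`), against test functions -/
def HEq (R : H →L[ℂ] H) (V : E3 → ℝ) (χ : E3 → H) (D : Fin 3 → E3 → H) (g g₃ : E3 → H) : Prop :=
  ∀ φ : E3 → ℝ, Test φ →
    ∫ x, (∑ i, pd i φ x • R (D i x) + φ x • χ x) =
      ∫ x, φ x • (R (V x • χ x) + Rpow R (3 / 4) (g x) + R (g₃ x))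

end hilbert

/-- Carleman inequality for functions with values in a Hilbert space -/
def S_HCAR : Prop := ∃ ε₀ : ℝ, 0 < ε₀ ∧ ∃ C : ℝ≥0,
  ∀ (H : Type) [NormedAddCommGroup H] [InnerProductSpace ℂ H] [CompleteSpace H]
    [TopologicalSpace.SeparableSpace H] (R : H →L[ℂ] H), GoodR R →
  ∀ (V : E3 → ℝ) (ρ r0 M : ℝ) (m : ℕ) (χ ξ g g₃ : E3 → H) (D : Fin 3 → E3 → H),
  Measurable V → 0 < ρ → ρ < r0 → r0 ≤ 1 → 1 ≤ m → 0 ≤ M → M + r0 ≤ ε₀ →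
  (∫⁻ x in Metric.closedBall (0 : E3) r0, ENNReal.ofReal (|V x| ^ (3 / 2 : ℝ))) ^ (2 / 3 : ℝ) ≤
    ENNReal.ofReal M →
  MemLp χ 2 → MemLp ξ 2 → MemLp g 2 → MemLp g₃ 2 → (∀ i, MemLp (D i) 2) →
  (∀ x, χ x = Rpow R (1 / 4) (ξ x)) → WeakGrad χ D →
  (∫⁻ x, ENNReal.ofReal (|V x| * ‖χ x‖ ^ 2) < ∞) →
  HEq R V χ D g g₃ →
  (∀ x, (‖x‖ < ρ ∨ r0 < ‖x‖) → ξ x = 0 ∧ g x = 0 ∧ g₃ x = 0 ∧ ∀ i, D i x = 0) →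
  ∫⁻ x, om2 m x * ENNReal.ofReal (‖ξ x‖ ^ 2) ≤
    C * ENNReal.ofReal ((M + r0) ^ 2) *
      ∫⁻ x, om2 m x * ENNReal.ofReal (‖g x‖ ^ 2 + ‖g₃ x‖ ^ 2)

end Pool.Agent.H998.HK
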