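import Pool.Agent.H998.HK.Spec2

/-!
# Hohenberg-Kohn in `L^{3/2} + L^∞` : project specification, part 3 (helper998): smaller tasks
-/

set_option autoImplicit false

noncomputable section

namespace Pool.Agent.H998.HK

open MeasureTheory Filter Topology Set
open scoped ENNReal NNReal RealInnerProductSpace ComplexConjugate ContDiff

/-! ### Tasks KAP, YUK2, REP -/

/-- regularised Yukawa kernel `e^{-κs}/(4πs)`, `s = √(|x|²+ε²)` -/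
def yukE (κ ε : ℝ) (x : E3) : ℝ := yukR κ (‖x‖ ^ 2 + ε ^ 2)

/-- `(κ² - Δ) yukE = 4ε² Φ''(|x|²+ε²)` with `Φ = yukR κ`, explicitly
`(ε²/4π) e^{-κs} (3 + 3κs + κ²s²) / s⁵`, `s = √(|x|²+ε²)` -/
def kap (κ ε : ℝ) (x : E3) : ℝ :=
  ε ^ 2 / (4 * Real.pi) * (Real.exp (-(κ * √(‖x‖ ^ 2 + ε ^ 2))) *
    (3 + 3 * (κ * √(‖x‖ ^ 2 + ε ^ 2)) + (κ * √(‖x‖ ^ 2 + ε ^ 2)) ^ 2)) /
      (√(‖x‖ ^ 2 + ε ^ 2)) ^ 5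

/-- Task KAP. -/
def S_KAP : Prop := ∀ κ : ℝ, 0 < κ →
  (∀ ε : ℝ, 0 < ε → ContDiff ℝ ((⊤ : ℕ∞) : WithTop ℕ∞) (yukE κ ε) ∧ (∀ x, 0 ≤ kap κ ε x) ∧
    Integrable (kap κ ε) ∧ (∫ x, kap κ ε x) ≤ 1 ∧
    (∀ x, κ ^ 2 * yukE κ ε x - ∑ i, pd i (pd i (yukE κ ε)) x = kap κ ε x)) ∧
  (∀ ψ : E3 → ℝ, Continuous ψ → HasCompactSupport ψ → ∀ y,
    Tendsto (fun ε : ℝ => ∫ x, kap κ ε (x - y) * ψ x) (𝓝[>] 0) (𝓝 (ψ y)))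

/-- Task YUK2 -/
def S_YUK2 : Prop := S_KAP → S_YUK

/-- Task REP2 -/
def S_REP2 : Prop := S_TAYLOR → S_YUK → S_REP

/-! ### Tasks VSTAR, HCAR2 -/

/-- the Carleman inequality for functions with values in a Hilbert space (`κ` still a number) -/
def S_VSTAR : Prop := ∃ C : ℝ≥0, ∀ (H : Type) [NormedAddCommGroup H] [InnerProductSpace ℂ H]
  [CompleteSpace H] [TopologicalSpace.SeparableSpace H] (V : E3 → ℝ) (κ ρ r0 M : ℝ) (m : ℕ)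
  (u g₁ g₂ g₃ : E3 → H) (D : Fin 3 → E3 → H), Measurable V → 1 ≤ κ → 0 < ρ → ρ < r0 → r0 ≤ 1 →
  1 ≤ m → 0 ≤ M →
  (∫⁻ x in Metric.closedBall (0 : E3) r0, ENNReal.ofReal (|V x| ^ (3 / 2 : ℝ))) ^ (2 / 3 : ℝ) ≤
    ENNReal.ofReal M →
  MemLp u 2 → (∀ i, MemLp (D i) 2) → MemLp g₁ 2 → MemLp g₂ 2 → MemLp g₃ 2 → WeakGrad u D →
  (∀ φ : E3 → ℝ, Test φ → ∫ x, (∑ i, pd i φ x • D i x + (κ ^ 2 * φ x) • u x) =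
    ∫ x, φ x • (√|V x| • g₁ x + √κ • g₂ x + g₃ x)) →
  (∀ x, (‖x‖ < ρ ∨ r0 < ‖x‖) → u x = 0 ∧ g₁ x = 0 ∧ g₂ x = 0 ∧ g₃ x = 0 ∧ ∀ i, D i x = 0) →
  (∫⁻ x, om2 m x * ENNReal.ofReal (|V x| * ‖u x‖ ^ 2)) + ENNReal.ofReal κ *
      ∫⁻ x, om2 m x * ENNReal.ofReal (‖u x‖ ^ 2) ≤
    C * ENNReal.ofReal ((M + r0) ^ 2) *
      ∫⁻ x, om2 m x * ENNReal.ofReal (‖g₁ x‖ ^ 2 + ‖g₂ x‖ ^ 2 + ‖g₃ x‖ ^ 2)

/-- Task VSTAR -/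
def S_VSTAR2 : Prop := S_STAR → S_VSTAR

/-- Task HCAR2 -/
def S_HCAR2 : Prop := S_VSTAR → S_HCAR

/-! ### Task CHAIN -/

/-- chain rule for vector valued Sobolev functions -/
def S_CHAIN : Prop := ∀ (H K : Type) [NormedAddCommGroup H] [NormedSpace ℝ H] [CompleteSpace H]
  [NormedAddCommGroup K] [NormedSpace ℝ K] [CompleteSpace K] (Ψ : H → K) (L : ℝ),
  ContDiff ℝ 1 Ψ → (∀ h, ‖fderiv ℝ Ψ h‖ ≤ L) → ∀ (u : E3 → H) (D : Fin 3 → E3 → H),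
  MemLp u 2 → (∀ i, MemLp (D i) 2) → WeakGrad u D →
  WeakGrad (fun x => Ψ (u x)) (fun i x => fderiv ℝ Ψ (u x) (D i x))

/-! ### Form bounds -/

/-- infinitesimal form bound in the first variable -/
def S_FBX : Prop := ∀ (v : E3 → ℝ), XStar v → Measurable v → ∀ ε : ℝ, 0 < ε → ∃ C : ℝ, 0 < C ∧
  ∀ (n : ℕ) (f : Xn n → ℂ) (D : Fin 3 → Xn n → ℂ), MemLp f 2 → (∀ i, MemLp (D i) 2) →
    (∀ i, WD (ex n i) f (D i)) →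
    ∫⁻ z, ENNReal.ofReal (|v z.1| * ‖f z‖ ^ 2) ≤
      ENNReal.ofReal ε * (∫⁻ z, ENNReal.ofReal (∑ i, ‖D i z‖ ^ 2)) +
        ENNReal.ofReal C * ∫⁻ z, ENNReal.ofReal (‖f z‖ ^ 2)

/-- infinitesimal form bound in the variable `y_j` -/
def S_FBY : Prop := ∀ (v : E3 → ℝ), XStar v → Measurable v → ∀ ε : ℝ, 0 < ε → ∃ C : ℝ, 0 < C ∧
  ∀ (n : ℕ) (j : Fin n) (f : Xn n → ℂ) (D : Fin 3 → Xn n → ℂ), MemLp f 2 → (∀ i, MemLp (D i) 2) →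
    (∀ i, WD (ey n j i) f (D i)) →
    ∫⁻ z, ENNReal.ofReal (|v (z.2 j)| * ‖f z‖ ^ 2) ≤
      ENNReal.ofReal ε * (∫⁻ z, ENNReal.ofReal (∑ i, ‖D i z‖ ^ 2)) +
        ENNReal.ofReal C * ∫⁻ z, ENNReal.ofReal (‖f z‖ ^ 2)

/-- Coulomb repulsion of the first particle and the particle `j` -/
def S_COUX : Prop := ∀ ε : ℝ, 0 < ε → ∃ C : ℝ, 0 < C ∧
  ∀ (n : ℕ) (j : Fin n) (f : Xn n → ℂ) (D : Fin 3 → Xn n → ℂ), MemLp f 2 → (∀ i, MemLp (D i) 2) →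
    (∀ i, WD (ex n i) f (D i)) →
    ∫⁻ z, ENNReal.ofReal (1 / ‖z.1 - z.2 j‖ * ‖f z‖ ^ 2) ≤
      ENNReal.ofReal ε * (∫⁻ z, ENNReal.ofReal (∑ i, ‖D i z‖ ^ 2)) +
        ENNReal.ofReal C * ∫⁻ z, ENNReal.ofReal (‖f z‖ ^ 2)

/-- Coulomb repulsion of the particles `j` and `k` -/
def S_COUY : Prop := ∀ ε : ℝ, 0 < ε → ∃ C : ℝ, 0 < C ∧
  ∀ (n : ℕ) (j k : Fin n) (f : Xn n → ℂ) (D : Fin 3 → Xn n → ℂ), j ≠ k → MemLp f 2 →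
    (∀ i, MemLp (D i) 2) → (∀ i, WD (ey n j i) f (D i)) →
    ∫⁻ z, ENNReal.ofReal (1 / ‖z.2 j - z.2 k‖ * ‖f z‖ ^ 2) ≤
      ENNReal.ofReal ε * (∫⁻ z, ENNReal.ofReal (∑ i, ‖D i z‖ ^ 2)) +
        ENNReal.ofReal C * ∫⁻ z, ENNReal.ofReal (‖f z‖ ^ 2)

/-! ### The final statement -/

/-- the density `ρ(x) = N ∑_s ∫ |Ψ_s(x, y)|² dy` of a wavefunction of `N = n + 1` electrons -/
def dens (n : ℕ) (Ψ : Wave (n + 1)) (x : E3) : ℝ :=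
  (n + 1 : ℝ) * ∑ s, ∫ y : Fin n → E3, ‖Ψ s (Fin.cons x y)‖ ^ 2

/-- the ground state energy `E[v]` of `n + 1` electrons -/
def E0 (n : ℕ) (v : E3 → ℝ) : ℝ :=
  sInf {e : ℝ | ∃ (Ψ : Wave (n + 1)) (G : Spin (n + 1) → Fin (n + 1) → Fin 3 →
    (Fin (n + 1) → E3) → ℂ), IsWave (n + 1) Ψ G ∧ normSq (n + 1) Ψ = 1 ∧
      e = energy (n + 1) v Ψ G}

/-- `ρ` is an ensemble ground-state density of `v` -/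
def IsGSD (n : ℕ) (v : E3 → ℝ) (ρ : E3 → ℝ) : Prop :=
  ∃ (p : ℕ → ℝ) (Ψ : ℕ → Wave (n + 1))
    (G : ℕ → Spin (n + 1) → Fin (n + 1) → Fin 3 → (Fin (n + 1) → E3) → ℂ),
    (∀ k, 0 ≤ p k) ∧ HasSum p 1 ∧
    (∀ k, IsWave (n + 1) (Ψ k) (G k) ∧ normSq (n + 1) (Ψ k) = 1) ∧
    HasSum (fun k => p k * energy (n + 1) v (Ψ k) (G k)) (E0 n v) ∧
    ∀ᵐ x, HasSum (fun k => p k * dens n (Ψ k) x) (ρ x)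

/-- the Hohenberg-Kohn theorem -/
def S_HK : Prop := ∀ (n : ℕ) (v₁ v₂ : E3 → ℝ), XStar v₁ → XStar v₂ → ∀ ρ : E3 → ℝ,
  IsGSD n v₁ ρ → IsGSD n v₂ ρ → ∃ c : ℝ, ∀ᵐ x, v₁ x - v₂ x = c

/-! ### Tasks of the final reduction -/

/-- form bounds for wavefunctions of `n + 1` electrons -/
def S_WFB : Prop := ∀ (n : ℕ) (v : E3 → ℝ), XStar v → ∃ C : ℝ, 0 < C ∧
  ∀ (Ψ : Wave (n + 1)) (G : Spin (n + 1) → Fin (n + 1) → Fin 3 → (Fin (n + 1) → E3) → ℂ),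
  IsWave (n + 1) Ψ G →
  (∀ s j, Integrable fun x => v (x j) * ‖Ψ s x‖ ^ 2) ∧
  (∀ s (j k : Fin (n + 1)), j < k → Integrable fun x => 1 / ‖x j - x k‖ * ‖Ψ s x‖ ^ 2) ∧
  (∑ s, ∑ j, ∫ x, |v (x j)| * ‖Ψ s x‖ ^ 2) ≤
    (1 / 4 : ℝ) * (∑ s, ∑ j, ∑ i, ∫ x, ‖G s j i x‖ ^ 2) + C * normSq (n + 1) Ψ

/-- Task WFB -/
def S_WFB2 : Prop := S_FBX → S_FBY → S_COUX → S_COUY → S_WFB

/-- common ground state -/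
def S_VAR : Prop := ∀ (n : ℕ) (v₁ v₂ : E3 → ℝ), XStar v₁ → XStar v₂ → ∀ ρ : E3 → ℝ,
  IsGSD n v₁ ρ → IsGSD n v₂ ρ → ∃ (Ψ : Wave (n + 1))
    (G : Spin (n + 1) → Fin (n + 1) → Fin 3 → (Fin (n + 1) → E3) → ℂ), IsWave (n + 1) Ψ G ∧
    normSq (n + 1) Ψ = 1 ∧ energy (n + 1) v₁ Ψ G = E0 n v₁ ∧ energy (n + 1) v₂ Ψ G = E0 n v₂

/-- Task VAR -/
def S_VAR2 : Prop := S_WFB → S_VAR

/-- the spin component `s` in the coordinates `ℝ³ × (ℝ³)ⁿ` -/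
def cmp {n : ℕ} (F : (Fin (n + 1) → E3) → ℂ) (z : Xn n) : ℂ := F (Fin.cons z.1 z.2)

/-- Euler-Lagrange equation -/
def S_EL : Prop := ∀ (n : ℕ) (v : E3 → ℝ), XStar v → ∀ (Ψ : Wave (n + 1))
  (G : Spin (n + 1) → Fin (n + 1) → Fin 3 → (Fin (n + 1) → E3) → ℂ), IsWave (n + 1) Ψ G →
  normSq (n + 1) Ψ = 1 → energy (n + 1) v Ψ G = E0 n v → ∀ s,
    H1 n (cmp (Ψ s)) (fun i => cmp (G s 0 i)) (fun j i => cmp (G s j.succ i)) ∧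
    WeakSol n v (E0 n v) (cmp (Ψ s)) (fun i => cmp (G s 0 i)) (fun j i => cmp (G s j.succ i))

/-- Task EL -/
def S_EL2 : Prop := S_WFB → S_EL

/-- two potentials, one solution -/
def S_TWO : Prop := ∀ (n : ℕ) (v₁ v₂ : E3 → ℝ) (E₁ E₂ : ℝ) (f : Xn n → ℂ) (Dx : Fin 3 → Xn n → ℂ)
  (Dy : Fin n → Fin 3 → Xn n → ℂ), XStar v₁ → XStar v₂ → Measurable v₁ → Measurable v₂ →
  H1 n f Dx Dy → WeakSol n v₁ E₁ f Dx Dy → WeakSol n v₂ E₂ f Dx Dy →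
  ∀ᵐ z : Xn n, f z ≠ 0 → (v₁ z.1 - v₂ z.1) + ∑ j, (v₁ (z.2 j) - v₂ (z.2 j)) = E₁ - E₂

/-- Task TWO -/
def S_TWO2 : Prop := S_FB1 → S_TWO

/-- Task FIN -/
def S_FIN : Prop := S_SPLIT → S_UCP → S_VAR → S_EL → S_TWO → S_FB1 → S_HK

end Pool.Agent.H998.HK
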