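import Pool.Agent.H773.HK.Ineq
import Pool.Agent.H773.HK.Sob
import Pool.Agent.H998.HK.Spec3

set_option autoImplicit false

noncomputable section

namespace Pool.Agent.H998.HK

open MeasureTheory Filter Topology Set
open scoped ENNReal NNReal
open Pool.Agent.H773.HK (WDF eb sobC split_sobolev xstar_split hardy)

section gen

variable {X : Type} [NormedAddCommGroup X] [NormedSpace ℝ X] [FiniteDimensional ℝ X]
  [MeasureSpace X] [BorelSpace X] [(volume : Measure X).IsAddHaarMeasure]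

theorem cv1 (a : ℝ) (w : ℂ) : ENNReal.ofReal (|a| * ‖w‖ ^ 2) = ‖a‖ₑ * ‖w‖ₑ ^ 2 := by
  rw [ENNReal.ofReal_mul (abs_nonneg _), ENNReal.ofReal_pow (norm_nonneg _), ofReal_norm,
    ← Real.norm_eq_abs, ofReal_norm]

theorem cv2 (w : ℂ) : ENNReal.ofReal (‖w‖ ^ 2) = ‖w‖ₑ ^ 2 := by
  rw [ENNReal.ofReal_pow (norm_nonneg _), ofReal_norm]

theorem cv3 {D : Fin 3 → X → ℂ} (hD : ∀ i, MemLp (D i) 2) :
    ∫⁻ z, ENNReal.ofReal (∑ i, ‖D i z‖ ^ 2) = ∑ i, ∫⁻ z, ‖D i z‖ₑ ^ 2 := by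
  rw [← lintegral_finsetSum' _ fun i _ => (hD i).1.enorm.pow_const 2]
  refine lintegral_congr fun z => ?_
  rw [ENNReal.ofReal_sum_of_nonneg fun i _ => by positivity]
  simp only [cv2]

end gen

theorem fb_gen {v : E3 → ℝ} (hv : XStar v) (hvm : Measurable v) {ε : ℝ} (hε : 0 < ε) :
    ∃ C : ℝ, 0 < C ∧ ∀ (X : Type) [NormedAddCommGroup X] [NormedSpace ℝ X] [FiniteDimensional ℝ X]
      [MeasureSpace X] [BorelSpace X] [(volume : Measure X).IsAddHaarMeasure]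
      (P : X →L[ℝ] E3) (ι : E3 →L[ℝ] X), (∀ a, P (ι a) = a) → ∀ (f : X → ℂ) (D : Fin 3 → X → ℂ),
      MemLp f 2 → (∀ i, MemLp (D i) 2) → (∀ i, WD (ι (eb i)) f (D i)) →
      ∫⁻ z, ENNReal.ofReal (|v (P z)| * ‖f z‖ ^ 2) ≤
        ENNReal.ofReal ε * (∫⁻ z, ENNReal.ofReal (∑ i, ‖D i z‖ ^ 2)) +
          ENNReal.ofReal C * ∫⁻ z, ENNReal.ofReal (‖f z‖ ^ 2) := by
  set s : ℝ := (sobC : ℝ) with hs
  have hs0 : 0 ≤ s := NNReal.coe_nonneg _
  obtain ⟨C, v', hC, hv'm, hN, hvv⟩ := xstar_split hv hvm (ε := ε / (s + 1)) (by positivity)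
  refine ⟨C + 1, by positivity, ?_⟩
  intro X _ _ _ _ _ _ P ι hP f D hf hD hw
  have h := split_sobolev (X := X) (F := ℂ) P ι hP hvm hv'm (C := ENNReal.ofReal C)
    (ε := ENNReal.ofReal (ε / (s + 1))) ENNReal.ofReal_ne_top ENNReal.ofReal_ne_top hvv hN hf hD
    (fun i => hw i)
  simp only [cv1, cv2]
  rw [cv3 hD]
  refine h.trans ?_
  rw [add_comm]
  have e1 : (sobC : ℝ≥0∞) * ENNReal.ofReal (ε / (s + 1)) ≤ ENNReal.ofReal ε := by
    have e2 : (sobC : ℝ≥0∞) = ENNReal.ofReal s := by rw [hs]; simp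
    rw [e2, ← ENNReal.ofReal_mul hs0]
    refine ENNReal.ofReal_le_ofReal ?_
    rw [mul_div_assoc', div_le_iff₀ (by positivity)]
    nlinarith
  gcongr
  linarith

theorem haarY (n : ℕ) : (volume : Measure (Yn n)).IsAddHaarMeasure := by
  rw [volume_pi]; infer_instance

theorem haarX (n : ℕ) : (volume : Measure (Xn n)).IsAddHaarMeasure := by
  rw [Measure.volume_eq_prod]
  have := haarY n
  exact Measure.prod.instIsAddHaarMeasure _ _

theorem t_FBX : S_FBX := by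
  intro v hv hvm ε hε
  obtain ⟨C, hC, h⟩ := fb_gen hv hvm hε
  refine ⟨C, hC, fun n f D hf hD hw => ?_⟩
  have := haarX n
  exact h (Xn n) (ContinuousLinearMap.fst ℝ E3 (Yn n)) (ContinuousLinearMap.inl ℝ E3 (Yn n))
    (fun a => by simp) f D hf hD (fun i => hw i)

/-- the embedding of the variable `y_j` -/
def iy (n : ℕ) (j : Fin n) : E3 →L[ℝ] Xn n :=
  (ContinuousLinearMap.inr ℝ E3 (Yn n)).comp (ContinuousLinearMap.single ℝ (fun _ => E3) j)

theorem iy_apply (n : ℕ) (j : Fin n) (i : Fin 3) : iy n j (eb i) = ey n j i := by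
  simp [iy, ey, eb]

/-- the projection to the variable `y_j` -/
def py (n : ℕ) (j : Fin n) : Xn n →L[ℝ] E3 :=
  (ContinuousLinearMap.proj (φ := fun _ : Fin n => E3) j).comp (ContinuousLinearMap.snd ℝ E3 (Yn n))

theorem py_apply (n : ℕ) (j : Fin n) (z : Xn n) : py n j z = z.2 j := rfl

theorem t_FBY : S_FBY := by
  intro v hv hvm ε hε
  obtain ⟨C, hC, h⟩ := fb_gen hv hvm hε
  refine ⟨C, hC, fun n j f D hf hD hw => ?_⟩
  have := haarX n
  exact h (Xn n) (py n j) (iy n j) (fun a => by simp [py, iy]) f D hf hD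
    (fun i => by rw [iy_apply]; exact hw i)

theorem cou_gen {ε : ℝ} (hε : 0 < ε) :
    ∃ C : ℝ, 0 < C ∧ ∀ (X : Type) [NormedAddCommGroup X] [NormedSpace ℝ X] [FiniteDimensional ℝ X]
      [MeasureSpace X] [BorelSpace X] [(volume : Measure X).IsAddHaarMeasure]
      (P : X →L[ℝ] E3) (e : Fin 3 → X), (∀ i, P (e i) = eb i) → ∀ (f : X → ℂ) (D : Fin 3 → X → ℂ),
      MemLp f 2 → (∀ i, MemLp (D i) 2) → (∀ i, WD (e i) f (D i)) →
      ∫⁻ z, ENNReal.ofReal (1 / ‖P z‖ * ‖f z‖ ^ 2) ≤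
        ENNReal.ofReal ε * (∫⁻ z, ENNReal.ofReal (∑ i, ‖D i z‖ ^ 2)) +
          ENNReal.ofReal C * ∫⁻ z, ENNReal.ofReal (‖f z‖ ^ 2) := by
  refine ⟨1 / ε, by positivity, ?_⟩
  intro X _ _ _ _ _ _ P e hP f D hf hD hw
  have h := hardy (X := X) (F := ℂ) P e hP 0 hf hD (fun i => hw i)
  simp only [sub_zero] at h
  rw [cv3 hD]
  have hPm : Measurable fun z => ‖P z‖ := P.continuous.norm.measurable
  calc ∫⁻ z, ENNReal.ofReal (1 / ‖P z‖ * ‖f z‖ ^ 2)
      ≤ ∫⁻ z, (ENNReal.ofReal (ε / 4) * (ENNReal.ofReal (1 / ‖P z‖ ^ 2) * ‖f z‖ₑ ^ 2) +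
          ENNReal.ofReal (1 / ε) * ENNReal.ofReal (‖f z‖ ^ 2)) := by
        refine lintegral_mono fun z => ?_
        rw [← cv2, ← ENNReal.ofReal_mul (by positivity), ← ENNReal.ofReal_mul (by positivity),
          ← ENNReal.ofReal_mul (by positivity), ← ENNReal.ofReal_add (by positivity) (by positivity)]
        refine ENNReal.ofReal_le_ofReal ?_
        have k : 1 / ‖P z‖ ≤ ε / 4 * (1 / ‖P z‖ ^ 2) + 1 / ε := by
          set t := 1 / ‖P z‖ with ht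
          have h1 : 1 / ‖P z‖ ^ 2 = t ^ 2 := by rw [ht]; simp
          rw [h1]
          have h2 : 0 ≤ (ε * t / 2 - 1) ^ 2 := sq_nonneg _
          have h3 : ε / 4 * t ^ 2 + 1 / ε - t = (ε * t / 2 - 1) ^ 2 / ε := by
            field_simp
            ring
          have h4 : 0 ≤ (ε * t / 2 - 1) ^ 2 / ε := by positivity
          linarith
        calc 1 / ‖P z‖ * ‖f z‖ ^ 2 ≤ (ε / 4 * (1 / ‖P z‖ ^ 2) + 1 / ε) * ‖f z‖ ^ 2 := by gcongr
          _ = _ := by ring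
    _ = ENNReal.ofReal (ε / 4) * (∫⁻ z, ENNReal.ofReal (1 / ‖P z‖ ^ 2) * ‖f z‖ₑ ^ 2) +
          ENNReal.ofReal (1 / ε) * ∫⁻ z, ENNReal.ofReal (‖f z‖ ^ 2) := by
        rw [lintegral_add_left', lintegral_const_mul' _ _ ENNReal.ofReal_ne_top,
          lintegral_const_mul' _ _ ENNReal.ofReal_ne_top]
        refine AEMeasurable.const_mul (AEMeasurable.mul ?_ (hf.1.enorm.pow_const 2)) _
        exact (measurable_const.div (hPm.pow_const 2)).ennreal_ofReal.aemeasurable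
    _ ≤ ENNReal.ofReal (ε / 4) * (4 * ∑ i, ∫⁻ z, ‖D i z‖ₑ ^ 2) +
          ENNReal.ofReal (1 / ε) * ∫⁻ z, ENNReal.ofReal (‖f z‖ ^ 2) := by gcongr
    _ = _ := by
        rw [← mul_assoc]
        congr 2
        have : (4 : ℝ≥0∞) = ENNReal.ofReal 4 := by norm_num
        rw [this, ← ENNReal.ofReal_mul (by positivity)]
        congr 1
        ring

theorem t_COUX : S_COUX := by
  intro ε hε
  obtain ⟨C, hC, h⟩ := cou_gen hε
  refine ⟨C, hC, fun n j f D hf hD hw => ?_⟩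
  have := haarX n
  exact h (Xn n) (ContinuousLinearMap.fst ℝ E3 (Yn n) - py n j) (ex n)
    (fun i => by simp [py, ex, eb]) f D hf hD hw

theorem t_COUY : S_COUY := by
  intro ε hε
  obtain ⟨C, hC, h⟩ := cou_gen hε
  refine ⟨C, hC, fun n j k f D hjk hf hD hw => ?_⟩
  have := haarX n
  exact h (Xn n) (py n j - py n k) (ey n j)
    (fun i => by
      simp [py, ey, eb, Pi.single_eq_of_ne (Ne.symm hjk)]) f D hf hD hw

end Pool.Agent.H998.HK
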