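import Pool.Agent.H773.HK.Moll
import Pool.Agent.H825.HK.Two2
import Pool.Agent.H998.HK.FormB
import Pool.Agent.H123.HK.A

/-! The weak equation against real test functions implies the weak equation. -/

set_option autoImplicit false
set_option linter.unusedSectionVars false

noncomputable section

namespace Pool.Agent.H998.HK

open MeasureTheory Filter Topology Set
open scoped ENNReal NNReal ComplexConjugate
open Pool.Agent.H825.HK (integrable_form h1_test measurable_pot integrable_conj_mul integrable_pot)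
open Pool.Agent.H773.HK (exists_test_approx)

variable {n : ℕ}

/-- the square of the `H¹` norm -/
def N1 (h : Xn n → ℂ) (Gx : Fin 3 → Xn n → ℂ) (Gy : Fin n → Fin 3 → Xn n → ℂ) : ℝ≥0∞ :=
  (∫⁻ z, ‖h z‖ₑ ^ 2) + (∑ i, ∫⁻ z, ‖Gx i z‖ₑ ^ 2) + ∑ j, ∑ i, ∫⁻ z, ‖Gy j i z‖ₑ ^ 2

theorem sq_fin {u : Xn n → ℂ} (hu : MemLp u 2) : ∫⁻ z, ‖u z‖ₑ ^ 2 ≠ ∞ :=
  have := haarX n
  (Pool.Agent.H773.HK.memLp_two_iff.1 hu).2

theorem N1_fin {h : Xn n → ℂ} {Gx : Fin 3 → Xn n → ℂ} {Gy : Fin n → Fin 3 → Xn n → ℂ}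
    (H : H1 n h Gx Gy) : N1 h Gx Gy ≠ ∞ := by
  unfold N1
  refine ENNReal.add_ne_top.2 ⟨ENNReal.add_ne_top.2 ⟨sq_fin H.f2, ?_⟩, ?_⟩
  · exact (ENNReal.sum_lt_top.2 fun i _ => (sq_fin (H.x2 i)).lt_top).ne
  · exact (ENNReal.sum_lt_top.2 fun j _ => ENNReal.sum_lt_top.2 fun i _ =>
      (sq_fin (H.y2 j i)).lt_top).ne

theorem N1_x {h : Xn n → ℂ} {Gx : Fin 3 → Xn n → ℂ} {Gy : Fin n → Fin 3 → Xn n → ℂ} (i : Fin 3) :
    ∫⁻ z, ‖Gx i z‖ₑ ^ 2 ≤ N1 h Gx Gy := by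
  unfold N1
  calc ∫⁻ z, ‖Gx i z‖ₑ ^ 2 ≤ ∑ i, ∫⁻ z, ‖Gx i z‖ₑ ^ 2 :=
        Finset.single_le_sum (f := fun i => ∫⁻ z, ‖Gx i z‖ₑ ^ 2) (fun _ _ => zero_le)
          (Finset.mem_univ i)
    _ ≤ (∫⁻ z, ‖h z‖ₑ ^ 2) + ∑ i, ∫⁻ z, ‖Gx i z‖ₑ ^ 2 := le_add_self
    _ ≤ _ := le_self_add

theorem N1_y {h : Xn n → ℂ} {Gx : Fin 3 → Xn n → ℂ} {Gy : Fin n → Fin 3 → Xn n → ℂ} (j : Fin n)
    (i : Fin 3) : ∫⁻ z, ‖Gy j i z‖ₑ ^ 2 ≤ N1 h Gx Gy := by
  unfold N1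
  calc ∫⁻ z, ‖Gy j i z‖ₑ ^ 2 ≤ ∑ i, ∫⁻ z, ‖Gy j i z‖ₑ ^ 2 :=
        Finset.single_le_sum (f := fun i => ∫⁻ z, ‖Gy j i z‖ₑ ^ 2) (fun _ _ => zero_le)
          (Finset.mem_univ i)
    _ ≤ ∑ j, ∑ i, ∫⁻ z, ‖Gy j i z‖ₑ ^ 2 :=
        Finset.single_le_sum (f := fun j => ∑ i, ∫⁻ z, ‖Gy j i z‖ₑ ^ 2) (fun _ _ => zero_le)
          (Finset.mem_univ j)
    _ ≤ _ := le_add_self

theorem N1_h {h : Xn n → ℂ} {Gx : Fin 3 → Xn n → ℂ} {Gy : Fin n → Fin 3 → Xn n → ℂ} :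
    ∫⁻ z, ‖h z‖ₑ ^ 2 ≤ N1 h Gx Gy := by
  unfold N1
  rw [add_assoc]
  exact le_self_add

theorem N1_xs {h : Xn n → ℂ} {Gx : Fin 3 → Xn n → ℂ} {Gy : Fin n → Fin 3 → Xn n → ℂ} :
    ∑ i, ∫⁻ z, ‖Gx i z‖ₑ ^ 2 ≤ N1 h Gx Gy := by
  unfold N1
  exact le_trans le_add_self le_self_add

theorem N1_ys {h : Xn n → ℂ} {Gx : Fin 3 → Xn n → ℂ} {Gy : Fin n → Fin 3 → Xn n → ℂ} (j : Fin n) :
    ∑ i, ∫⁻ z, ‖Gy j i z‖ₑ ^ 2 ≤ N1 h Gx Gy := by
  unfold N1
  calc ∑ i, ∫⁻ z, ‖Gy j i z‖ₑ ^ 2 ≤ ∑ j, ∑ i, ∫⁻ z, ‖Gy j i z‖ₑ ^ 2 :=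
        Finset.single_le_sum (f := fun j => ∑ i, ∫⁻ z, ‖Gy j i z‖ₑ ^ 2) (fun _ _ => zero_le)
          (Finset.mem_univ j)
    _ ≤ _ := le_add_self

/-- quantitative form bound -/
theorem qfb (h1 : S_FBX) (h2 : S_FBY) (h3 : S_COUX) (h4 : S_COUY) (n : ℕ) {v : E3 → ℝ}
    (hv : XStar v) (hvm : Measurable v) (E : ℝ) : ∃ C : ℝ≥0∞, C ≠ ∞ ∧ ∀ (h : Xn n → ℂ)
    (Gx : Fin 3 → Xn n → ℂ) (Gy : Fin n → Fin 3 → Xn n → ℂ), H1 n h Gx Gy →
      ∫⁻ z, ‖pot n v z - E‖ₑ * ‖h z‖ₑ ^ 2 ≤ C * N1 h Gx Gy := by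
  obtain ⟨C1, _, H1'⟩ := h1 v hv hvm 1 one_pos
  obtain ⟨C2, _, H2'⟩ := h2 v hv hvm 1 one_pos
  obtain ⟨C3, _, H3'⟩ := h3 1 one_pos
  obtain ⟨C4, _, H4'⟩ := h4 1 one_pos
  refine ⟨(1 + ENNReal.ofReal C1) + n * (1 + ENNReal.ofReal C2) + n * (1 + ENNReal.ofReal C3) +
    n * (n * (1 + ENNReal.ofReal C4)) + ‖E‖ₑ, by finiteness, ?_⟩
  intro h Gx Gy H
  set N := N1 h Gx Gy with hN
  have hh := H.f2.1.enorm.pow_const 2
  have gen : ∀ (C : ℝ) (D : Fin 3 → Xn n → ℂ), (∀ i, MemLp (D i) 2) →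
      (∑ i, ∫⁻ z, ‖D i z‖ₑ ^ 2) ≤ N → ENNReal.ofReal 1 * (∫⁻ z, ENNReal.ofReal (∑ i, ‖D i z‖ ^ 2)) +
        ENNReal.ofReal C * ∫⁻ z, ENNReal.ofReal (‖h z‖ ^ 2) ≤ (1 + ENNReal.ofReal C) * N := by
    intro C D hD hDN
    have := haarX n
    rw [cv3 hD]
    simp only [cv2]
    rw [add_mul, ENNReal.ofReal_one]
    gcongr
    exact N1_h
  have b1 : ∫⁻ z, ‖v z.1‖ₑ * ‖h z‖ₑ ^ 2 ≤ (1 + ENNReal.ofReal C1) * N := by
    have := (H1' n h Gx H.f2 H.x2 H.wx).trans (gen C1 Gx H.x2 N1_xs)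
    simpa only [cv1] using this
  have b2 : ∀ j, ∫⁻ z, ‖v (z.2 j)‖ₑ * ‖h z‖ₑ ^ 2 ≤ (1 + ENNReal.ofReal C2) * N := by
    intro j
    have := (H2' n j h (Gy j) H.f2 (H.y2 j) (H.wy j)).trans (gen C2 (Gy j) (H.y2 j) (N1_ys j))
    simpa only [cv1] using this
  have b3 : ∀ j, ∫⁻ z, ENNReal.ofReal (1 / ‖z.1 - z.2 j‖) * ‖h z‖ₑ ^ 2 ≤
      (1 + ENNReal.ofReal C3) * N := by
    intro j
    have := (H3' n j h Gx H.f2 H.x2 H.wx).trans (gen C3 Gx H.x2 N1_xs)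
    refine le_trans (le_of_eq (lintegral_congr fun z => ?_)) this
    rw [ENNReal.ofReal_mul (by positivity), cv2]
  have b4 : ∀ j k : Fin n, ∫⁻ z : Xn n, ENNReal.ofReal (if j < k then 1 / ‖z.2 j - z.2 k‖ else 0) *
      ‖h z‖ₑ ^ 2 ≤ (1 + ENNReal.ofReal C4) * N := by
    intro j k
    by_cases hjk : j < k
    · simp only [hjk, if_true]
      have := (H4' n j k h (Gy j) hjk.ne H.f2 (H.y2 j) (H.wy j)).trans
        (gen C4 (Gy j) (H.y2 j) (N1_ys j))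
      refine le_trans (le_of_eq (lintegral_congr fun z => ?_)) this
      rw [ENNReal.ofReal_mul (by positivity), cv2]
    · simp only [hjk, if_false, ENNReal.ofReal_zero, zero_mul, lintegral_zero]
      exact zero_le
  have mj : ∀ j : Fin n, Measurable fun z : Xn n => z.2 j :=
    fun j => (measurable_pi_apply j).comp measurable_snd
  have m1 : AEMeasurable (fun z : Xn n => ‖v z.1‖ₑ * ‖h z‖ₑ ^ 2) :=
    (hvm.comp measurable_fst).enorm.aemeasurable.mul hh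
  have m2 : ∀ j, AEMeasurable (fun z : Xn n => ‖v (z.2 j)‖ₑ * ‖h z‖ₑ ^ 2) := fun j =>
    (hvm.comp (mj j)).enorm.aemeasurable.mul hh
  have m3 : ∀ j, AEMeasurable (fun z : Xn n => ENNReal.ofReal (1 / ‖z.1 - z.2 j‖) * ‖h z‖ₑ ^ 2) :=
    fun j => ((measurable_const.div (measurable_fst.sub (mj j)).norm).ennreal_ofReal).aemeasurable.mul
      hh
  have m4 : ∀ j k, AEMeasurable (fun z : Xn n =>
      ENNReal.ofReal (if j < k then 1 / ‖z.2 j - z.2 k‖ else 0) * ‖h z‖ₑ ^ 2) := fun j k => by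
    refine AEMeasurable.mul (Measurable.aemeasurable ?_) hh
    refine Measurable.ennreal_ofReal ?_
    split_ifs
    · exact measurable_const.div ((mj j).sub (mj k)).norm
    · exact measurable_const
  have m4' : ∀ j, AEMeasurable (fun z : Xn n => ∑ k,
      ENNReal.ofReal (if j < k then 1 / ‖z.2 j - z.2 k‖ else 0) * ‖h z‖ₑ ^ 2) := fun j =>
    Finset.aemeasurable_fun_sum _ fun k _ => m4 j k
  calc ∫⁻ z, ‖pot n v z - E‖ₑ * ‖h z‖ₑ ^ 2
      ≤ ∫⁻ z, (‖v z.1‖ₑ * ‖h z‖ₑ ^ 2 + ∑ j, ‖v (z.2 j)‖ₑ * ‖h z‖ₑ ^ 2 +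
          ∑ j, ENNReal.ofReal (1 / ‖z.1 - z.2 j‖) * ‖h z‖ₑ ^ 2 +
          ∑ j, ∑ k, ENNReal.ofReal (if j < k then 1 / ‖z.2 j - z.2 k‖ else 0) * ‖h z‖ₑ ^ 2 +
          ‖E‖ₑ * ‖h z‖ₑ ^ 2) := by
        refine lintegral_mono fun z => ?_
        simp only [← Finset.sum_mul, ← add_mul]
        gcongr
        refine (enorm_sub_le).trans ?_
        gcongr
        unfold pot
        refine (enorm_add_le _ _).trans (add_le_add ((enorm_add_le _ _).trans (add_le_add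
          ((enorm_add_le _ _).trans (add_le_add le_rfl (enorm_sum_le _ _))) ?_)) ?_)
        · refine (enorm_sum_le _ _).trans (Finset.sum_le_sum fun j _ => ?_)
          rw [Real.enorm_of_nonneg (by positivity)]
        · refine (enorm_sum_le _ _).trans (Finset.sum_le_sum fun j _ =>
            (enorm_sum_le _ _).trans (Finset.sum_le_sum fun k _ => ?_))
          rw [Real.enorm_of_nonneg (by split_ifs <;> positivity)]
    _ = (∫⁻ z, ‖v z.1‖ₑ * ‖h z‖ₑ ^ 2) + ∑ j, (∫⁻ z, ‖v (z.2 j)‖ₑ * ‖h z‖ₑ ^ 2) +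
          ∑ j, (∫⁻ z, ENNReal.ofReal (1 / ‖z.1 - z.2 j‖) * ‖h z‖ₑ ^ 2) +
          ∑ j, ∑ k, (∫⁻ z : Xn n, ENNReal.ofReal (if j < k then 1 / ‖z.2 j - z.2 k‖ else 0) *
            ‖h z‖ₑ ^ 2) + ∫⁻ z, ‖E‖ₑ * ‖h z‖ₑ ^ 2 := by
        rw [lintegral_add_right' _ (hh.const_mul _),
          lintegral_add_right' _ (Finset.aemeasurable_fun_sum _ fun j _ => m4' j),
          lintegral_add_right' _ (Finset.aemeasurable_fun_sum _ fun j _ => m3 j),
          lintegral_add_right' _ (Finset.aemeasurable_fun_sum _ fun j _ => m2 j),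
          lintegral_finsetSum' _ (fun j _ => m2 j), lintegral_finsetSum' _ (fun j _ => m3 j),
          lintegral_finsetSum' _ (fun j _ => m4' j)]
        congr 2
        refine Finset.sum_congr rfl fun j _ => ?_
        rw [lintegral_finsetSum' _ (fun k _ => m4 j k)]
    _ ≤ (1 + ENNReal.ofReal C1) * N + ∑ _j : Fin n, (1 + ENNReal.ofReal C2) * N +
          ∑ _j : Fin n, (1 + ENNReal.ofReal C3) * N +
          ∑ _j : Fin n, ∑ _k : Fin n, (1 + ENNReal.ofReal C4) * N + ‖E‖ₑ * N := by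
        gcongr with j _ j _ j _ k _
        · exact b2 j
        · exact b3 j
        · exact b4 j k
        · rw [lintegral_const_mul' _ _ enorm_ne_top]
          gcongr
          exact N1_h
    _ = _ := by
        simp only [Finset.sum_const, Finset.card_univ, Fintype.card_fin, nsmul_eq_mul]
        ring

theorem fb1_of (h1 : S_FBX) (h2 : S_FBY) (h3 : S_COUX) (h4 : S_COUY) : S_FB1 := by
  intro n v hv hvm f Dx Dy hf
  obtain ⟨C, hC, h⟩ := qfb h1 h2 h3 h4 n hv hvm 0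
  refine ⟨((measurable_pot hvm).abs.aestronglyMeasurable).mul (hf.f2.1.norm.pow 2), ?_⟩
  rw [hasFiniteIntegral_iff_ofReal (ae_of_all _ fun z => by positivity)]
  refine lt_of_le_of_lt ?_ (ENNReal.mul_lt_top hC.lt_top (N1_fin hf).lt_top)
  refine le_trans (le_of_eq ?_) (h f Dx Dy hf)
  refine lintegral_congr fun z => ?_
  rw [cv1, sub_zero]

theorem cs {a b : Xn n → ℝ≥0∞} (ha : AEMeasurable a) (hb : AEMeasurable b) :
    ∫⁻ z, a z * b z ≤ (∫⁻ z, a z ^ 2) ^ (1 / 2 : ℝ) * (∫⁻ z, b z ^ 2) ^ (1 / 2 : ℝ) := by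
  have h := ENNReal.lintegral_mul_le_Lp_mul_Lq (volume : Measure (Xn n))
    (Real.HolderConjugate.two_two) ha hb
  simpa using h

theorem form_bound {v : E3 → ℝ} {E : ℝ} (hvm : Measurable v) {C : ℝ≥0∞}
    (hq : ∀ (h : Xn n → ℂ) (Gx : Fin 3 → Xn n → ℂ) (Gy : Fin n → Fin 3 → Xn n → ℂ),
      H1 n h Gx Gy → ∫⁻ z, ‖pot n v z - E‖ₑ * ‖h z‖ₑ ^ 2 ≤ C * N1 h Gx Gy)
    {f : Xn n → ℂ} {Dx : Fin 3 → Xn n → ℂ} {Dy : Fin n → Fin 3 → Xn n → ℂ} (hf : H1 n f Dx Dy)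
    {g : Xn n → ℂ} {Gx : Fin 3 → Xn n → ℂ} {Gy : Fin n → Fin 3 → Xn n → ℂ} (hg : H1 n g Gx Gy) :
    ‖∫ z, formInt n v E f Dx Dy g Gx Gy z‖ₑ ≤
      (3 + n * 3 + C) * ((N1 g Gx Gy) ^ (1 / 2 : ℝ) * (N1 f Dx Dy) ^ (1 / 2 : ℝ)) := by
  set P := (N1 g Gx Gy) ^ (1 / 2 : ℝ) * (N1 f Dx Dy) ^ (1 / 2 : ℝ) with hP
  have bx : ∀ i, ∫⁻ z, ‖Gx i z‖ₑ * ‖Dx i z‖ₑ ≤ P := fun i =>
    (cs (hg.x2 i).1.enorm (hf.x2 i).1.enorm).trans (by
      rw [hP]
      gcongr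
      · exact N1_x i
      · exact N1_x i)
  have by' : ∀ j i, ∫⁻ z, ‖Gy j i z‖ₑ * ‖Dy j i z‖ₑ ≤ P := fun j i =>
    (cs (hg.y2 j i).1.enorm (hf.y2 j i).1.enorm).trans (by
      rw [hP]
      gcongr
      · exact N1_y j i
      · exact N1_y j i)
  have mp : Measurable fun z => ‖pot n v z - E‖ₑ := ((measurable_pot hvm).sub_const E).enorm
  have bp : ∫⁻ z, ‖pot n v z - E‖ₑ * (‖g z‖ₑ * ‖f z‖ₑ) ≤ C * P := by
    have e : ∀ z, ‖pot n v z - E‖ₑ * (‖g z‖ₑ * ‖f z‖ₑ) =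
        (‖pot n v z - E‖ₑ ^ (1 / 2 : ℝ) * ‖g z‖ₑ) * (‖pot n v z - E‖ₑ ^ (1 / 2 : ℝ) * ‖f z‖ₑ) := by
      intro z
      have : ‖pot n v z - E‖ₑ ^ (1 / 2 : ℝ) * ‖pot n v z - E‖ₑ ^ (1 / 2 : ℝ) =
          ‖pot n v z - E‖ₑ := by
        rw [← ENNReal.rpow_add_of_nonneg _ _ (by norm_num) (by norm_num)]
        norm_num
      calc _ = (‖pot n v z - E‖ₑ ^ (1 / 2 : ℝ) * ‖pot n v z - E‖ₑ ^ (1 / 2 : ℝ)) *
            (‖g z‖ₑ * ‖f z‖ₑ) := by rw [this]
        _ = _ := by ring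
    have e2 : ∀ (u : Xn n → ℂ) z, (‖pot n v z - E‖ₑ ^ (1 / 2 : ℝ) * ‖u z‖ₑ) ^ 2 =
        ‖pot n v z - E‖ₑ * ‖u z‖ₑ ^ 2 := by
      intro u z
      rw [mul_pow, ← ENNReal.rpow_natCast, ← ENNReal.rpow_mul]
      norm_num
    simp only [e]
    refine (cs (a := fun z => ‖pot n v z - E‖ₑ ^ (1 / 2 : ℝ) * ‖g z‖ₑ)
      (b := fun z => ‖pot n v z - E‖ₑ ^ (1 / 2 : ℝ) * ‖f z‖ₑ)
      ((mp.pow_const _).aemeasurable.mul hg.f2.1.enorm)
      ((mp.pow_const _).aemeasurable.mul hf.f2.1.enorm)).trans ?_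
    simp only [e2]
    calc (∫⁻ z, ‖pot n v z - E‖ₑ * ‖g z‖ₑ ^ 2) ^ (1 / 2 : ℝ) *
          (∫⁻ z, ‖pot n v z - E‖ₑ * ‖f z‖ₑ ^ 2) ^ (1 / 2 : ℝ)
        ≤ (C * N1 g Gx Gy) ^ (1 / 2 : ℝ) * (C * N1 f Dx Dy) ^ (1 / 2 : ℝ) := by
          gcongr
          · exact hq g Gx Gy hg
          · exact hq f Dx Dy hf
      _ = (C ^ (1 / 2 : ℝ) * C ^ (1 / 2 : ℝ)) * P := by
          rw [ENNReal.mul_rpow_of_nonneg _ _ (by norm_num),
            ENNReal.mul_rpow_of_nonneg _ _ (by norm_num), hP]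
          ring
      _ = C * P := by
          rw [← ENNReal.rpow_add_of_nonneg _ _ (by norm_num) (by norm_num)]
          norm_num
  have mx : ∀ i, AEMeasurable fun z => ‖Gx i z‖ₑ * ‖Dx i z‖ₑ := fun i =>
    (hg.x2 i).1.enorm.mul (hf.x2 i).1.enorm
  have my : ∀ j i, AEMeasurable fun z => ‖Gy j i z‖ₑ * ‖Dy j i z‖ₑ := fun j i =>
    (hg.y2 j i).1.enorm.mul (hf.y2 j i).1.enorm
  have mq : AEMeasurable fun z => ‖pot n v z - E‖ₑ * (‖g z‖ₑ * ‖f z‖ₑ) :=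
    mp.aemeasurable.mul (hg.f2.1.enorm.mul hf.f2.1.enorm)
  calc ‖∫ z, formInt n v E f Dx Dy g Gx Gy z‖ₑ
      ≤ ∫⁻ z, ‖formInt n v E f Dx Dy g Gx Gy z‖ₑ := enorm_integral_le_lintegral_enorm _
    _ ≤ ∫⁻ z, (∑ i, ‖Gx i z‖ₑ * ‖Dx i z‖ₑ + ∑ j, ∑ i, ‖Gy j i z‖ₑ * ‖Dy j i z‖ₑ +
          ‖pot n v z - E‖ₑ * (‖g z‖ₑ * ‖f z‖ₑ)) := by
        refine lintegral_mono fun z => ?_
        unfold formInt
        refine (enorm_add_le _ _).trans (add_le_add ?_ ?_)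
        · rw [enorm_mul]
          have h2 : ‖(1 / 2 : ℂ)‖ₑ ≤ 1 := by
            rw [← ofReal_norm]
            refine ENNReal.ofReal_le_one.2 ?_
            norm_num
          have e1 : ∀ (a b : ℂ), ‖conj a * b‖ₑ = ‖a‖ₑ * ‖b‖ₑ := fun a b => by
            rw [enorm_mul, ← ofReal_norm, RCLike.norm_conj, ofReal_norm]
          calc _ ≤ 1 * ‖∑ i, conj (Gx i z) * Dx i z + ∑ j, ∑ i, conj (Gy j i z) * Dy j i z‖ₑ := by
                gcongr
            _ ≤ _ := by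
                rw [one_mul]
                refine (enorm_add_le _ _).trans (add_le_add ?_ ?_)
                · refine (enorm_sum_le _ _).trans (Finset.sum_le_sum fun i _ => ?_)
                  rw [e1]
                · refine (enorm_sum_le _ _).trans (Finset.sum_le_sum fun j _ =>
                    (enorm_sum_le _ _).trans (Finset.sum_le_sum fun i _ => ?_))
                  rw [e1]
        · rw [enorm_mul, enorm_mul, ← ofReal_norm, ← ofReal_norm, RCLike.norm_conj,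
            Complex.norm_real, ofReal_norm, ofReal_norm]
    _ = (∑ i, ∫⁻ z, ‖Gx i z‖ₑ * ‖Dx i z‖ₑ) + (∑ j, ∑ i, ∫⁻ z, ‖Gy j i z‖ₑ * ‖Dy j i z‖ₑ) +
          ∫⁻ z, ‖pot n v z - E‖ₑ * (‖g z‖ₑ * ‖f z‖ₑ) := by
        rw [lintegral_add_right' _ mq, lintegral_add_right' _
          (Finset.aemeasurable_fun_sum _ fun j _ => Finset.aemeasurable_fun_sum _ fun i _ => my j i),
          lintegral_finsetSum' _ (fun i _ => mx i),
          lintegral_finsetSum' _ (fun j _ => Finset.aemeasurable_fun_sum _ fun i _ => my j i)]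
        congr 2
        refine Finset.sum_congr rfl fun j _ => ?_
        rw [lintegral_finsetSum' _ (fun i _ => my j i)]
    _ ≤ (∑ _i : Fin 3, P) + (∑ _j : Fin n, ∑ _i : Fin 3, P) + C * P := by
        gcongr with i _ j _ i _
        · exact bx i
        · exact by' j i
    _ = _ := by
        simp only [Finset.sum_const, Finset.card_univ, Fintype.card_fin, nsmul_eq_mul]
        push_cast
        ring

/-- statement of the density task (helper690) -/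
def S_TDENS : Prop := S_FBX → S_FBY → S_COUX → S_COUY → ∀ (n : ℕ) (v : E3 → ℝ) (E : ℝ)
  (f : Xn n → ℂ) (Dx : Fin 3 → Xn n → ℂ) (Dy : Fin n → Fin 3 → Xn n → ℂ), XStar v → Measurable v →
  H1 n f Dx Dy → (∀ φ : Xn n → ℝ, Test φ → ∫ z, formInt n v E f Dx Dy (fun z => ((φ z : ℝ) : ℂ))
    (fun i z => ((fderiv ℝ φ z (ex n i) : ℝ) : ℂ))
    (fun j i z => ((fderiv ℝ φ z (ey n j i) : ℝ) : ℂ)) z = 0) → WeakSol n v E f Dx Dy

theorem t_TDENS : S_TDENS := by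
  intro h1 h2 h3 h4 n v E f Dx Dy hv hvm hf hφ g Gx Gy hg
  have hFB := fb1_of h1 h2 h3 h4
  obtain ⟨C, hC, hq⟩ := qfb h1 h2 h3 h4 n hv hvm E
  have haar := haarX n
  -- complex test functions
  have hw : ∀ w : Xn n → ℂ, ContDiff ℝ ((⊤ : ℕ∞) : WithTop ℕ∞) w → HasCompactSupport w →
      H1 n w (fun i z => fderiv ℝ w z (ex n i)) (fun j i z => fderiv ℝ w z (ey n j i)) ∧
      ∫ z, formInt n v E f Dx Dy w (fun i z => fderiv ℝ w z (ex n i))
        (fun j i z => fderiv ℝ w z (ey n j i)) z = 0 := by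
    intro w hw1 hw2
    have ha : Test fun z => (w z).re :=
      ⟨Complex.reCLM.contDiff.comp hw1, hw2.comp_left (g := Complex.re) Complex.zero_re⟩
    have hb : Test fun z => (w z).im :=
      ⟨Complex.imCLM.contDiff.comp hw1, hw2.comp_left (g := Complex.im) Complex.zero_im⟩
    have hwd : Differentiable ℝ w := hw1.differentiable (by simp)
    have ea : ∀ z e, fderiv ℝ (fun z => (w z).re) z e = (fderiv ℝ w z e).re := fun z e => by
      have : HasFDerivAt (fun z => (w z).re) (Complex.reCLM.comp (fderiv ℝ w z)) z :=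
        Complex.reCLM.hasFDerivAt.comp z (hwd z).hasFDerivAt
      rw [this.fderiv]; simp
    have eb' : ∀ z e, fderiv ℝ (fun z => (w z).im) z e = (fderiv ℝ w z e).im := fun z e => by
      have : HasFDerivAt (fun z => (w z).im) (Complex.imCLM.comp (fderiv ℝ w z)) z :=
        Complex.imCLM.hasFDerivAt.comp z (hwd z).hasFDerivAt
      rw [this.fderiv]; simp
    have Ha := h1_test ha
    have Hb := h1_test hb
    have dec : ∀ c : ℂ, c = (c.re : ℂ) + Complex.I * (c.im : ℂ) := fun c => by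
      conv_lhs => rw [← Complex.re_add_im c]
      ring
    have dd : ∀ z e, fderiv ℝ w z e = ((fderiv ℝ (fun z => (w z).re) z e : ℝ) : ℂ) +
        Complex.I * ((fderiv ℝ (fun z => (w z).im) z e : ℝ) : ℂ) := fun z e => by
      rw [ea, eb']; exact dec _
    have m0 : MemLp w 2 := hw1.continuous.memLp_of_hasCompactSupport hw2
    have md : ∀ e, MemLp (fun z => fderiv ℝ w z e) 2 := fun e =>
      ((hw1.continuous_fderiv (by simp)).clm_apply continuous_const).memLp_of_hasCompactSupport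
        (hw2.fderiv_apply (𝕜 := ℝ) e)
    have wd : ∀ e, WD e (fun z => (((w z).re : ℝ) : ℂ))
        (fun z => ((fderiv ℝ (fun z => (w z).re) z e : ℝ) : ℂ)) → WD e (fun z => (((w z).im : ℝ) : ℂ))
        (fun z => ((fderiv ℝ (fun z => (w z).im) z e : ℝ) : ℂ)) →
        WD e w (fun z => fderiv ℝ w z e) := by
      intro e w1 w2
      have i2 := Pool.Agent.H123.HK.WD_smul Complex.I w2
      have mI : ∀ {u : Xn n → ℂ}, MemLp u 2 → MemLp (fun z => Complex.I * u z) 2 := fun hu =>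
        hu.const_mul _
      have := Pool.Agent.H123.HK.WD_add w1 i2 Ha.f2
        (Pool.Agent.H825.HK.memLp_test_deriv ha e) (mI Hb.f2)
        (mI (Pool.Agent.H825.HK.memLp_test_deriv hb e))
      have e1 : (fun z => (((w z).re : ℝ) : ℂ) + Complex.I * (((w z).im : ℝ) : ℂ)) = w := by
        funext z; exact (dec _).symm
      have e2 : (fun z => ((fderiv ℝ (fun z => (w z).re) z e : ℝ) : ℂ) +
          Complex.I * ((fderiv ℝ (fun z => (w z).im) z e : ℝ) : ℂ)) = fun z => fderiv ℝ w z e := by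
        funext z; exact (dd z e).symm
      rw [e1, e2] at this
      exact this
    refine ⟨⟨m0, fun i => md _, fun j i => md _, fun i => wd _ (Ha.wx i) (Hb.wx i),
      fun j i => wd _ (Ha.wy j i) (Hb.wy j i)⟩, ?_⟩
    have ia := integrable_form hFB hv hvm hf Ha E
    have ib := integrable_form hFB hv hvm hf Hb E
    have split : ∀ z, formInt n v E f Dx Dy w (fun i z => fderiv ℝ w z (ex n i))
        (fun j i z => fderiv ℝ w z (ey n j i)) z =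
        formInt n v E f Dx Dy (fun z => (((w z).re : ℝ) : ℂ))
          (fun i z => ((fderiv ℝ (fun z => (w z).re) z (ex n i) : ℝ) : ℂ))
          (fun j i z => ((fderiv ℝ (fun z => (w z).re) z (ey n j i) : ℝ) : ℂ)) z +
        (-Complex.I) * formInt n v E f Dx Dy (fun z => (((w z).im : ℝ) : ℂ))
          (fun i z => ((fderiv ℝ (fun z => (w z).im) z (ex n i) : ℝ) : ℂ))
          (fun j i z => ((fderiv ℝ (fun z => (w z).im) z (ey n j i) : ℝ) : ℂ)) z := by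
      intro z
      have hwz : conj (w z) = (((w z).re : ℝ) : ℂ) + (-Complex.I) * (((w z).im : ℝ) : ℂ) := by
        conv_lhs => rw [dec (w z)]
        simp
      unfold formInt
      simp only [dd, map_add, map_mul, Complex.conj_I, Complex.conj_ofReal, hwz, add_mul,
        Finset.sum_add_distrib, mul_add, Finset.mul_sum]
      have k1 : ∀ (a b : ℂ), -Complex.I * a * b = -Complex.I * (a * b) := fun a b => by ring
      simp only [k1, ← Finset.mul_sum]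
      ring
    simp only [split]
    rw [integral_add ia (ib.const_mul _), integral_const_mul, hφ _ ha, hφ _ hb, mul_zero, add_zero]
  -- approximation
  set K : ℝ≥0∞ := (3 + n * 3 + C) * (N1 f Dx Dy) ^ (1 / 2 : ℝ) with hK
  have hKf : K ≠ ∞ := by
    refine ENNReal.mul_ne_top (by finiteness) ?_
    exact ENNReal.rpow_ne_top_of_nonneg (by norm_num) (N1_fin hf)
  have step : ∀ ε : ℝ≥0∞, ε ≠ 0 → ‖∫ z, formInt n v E f Dx Dy g Gx Gy z‖ₑ ≤
      K * (((1 + 3 + n * 3) * ε) ^ (1 / 2 : ℝ)) := by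
    intro ε hε
    obtain ⟨w, hw1, hw2, hw3, hw4⟩ := exists_test_approx (X := Xn n) (F := ℂ)
      (ι := Fin 3 ⊕ (Fin n × Fin 3)) (u := g)
      (g := Sum.elim Gx (fun p => Gy p.1 p.2)) (e := Sum.elim (ex n) (fun p => ey n p.1 p.2))
      hg.f2 (by rintro (i | p); exacts [hg.x2 i, hg.y2 _ _])
      (by rintro (i | p); exacts [hg.wx i, hg.wy _ _]) hε
    obtain ⟨Hw, Hw0⟩ := hw w hw1 hw2
    -- difference
    have m1 : ∀ {u : Xn n → ℂ}, MemLp u 2 → MemLp (fun z => (-1 : ℂ) * u z) 2 := fun hu =>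
      hu.const_mul _
    have Hd : H1 n (fun z => g z + (-1) * w z) (fun i z => Gx i z + (-1) * fderiv ℝ w z (ex n i))
        (fun j i z => Gy j i z + (-1) * fderiv ℝ w z (ey n j i)) :=
      ⟨hg.f2.add (m1 Hw.f2), fun i => (hg.x2 i).add (m1 (Hw.x2 i)),
        fun j i => (hg.y2 j i).add (m1 (Hw.y2 j i)),
        fun i => Pool.Agent.H123.HK.WD_add (hg.wx i)
          (Pool.Agent.H123.HK.WD_smul (-1) (Hw.wx i)) hg.f2 (hg.x2 i) (m1 Hw.f2) (m1 (Hw.x2 i)),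
        fun j i => Pool.Agent.H123.HK.WD_add (hg.wy j i)
          (Pool.Agent.H123.HK.WD_smul (-1) (Hw.wy j i)) hg.f2 (hg.y2 j i) (m1 Hw.f2)
          (m1 (Hw.y2 j i))⟩
    have hN : N1 (fun z => g z + (-1) * w z) (fun i z => Gx i z + (-1) * fderiv ℝ w z (ex n i))
        (fun j i z => Gy j i z + (-1) * fderiv ℝ w z (ey n j i)) ≤ (1 + 3 + n * 3) * ε := by
      have ee : ∀ a b : ℂ, ‖a + (-1) * b‖ₑ = ‖b - a‖ₑ := fun a b => by
        rw [← enorm_neg]; congr 1; ring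
      unfold N1
      simp only [ee]
      calc _ ≤ ε + (∑ _i : Fin 3, ε) + ∑ _j : Fin n, ∑ _i : Fin 3, ε := by
            gcongr with i _ j _ i _
            · exact hw4 (Sum.inl i)
            · exact hw4 (Sum.inr (j, i))
        _ = _ := by
            simp only [Finset.sum_const, Finset.card_univ, Fintype.card_fin, nsmul_eq_mul]
            push_cast
            ring
    have split : ∀ z, formInt n v E f Dx Dy g Gx Gy z =
        formInt n v E f Dx Dy (fun z => g z + (-1) * w z)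
          (fun i z => Gx i z + (-1) * fderiv ℝ w z (ex n i))
          (fun j i z => Gy j i z + (-1) * fderiv ℝ w z (ey n j i)) z +
        formInt n v E f Dx Dy w (fun i z => fderiv ℝ w z (ex n i))
          (fun j i z => fderiv ℝ w z (ey n j i)) z := by
      intro z
      unfold formInt
      simp only [map_add, map_mul, map_neg, map_one, add_mul, Finset.sum_add_distrib, mul_add]
      have k1 : ∀ (a b : ℂ), -1 * a * b = -1 * (a * b) := fun a b => by ring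
      simp only [k1, ← Finset.mul_sum]
      ring
    have e0 : ∫ z, formInt n v E f Dx Dy g Gx Gy z = ∫ z, formInt n v E f Dx Dy
        (fun z => g z + (-1) * w z) (fun i z => Gx i z + (-1) * fderiv ℝ w z (ex n i))
          (fun j i z => Gy j i z + (-1) * fderiv ℝ w z (ey n j i)) z := by
      simp only [split]
      rw [integral_add (integrable_form hFB hv hvm hf Hd E) (integrable_form hFB hv hvm hf Hw E),
        Hw0, add_zero]
    rw [e0]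
    refine (form_bound hvm hq hf Hd).trans ?_
    rw [hK]
    calc _ ≤ (3 + n * 3 + C) * (((1 + 3 + n * 3) * ε) ^ (1 / 2 : ℝ) *
          (N1 f Dx Dy) ^ (1 / 2 : ℝ)) := by gcongr
      _ = _ := by ring
  have lim : Tendsto (fun ε : ℝ≥0∞ => K * (((1 + 3 + n * 3) * ε) ^ (1 / 2 : ℝ))) (𝓝[≠] 0) (𝓝 0) := by
    have hc : Tendsto (fun ε : ℝ≥0∞ => K * (((1 + 3 + (n : ℝ≥0∞) * 3) * ε) ^ (1 / 2 : ℝ))) (𝓝 0)
        (𝓝 (K * (((1 + 3 + n * 3) * 0) ^ (1 / 2 : ℝ)))) := by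
      refine ENNReal.Tendsto.const_mul ?_ (Or.inr hKf)
      refine (ENNReal.continuous_rpow_const.tendsto _).comp ?_
      exact ENNReal.Tendsto.const_mul tendsto_id (Or.inr (by finiteness))
    rw [mul_zero, ENNReal.zero_rpow_of_pos (by norm_num), mul_zero] at hc
    exact hc.mono_left nhdsWithin_le_nhds
  have fin : ‖∫ z, formInt n v E f Dx Dy g Gx Gy z‖ₑ ≤ 0 :=
    ge_of_tendsto lim (eventually_nhdsWithin_of_forall fun ε hε => step ε hε)
  simpa using fin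

end Pool.Agent.H998.HK
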