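import Pool.Agent.H998.HK.Loc1

set_option autoImplicit false

noncomputable section

namespace Pool.Agent.H998.HK

open MeasureTheory Filter Topology Set
open scoped ENNReal NNReal RealInnerProductSpace

section hilbert

variable {H : Type} [NormedAddCommGroup H] [InnerProductSpace ℂ H] [CompleteSpace H]

theorem Test.bdd {φ : E3 → ℝ} (h : Test φ) : ∃ B : ℝ, 0 ≤ B ∧ ∀ x, |φ x| ≤ B := by
  obtain ⟨B, hB⟩ := h.2.exists_bound_of_continuous h.cont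
  exact ⟨max B 0, le_max_right _ _, fun x => (hB x).trans (le_max_left _ _)⟩

theorem Test.memLp {φ : E3 → ℝ} (h : Test φ) {u : E3 → H} (hu : MemLp u 2) :
    MemLp (fun x => φ x • u x) 2 := by
  obtain ⟨B, _, hB⟩ := h.bdd
  refine MemLp.of_le_mul (c := B) hu (h.cont.aestronglyMeasurable.smul hu.1)
    (ae_of_all _ fun x => ?_)
  rw [norm_smul]
  gcongr
  exact hB x

theorem com_memLp {χ : E3 → H} {D : Fin 3 → E3 → H} {η : E3 → ℝ} (hη : Test η) (hχ : MemLp χ 2)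
    (hD : ∀ i, MemLp (D i) 2) : MemLp (com η χ D) 2 := by
  have h1 : MemLp (fun x => ∑ i, pd i η x • D i x) 2 :=
    memLp_finset_sum _ fun i _ => (hη.pd i).memLp (hD i)
  have h2 : MemLp (fun x => (∑ i, pd i (pd i η) x) • χ x) 2 := by
    have : MemLp (fun x => ∑ i, pd i (pd i η) x • χ x) 2 :=
      memLp_finset_sum _ fun i _ => ((hη.pd i).pd i).memLp hχ
    simpa only [Finset.sum_smul] using this
  exact ((h1.const_smul (2 : ℝ)).neg).sub h2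

theorem com_bound {χ : E3 → H} {D : Fin 3 → E3 → H} {η : E3 → ℝ} {K : ℝ} {x : E3} (hK : 0 ≤ K)
    (h1 : ∀ i, |pd i η x| ≤ K) (h2 : ∀ i, |pd i (pd i η) x| ≤ K) :
    ‖com η χ D x‖ ^ 2 ≤ 21 * K ^ 2 * (‖χ x‖ ^ 2 + ∑ i, ‖D i x‖ ^ 2) := by
  have e1 : ‖com η χ D x‖ ≤ 2 * (∑ i, K * ‖D i x‖) + 3 * K * ‖χ x‖ := by
    unfold com
    refine (norm_sub_le _ _).trans (add_le_add ?_ ?_)
    · rw [norm_neg, norm_smul, Real.norm_of_nonneg (by norm_num)]
      gcongr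
      refine (norm_sum_le _ _).trans (Finset.sum_le_sum fun i _ => ?_)
      rw [norm_smul]
      gcongr
      exact h1 i
    · rw [norm_smul]
      gcongr
      refine (norm_sum_le _ _).trans ?_
      calc ∑ i : Fin 3, ‖pd i (pd i η) x‖ ≤ ∑ i : Fin 3, K := Finset.sum_le_sum fun i _ => h2 i
        _ = 3 * K := by simp
  have e2 : 0 ≤ ‖com η χ D x‖ := norm_nonneg _
  rw [Fin.sum_univ_three] at e1 ⊢
  set a := ‖D 0 x‖
  set b := ‖D 1 x‖
  set c := ‖D 2 x‖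
  set d := ‖χ x‖
  calc ‖com η χ D x‖ ^ 2 ≤ (2 * (K * a + K * b + K * c) + 3 * K * d) ^ 2 := by gcongr
    _ = K ^ 2 * (2 * (a + b + c) + 3 * d) ^ 2 := by ring
    _ ≤ K ^ 2 * (21 * (d ^ 2 + (a ^ 2 + b ^ 2 + c ^ 2))) := by
        gcongr
        nlinarith [sq_nonneg (a - b), sq_nonneg (a - c), sq_nonneg (b - c),
          sq_nonneg (3 * a - 2 * d), sq_nonneg (3 * b - 2 * d), sq_nonneg (3 * c - 2 * d)]
    _ = _ := by ring

theorem com_sub {χ : E3 → H} {D : Fin 3 → E3 → H} {b β : E3 → ℝ} (hb : Test b) (hβ : Test β)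
    (x : E3) : com (fun x => b x - β x) χ D x = com b χ D x - com β χ D x := by
  have e : ∀ i, pd i (pd i fun x => b x - β x) x = pd i (pd i b) x - pd i (pd i β) x := fun i => by
    rw [pd_sub hb.diff hβ.diff, pd_sub (hb.pd i).diff (hβ.pd i).diff]
  unfold com
  simp only [e]
  simp only [pd_sub hb.diff hβ.diff, sub_smul, Finset.sum_sub_distrib, smul_sub]
  abel

theorem om2_le {m : ℕ} {δ : ℝ} (hδ : 0 < δ) {x : E3} (hx : δ ≤ ‖x‖) :
    om2 m x ≤ ENNReal.ofReal (δ ^ (-(2 * (m : ℝ) + 1 / 2))) := by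
  unfold om2
  refine ENNReal.ofReal_le_ofReal (Real.rpow_le_rpow_of_nonpos hδ hx ?_)
  have : (0 : ℝ) ≤ m := Nat.cast_nonneg m
  linarith

theorem om2_ge {m : ℕ} {s : ℝ} {x : E3} (h0 : 0 < ‖x‖) (hx : ‖x‖ ≤ s) :
    ENNReal.ofReal (s ^ (-(2 * (m : ℝ) + 1 / 2))) ≤ om2 m x := by
  unfold om2
  refine ENNReal.ofReal_le_ofReal (Real.rpow_le_rpow_of_nonpos h0 hx ?_)
  have : (0 : ℝ) ≤ m := Nat.cast_nonneg m
  linarith

theorem om2_meas (m : ℕ) : Measurable (om2 m) := by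
  unfold om2
  fun_prop

theorem lint_sq {u : E3 → H} (hu : MemLp u 2) : ∫⁻ x, ENNReal.ofReal (‖u x‖ ^ 2) < ∞ := by
  have := hu.integrable_norm_pow (by norm_num)
  have h2 := this.lintegral_lt_top
  simpa using h2

/-- `V • (η χ)` is integrable -/
theorem intV {V : E3 → ℝ} {χ : E3 → H} {η : E3 → ℝ} {r0 : ℝ} (hη : Test η) (hV : Measurable V)
    (hχ : MemLp χ 2) (h0 : ∀ x, r0 < ‖x‖ → η x = 0)
    (h1 : ∫⁻ x in Metric.closedBall (0 : E3) r0, ENNReal.ofReal (|V x| ^ (3 / 2 : ℝ)) < ∞)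
    (h2 : ∫⁻ x, ENNReal.ofReal (|V x| * ‖χ x‖ ^ 2) < ∞) :
    Integrable fun x => η x • (V x • χ x) := by
  obtain ⟨B, hB0, hB⟩ := hη.bdd
  set S : Set E3 := Metric.closedBall (0 : E3) r0 with hS
  have hSm : MeasurableSet S := Metric.isClosed_closedBall.measurableSet
  have hSf : volume S < ∞ := measure_closedBall_lt_top
  have i1 : IntegrableOn (fun x => |V x| ^ (3 / 2 : ℝ)) S := by
    refine ⟨(by fun_prop : Measurable fun x => |V x| ^ (3 / 2 : ℝ)).aestronglyMeasurable, ?_⟩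
    rw [hasFiniteIntegral_iff_ofReal (ae_of_all _ fun x => Real.rpow_nonneg (abs_nonneg _) _)]
    exact h1
  have i2 : Integrable fun x => |V x| * ‖χ x‖ ^ 2 := by
    refine ⟨(by fun_prop : Measurable fun x => |V x|).aestronglyMeasurable.mul
      (hχ.1.norm.pow 2), ?_⟩
    rw [hasFiniteIntegral_iff_ofReal (ae_of_all _ fun x => by positivity)]
    exact h2
  have i3 : Integrable (S.indicator fun x => 1 + |V x| ^ (3 / 2 : ℝ)) :=
    (integrable_indicator_iff hSm).2 ((integrableOn_const (μ := (volume : Measure E3)) (s := S)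
      (C := (1 : ℝ)) hSf.ne).add i1)
  refine ((i3.add i2).const_mul B).mono' (hη.cont.aestronglyMeasurable.smul
    (hV.aestronglyMeasurable.smul hχ.1)) (ae_of_all _ fun x => ?_)
  by_cases hx : r0 < ‖x‖
  · rw [h0 x hx, zero_smul, norm_zero]
    have h3 : 0 ≤ (S.indicator (fun x => 1 + |V x| ^ (3 / 2 : ℝ))) x :=
      indicator_nonneg (fun x _ => by positivity) x
    simp only [Pi.add_apply]
    positivity
  · have hxS : x ∈ S := by
      rw [hS, Metric.mem_closedBall, dist_zero_right]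
      exact not_lt.1 hx
    simp only [Pi.add_apply]
    rw [indicator_of_mem hxS, norm_smul, norm_smul, Real.norm_eq_abs, Real.norm_eq_abs]
    have e2 : |V x| ≤ 1 + |V x| ^ (3 / 2 : ℝ) := by
      have e3 : 0 ≤ |V x| ^ (3 / 2 : ℝ) := Real.rpow_nonneg (abs_nonneg _) _
      by_cases hv : |V x| ≤ 1
      · linarith
      · have := Real.self_le_rpow_of_one_le (not_le.1 hv).le (by norm_num : (1 : ℝ) ≤ 3 / 2)
        linarith
    have e4 : |V x| * ‖χ x‖ ≤ |V x| + |V x| * ‖χ x‖ ^ 2 := by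
      have : ‖χ x‖ ≤ 1 + ‖χ x‖ ^ 2 := by nlinarith [sq_nonneg (‖χ x‖ - 1), norm_nonneg (χ x)]
      calc |V x| * ‖χ x‖ ≤ |V x| * (1 + ‖χ x‖ ^ 2) := by gcongr
        _ = _ := by ring
    calc |η x| * (|V x| * ‖χ x‖) ≤ B * (|V x| * ‖χ x‖) := by gcongr; exact hB x
      _ ≤ B * (|V x| + |V x| * ‖χ x‖ ^ 2) := by gcongr
      _ ≤ _ := by gcongr

/-- the Carleman inequality for fixed data -/
def CarFix (R : H →L[ℂ] H) (V : E3 → ℝ) (r0 : ℝ) (c : ℝ≥0∞) : Prop :=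
  ∀ (ρ : ℝ) (m : ℕ) (χ ξ g g₃ : E3 → H) (D : Fin 3 → E3 → H), 0 < ρ → ρ < r0 → 1 ≤ m →
  MemLp χ 2 → MemLp ξ 2 → MemLp g 2 → MemLp g₃ 2 → (∀ i, MemLp (D i) 2) →
  (∀ x, χ x = Rpow R (1 / 4) (ξ x)) → WeakGrad χ D →
  (∫⁻ x, ENNReal.ofReal (|V x| * ‖χ x‖ ^ 2) < ∞) →
  HEq R V χ D g g₃ →
  (∀ x, (‖x‖ < ρ ∨ r0 < ‖x‖) → ξ x = 0 ∧ g x = 0 ∧ g₃ x = 0 ∧ ∀ i, D i x = 0) →
  ∫⁻ x, om2 m x * ENNReal.ofReal (‖ξ x‖ ^ 2) ≤
    c * ∫⁻ x, om2 m x * ENNReal.ofReal (‖g x‖ ^ 2 + ‖g₃ x‖ ^ 2)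

theorem pd_zero_of {η : E3 → ℝ} {U : Set E3} {c : ℝ} (hU : IsOpen U) (h : ∀ x ∈ U, η x = c)
    {x : E3} (hx : x ∈ U) (i : Fin 3) : pd i η x = 0 := by
  unfold pd
  have : η =ᶠ[𝓝 x] fun _ => c := by
    filter_upwards [hU.mem_nhds hx] with y hy using h y hy
  rw [this.fderiv_eq]
  simp

theorem cut_ineq {R : H →L[ℂ] H} {V : E3 → ℝ} {r0 A : ℝ} {c : ℝ≥0∞} (hc : CarFix R V r0 c)
    (hA : 0 < A) (hcA : c * ENNReal.ofReal (A ^ 2) ≤ 1 / 2) (hVm : Measurable V)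
    {χ ξ g : E3 → H} {D : Fin 3 → E3 → H} (hχ : MemLp χ 2) (hξ : MemLp ξ 2) (hg : MemLp g 2)
    (hD : ∀ i, MemLp (D i) 2) (hχξ : ∀ x, χ x = Rpow R (1 / 4) (ξ x)) (hw : WeakGrad χ D)
    (hgA : ∀ x, ‖g x‖ ≤ A * ‖ξ x‖)
    (h1 : ∫⁻ x in Metric.closedBall (0 : E3) r0, ENNReal.ofReal (|V x| ^ (3 / 2 : ℝ)) < ∞)
    (h2 : ∫⁻ x, ENNReal.ofReal (|V x| * ‖χ x‖ ^ 2) < ∞) (he : HEq R V χ D g 0)
    {η : E3 → ℝ} (hη : Test η) {δ : ℝ} (hδ : 0 < δ) (hδr : δ < r0)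
    (h0 : ∀ x, (‖x‖ < δ ∨ r0 < ‖x‖) → η x = 0) {m : ℕ} (hm : 1 ≤ m) :
    ∫⁻ x, om2 m x * ENNReal.ofReal (‖η x • ξ x‖ ^ 2) ≤
      2 * c * ∫⁻ x, om2 m x * ENNReal.ofReal (‖com η χ D x‖ ^ 2) := by
  obtain ⟨B, hB0, hB⟩ := hη.bdd
  have hUo : IsOpen {x : E3 | ‖x‖ < δ ∨ r0 < ‖x‖} :=
    (isOpen_lt continuous_norm continuous_const).union (isOpen_lt continuous_const continuous_norm)
  have p1 : ∀ x, (‖x‖ < δ ∨ r0 < ‖x‖) → ∀ i, pd i η x = 0 := fun x hx i =>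
    pd_zero_of hUo (fun y hy => h0 y hy) hx i
  have p2 : ∀ x, (‖x‖ < δ ∨ r0 < ‖x‖) → ∀ i, pd i (pd i η) x = 0 := fun x hx i =>
    pd_zero_of hUo (fun y hy => p1 y hy i) hx i
  have main := hc δ m (fun x => η x • χ x) (fun x => η x • ξ x) (fun x => η x • g x)
    (com η χ D) (fun i x => η x • D i x + pd i η x • χ x) hδ hδr hm (hη.memLp hχ) (hη.memLp hξ)
    (hη.memLp hg) (com_memLp hη hχ hD) (fun i => (hη.memLp (hD i)).add ((hη.pd i).memLp hχ))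
    (fun x => by
      rw [hχξ x, ← Complex.coe_smul, ← Complex.coe_smul, map_smul])
    (wg_cut hη hχ hD hw)
    (by
      calc ∫⁻ x, ENNReal.ofReal (|V x| * ‖η x • χ x‖ ^ 2)
          ≤ ∫⁻ x, ENNReal.ofReal (B ^ 2) * ENNReal.ofReal (|V x| * ‖χ x‖ ^ 2) := by
            refine lintegral_mono fun x => ?_
            rw [← ENNReal.ofReal_mul (by positivity)]
            refine ENNReal.ofReal_le_ofReal ?_
            rw [norm_smul, mul_pow, Real.norm_eq_abs]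
            have : |η x| ^ 2 ≤ B ^ 2 := by gcongr; exact hB x
            calc |V x| * (|η x| ^ 2 * ‖χ x‖ ^ 2) ≤ |V x| * (B ^ 2 * ‖χ x‖ ^ 2) := by gcongr
              _ = _ := by ring
        _ = ENNReal.ofReal (B ^ 2) * ∫⁻ x, ENNReal.ofReal (|V x| * ‖χ x‖ ^ 2) :=
            lintegral_const_mul' _ _ (by simp)
        _ < ∞ := ENNReal.mul_lt_top (by simp) h2)
    (heq_cut hη hχ hg hD (intV hη hVm hχ (fun x hx => h0 x (Or.inr hx)) h1 h2) hw he)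
    (fun x hx => ⟨by simp only [h0 x hx, zero_smul], by simp only [h0 x hx, zero_smul], by
      unfold com
      simp only [p1 x hx, p2 x hx, zero_smul, Finset.sum_const_zero, smul_zero, neg_zero,
        sub_zero], fun i => by simp only [h0 x hx, p1 x hx, zero_smul, add_zero]⟩)
  set I := ∫⁻ x, om2 m x * ENNReal.ofReal (‖η x • ξ x‖ ^ 2) with hI
  set J := ∫⁻ x, om2 m x * ENNReal.ofReal (‖com η χ D x‖ ^ 2) with hJ
  have hIfin : I ≠ ∞ := by
    have : I ≤ ENNReal.ofReal (δ ^ (-(2 * (m : ℝ) + 1 / 2))) *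
        ∫⁻ x, ENNReal.ofReal (‖η x • ξ x‖ ^ 2) := by
      rw [← lintegral_const_mul' _ _ (by simp)]
      refine lintegral_mono fun x => ?_
      by_cases hx : ‖x‖ < δ
      · simp only [h0 x (Or.inl hx), zero_smul, norm_zero]
        simp
      · gcongr
        exact om2_le hδ (not_lt.1 hx)
    exact ne_top_of_le_ne_top (ENNReal.mul_ne_top (by simp) (lint_sq (hη.memLp hξ)).ne) this
  have hsum : ∫⁻ x, om2 m x * ENNReal.ofReal (‖η x • g x‖ ^ 2 + ‖com η χ D x‖ ^ 2) ≤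
      ENNReal.ofReal (A ^ 2) * I + J := by
    rw [hI, hJ, ← lintegral_const_mul' _ _ (by simp), ← lintegral_add_right']
    · refine lintegral_mono fun x => ?_
      rw [ENNReal.ofReal_add (by positivity) (by positivity), mul_add]
      refine add_le_add ?_ le_rfl
      rw [mul_left_comm, ← ENNReal.ofReal_mul (by positivity)]
      gcongr
      rw [norm_smul, norm_smul, mul_pow, mul_pow]
      have : ‖g x‖ ^ 2 ≤ A ^ 2 * ‖ξ x‖ ^ 2 := by
        rw [← mul_pow]; gcongr; exact hgA x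
      calc ‖η x‖ ^ 2 * ‖g x‖ ^ 2 ≤ ‖η x‖ ^ 2 * (A ^ 2 * ‖ξ x‖ ^ 2) := by gcongr
        _ = _ := by ring
    · exact (om2_meas m).aemeasurable.mul
        (((com_memLp hη hχ hD).1.norm.aemeasurable.pow_const 2).ennreal_ofReal)
  have h3 : I ≤ 1 / 2 * I + c * J := by
    calc I ≤ c * (ENNReal.ofReal (A ^ 2) * I + J) := main.trans (by gcongr)
      _ = c * ENNReal.ofReal (A ^ 2) * I + c * J := by ring
      _ ≤ _ := by gcongr
  have h4 : 1 / 2 * I + 1 / 2 * I = I := by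
    rw [← add_mul, ENNReal.add_halves, one_mul]
  have h5 : 1 / 2 * I ≤ c * J := by
    have hf : 1 / 2 * I ≠ ∞ := ENNReal.mul_ne_top (by simp) hIfin
    rw [← h4] at h3
    have h3' : 1 / 2 * I + 1 / 2 * I ≤ 1 / 2 * I + c * J := by
      calc 1 / 2 * I + 1 / 2 * I ≤ 1 / 2 * (1 / 2 * I + 1 / 2 * I) + c * J := h3
        _ = 1 / 2 * I + c * J := by rw [h4]
    exact (ENNReal.add_le_add_iff_left hf).1 h3'
  calc I = 2 * (1 / 2 * I) := by
        rw [← mul_assoc, one_div, ENNReal.mul_inv_cancel (by norm_num) (by norm_num), one_mul]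
    _ ≤ 2 * (c * J) := by gcongr
    _ = _ := by ring

end hilbert

end Pool.Agent.H998.HK
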