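import Pool.Agent.H690.HK.SpE
import Pool.Agent.H998.HK.TDens
import Pool.Agent.H998.HK.Loc2

/-! The uniform estimate for the splitting theorem. -/

set_option autoImplicit false
set_option linter.unusedSectionVars false

noncomputable section

namespace Pool.Agent.H998.HK

open MeasureTheory Filter Topology Set
open scoped ENNReal NNReal ComplexConjugate
open Pool.Agent.H825.HK (integrable_form h1_test measurable_pot integrable_conj_mul integrable_pot)
open Pool.Agent.H690.HK (tau sig rp WDg WDg_tau sig_sq_le tau_int sig_int tau_nonneg int_fst_tau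
  prod_rule slice_memLp rp_self abs_rp_le sqn_int rp_int)
open Pool.Agent.H773.HK (eb)

/-! ### the scalar functions -/

/-- `(t² + ε²)^{-1/4}` -/
def hh (ε t : ℝ) : ℝ := (t ^ 2 + ε ^ 2) ^ (-(1 / 4 : ℝ))

/-- its derivative -/
def hd (ε t : ℝ) : ℝ := -(1 / 2) * t * (t ^ 2 + ε ^ 2) ^ (-(5 / 4 : ℝ))

variable {ε : ℝ}

theorem qpos (hε : 0 < ε) (t : ℝ) : 0 < t ^ 2 + ε ^ 2 := by positivity

theorem hh_pos (hε : 0 < ε) (t : ℝ) : 0 < hh ε t := Real.rpow_pos_of_pos (qpos hε t) _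

theorem hh_le (hε : 0 < ε) (t : ℝ) : hh ε t ≤ (ε ^ 2) ^ (-(1 / 4 : ℝ)) := by
  unfold hh
  exact Real.rpow_le_rpow_of_nonpos (by positivity) (by nlinarith [sq_nonneg t]) (by norm_num)

theorem hh_deriv (hε : 0 < ε) (t : ℝ) : HasDerivAt (hh ε) (hd ε t) t := by
  have h1 : HasDerivAt (fun t : ℝ => t ^ 2 + ε ^ 2) (2 * t) t := by
    simpa using (hasDerivAt_pow 2 t).add_const (ε ^ 2)
  have h2 := h1.rpow_const (p := -(1 / 4 : ℝ)) (Or.inl (qpos hε t).ne')
  have e : hd ε t = 2 * t * (-(1 / 4 : ℝ)) * (t ^ 2 + ε ^ 2) ^ (-(1 / 4 : ℝ) - 1) := by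
    unfold hd
    have : (-(1 / 4 : ℝ) - 1) = -(5 / 4 : ℝ) := by norm_num
    rw [this]; ring
  rw [e]
  exact h2

theorem hd_cont (hε : 0 < ε) : Continuous (hd ε) := by
  unfold hd
  refine Continuous.mul (by fun_prop) ?_
  exact Continuous.rpow_const (by fun_prop) fun t => Or.inl (qpos hε t).ne'

theorem hh_cont (hε : 0 < ε) : Continuous (hh ε) := by
  unfold hh
  exact Continuous.rpow_const (by fun_prop) fun t => Or.inl (qpos hε t).ne'

theorem abs_le_q (t : ℝ) : |t| ≤ (t ^ 2 + ε ^ 2) ^ (1 / 2 : ℝ) := by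
  rw [← Real.sqrt_eq_rpow]
  refine Real.abs_le_sqrt ?_
  nlinarith [sq_nonneg ε]

theorem hd_abs (hε : 0 < ε) (t : ℝ) : |hd ε t| ≤ (t ^ 2 + ε ^ 2) ^ (-(3 / 4 : ℝ)) := by
  have hq := qpos hε t
  unfold hd
  rw [abs_mul, abs_mul, abs_of_pos (Real.rpow_pos_of_pos hq _)]
  have h1 : |(-(1 / 2) : ℝ)| = 1 / 2 := by norm_num
  rw [h1]
  calc 1 / 2 * |t| * (t ^ 2 + ε ^ 2) ^ (-(5 / 4 : ℝ))
      ≤ 1 * (t ^ 2 + ε ^ 2) ^ (1 / 2 : ℝ) * (t ^ 2 + ε ^ 2) ^ (-(5 / 4 : ℝ)) := by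
        gcongr
        · norm_num
        · exact abs_le_q t
    _ = _ := by
        rw [one_mul, ← Real.rpow_add hq]
        norm_num

theorem hd_abs' (hε : 0 < ε) (t : ℝ) : |hd ε t| ≤ (ε ^ 2) ^ (-(3 / 4 : ℝ)) :=
  (hd_abs hε t).trans
    (Real.rpow_le_rpow_of_nonpos (by positivity) (by nlinarith [sq_nonneg t]) (by norm_num))

theorem hd_nonpos (hε : 0 < ε) {t : ℝ} (ht : 0 ≤ t) : hd ε t ≤ 0 := by
  unfold hd
  have := Real.rpow_pos_of_pos (qpos hε t) (-(5 / 4 : ℝ))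
  have h2 : 0 ≤ t * (t ^ 2 + ε ^ 2) ^ (-(5 / 4 : ℝ)) := by positivity
  nlinarith

theorem hh_hd (hε : 0 < ε) (t : ℝ) :
    hh ε t + 2 * t * hd ε t = ε ^ 2 * (t ^ 2 + ε ^ 2) ^ (-(5 / 4 : ℝ)) := by
  have hq := qpos hε t
  have e1 : hh ε t = (t ^ 2 + ε ^ 2) * (t ^ 2 + ε ^ 2) ^ (-(5 / 4 : ℝ)) := by
    unfold hh
    rw [← Real.rpow_one_add' hq.le (by norm_num)]
    norm_num
  rw [e1]
  unfold hd
  ring

theorem hh_sqrt (hε : 0 < ε) {t : ℝ} (ht : 0 ≤ t) : hh ε t * √t ≤ 1 := by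
  have hq := qpos hε t
  have h1 : √t ≤ (t ^ 2 + ε ^ 2) ^ (1 / 4 : ℝ) := by
    have h2 : t ≤ (t ^ 2 + ε ^ 2) ^ (1 / 2 : ℝ) := by
      simpa [abs_of_nonneg ht] using abs_le_q (ε := ε) t
    calc √t ≤ √((t ^ 2 + ε ^ 2) ^ (1 / 2 : ℝ)) := Real.sqrt_le_sqrt h2
      _ = _ := by
        rw [Real.sqrt_eq_rpow, ← Real.rpow_mul hq.le]
        norm_num
  calc hh ε t * √t ≤ (t ^ 2 + ε ^ 2) ^ (-(1 / 4 : ℝ)) * (t ^ 2 + ε ^ 2) ^ (1 / 4 : ℝ) := by
        unfold hh
        gcongr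
    _ = 1 := by rw [← Real.rpow_add hq]; norm_num

theorem hh_mul (hε : 0 < ε) {t : ℝ} (ht : 0 ≤ t) : hh ε t * t ≤ 1 + t := by
  have h1 := hh_sqrt hε ht
  have h2 : √t * √t = t := Real.mul_self_sqrt ht
  have h3 : √t ≤ 1 + t := by nlinarith [sq_nonneg (√t - 1), Real.sqrt_nonneg t]
  calc hh ε t * t = (hh ε t * √t) * √t := by rw [mul_assoc, h2]
    _ ≤ 1 * √t := by gcongr
    _ ≤ 1 + t := by linarith

/-- `(h')² t ≤ K₁` -/
theorem hd_sq1 (hε : 0 < ε) {t : ℝ} (ht : 0 ≤ t) : hd ε t ^ 2 * t ≤ (ε ^ 2) ^ (-(1 : ℝ)) := by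
  have hq := qpos hε t
  have h1 : t ≤ (t ^ 2 + ε ^ 2) ^ (1 / 2 : ℝ) := by
    simpa [abs_of_nonneg ht] using abs_le_q (ε := ε) t
  calc hd ε t ^ 2 * t ≤ ((t ^ 2 + ε ^ 2) ^ (-(3 / 4 : ℝ))) ^ 2 * (t ^ 2 + ε ^ 2) ^ (1 / 2 : ℝ) := by
        rw [← sq_abs]
        gcongr
        exact hd_abs hε t
    _ = (t ^ 2 + ε ^ 2) ^ (-(1 : ℝ)) := by
        rw [← Real.rpow_natCast, ← Real.rpow_mul hq.le, ← Real.rpow_add hq]
        norm_num
    _ ≤ _ := Real.rpow_le_rpow_of_nonpos (by positivity) (by nlinarith [sq_nonneg t]) (by norm_num)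

/-- `(h')² t² ≤ K₂` -/
theorem hd_sq2 (hε : 0 < ε) {t : ℝ} (ht : 0 ≤ t) :
    hd ε t ^ 2 * t ^ 2 ≤ (ε ^ 2) ^ (-(1 / 2 : ℝ)) := by
  have hq := qpos hε t
  have h1 : t ≤ (t ^ 2 + ε ^ 2) ^ (1 / 2 : ℝ) := by
    simpa [abs_of_nonneg ht] using abs_le_q (ε := ε) t
  calc hd ε t ^ 2 * t ^ 2 ≤ ((t ^ 2 + ε ^ 2) ^ (-(3 / 4 : ℝ))) ^ 2 *
        ((t ^ 2 + ε ^ 2) ^ (1 / 2 : ℝ)) ^ 2 := by
        rw [← sq_abs (hd ε t)]
        gcongr
        exact hd_abs hε t
    _ = (t ^ 2 + ε ^ 2) ^ (-(1 / 2 : ℝ)) := by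
        generalize t ^ 2 + ε ^ 2 = q at hq
        rw [← Real.rpow_natCast, ← Real.rpow_natCast, ← Real.rpow_mul hq.le, ← Real.rpow_mul hq.le,
          ← Real.rpow_add hq]
        norm_num
    _ ≤ _ := Real.rpow_le_rpow_of_nonpos (by positivity) (by nlinarith [sq_nonneg t]) (by norm_num)

/-- pointwise inequality -/
theorem est_pt (hε : 0 < ε) {Z dZ t s δ : ℝ} (hZ : 0 ≤ Z) (ht : 0 ≤ t) (hδ : 0 ≤ δ)
    (hs : s ^ 2 ≤ 4 * (t * δ)) :
    Z * (ε ^ 2 * (t ^ 2 + ε ^ 2) ^ (-(5 / 4 : ℝ))) * δ ≤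
      (Z * hh ε t) * δ + (Z * (hd ε t * s) + dZ * hh ε t) * (s / 2) + |dZ| * (1 + δ) := by
  have h1 := hh_hd hε t
  have h2 := hd_nonpos hε ht
  have h3 : 2 * (hd ε t) * (t * δ) ≤ (1 / 2) * hd ε t * s ^ 2 := by nlinarith
  have h4 : |s| ≤ 2 * (√t * √δ) := by
    have : s ^ 2 ≤ (2 * (√t * √δ)) ^ 2 := by
      have e : (2 * (√t * √δ)) ^ 2 = 4 * (t * δ) := by
        rw [mul_pow, mul_pow, Real.sq_sqrt ht, Real.sq_sqrt hδ]; norm_num
      rw [e]; exact hs
    exact abs_le_of_sq_le_sq this (by positivity)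
  have h5 := hh_sqrt hε ht
  have h6 : √δ ≤ 1 + δ := by nlinarith [sq_nonneg (√δ - 1), Real.sq_sqrt hδ]
  have hp := (hh_pos hε t).le
  have h7 : |dZ * hh ε t * (s / 2)| ≤ |dZ| * (1 + δ) := by
    rw [abs_mul, abs_mul, abs_of_nonneg hp, abs_div, abs_two]
    calc |dZ| * hh ε t * (|s| / 2) ≤ |dZ| * hh ε t * (2 * (√t * √δ) / 2) := by gcongr
      _ = |dZ| * ((hh ε t * √t) * √δ) := by ring
      _ ≤ |dZ| * (1 * (1 + δ)) := by gcongr
      _ = _ := by ring
  have h8 := neg_abs_le (dZ * hh ε t * (s / 2))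
  have h9 : Z * (ε ^ 2 * (t ^ 2 + ε ^ 2) ^ (-(5 / 4 : ℝ))) * δ =
      Z * (hh ε t * δ) + Z * (2 * hd ε t * (t * δ)) := by rw [← h1]; ring
  have h10 := mul_le_mul_of_nonneg_left h3 hZ
  nlinarith

/-- the statement (interface of helper690) -/
def S_EST : Prop := S_FBX → S_FBY → S_FB1 → ∀ (n : ℕ) (v : E3 → ℝ) (E : ℝ) (f : Xn n → ℂ)
  (Dx : Fin 3 → Xn n → ℂ) (Dy : Fin n → Fin 3 → Xn n → ℂ), XStar v → Measurable v →
  H1 n f Dx Dy → WeakSol n v E f Dx Dy → ∀ ζ : E3 → ℝ, Test ζ → ∃ M : ℝ, ∀ ε : ℝ, 0 < ε →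
  ∫⁻ x, ENNReal.ofReal (ζ x ^ 2 * (ε ^ 2 * ((tau f x) ^ 2 + ε ^ 2) ^ (-(5 / 4 : ℝ))) *
    ∑ i, tau (Dx i) x) ≤ ENNReal.ofReal M

/-! ### integrability -/

variable {n : ℕ}

theorem locInt_of_XStar {v : E3 → ℝ} (hv : XStar v) : LocallyIntegrable v := by
  obtain ⟨v₁, v₂, h1, h2, h3⟩ := hv
  have e : v = fun x => v₁ x + v₂ x := funext h3
  rw [e]
  refine (h1.locallyIntegrable ?_).add (h2.locallyIntegrable (by simp))
  rw [ENNReal.le_div_iff_mul_le (by norm_num) (by norm_num)]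
  norm_num

/-- `b(x) f(x,y) ∈ L²` if `b² τ ∈ L¹` -/
theorem memLp_bf {b : E3 → ℝ} {f : Xn n → ℂ} (hb : AEStronglyMeasurable b) (hf : MemLp f 2)
    (h : Integrable fun x => b x ^ 2 * tau f x) : MemLp (fun z : Xn n => (b z.1 : ℂ) * f z) 2 := by
  have hbm : AEStronglyMeasurable (fun z : Xn n => (b z.1 : ℂ)) volume :=
    Complex.continuous_ofReal.comp_aestronglyMeasurable
      (hb.comp_fst (ν := (volume : Measure (Yn n))))
  have hm2 : AEStronglyMeasurable (fun z : Xn n => (b z.1 : ℂ) * f z) volume := hbm.mul hf.1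
  refine (memLp_two_iff_integrable_sq_norm hm2).2 ?_
  have e : (fun z : Xn n => ‖(b z.1 : ℂ) * f z‖ ^ 2) = fun z => b z.1 ^ 2 * ‖f z‖ ^ 2 := by
    funext z
    rw [norm_mul, mul_pow, Complex.norm_real, Real.norm_eq_abs, sq_abs]
  rw [e]
  have hm : AEStronglyMeasurable (fun z : Xn n => b z.1 ^ 2 * ‖f z‖ ^ 2)
      ((volume : Measure E3).prod (volume : Measure (Yn n))) :=
    ((hb.comp_fst (ν := (volume : Measure (Yn n)))).pow 2).mul (hf.1.norm.pow 2)
  refine (integrable_prod_iff hm).2 ⟨?_, ?_⟩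
  · filter_upwards [slice_memLp hf] with x hx
    exact ((memLp_two_iff_integrable_sq_norm hx.1).1 hx).const_mul _
  · refine h.congr (Eventually.of_forall fun x => ?_)
    simp only [tau]
    rw [← integral_const_mul]
    refine integral_congr_ae (Eventually.of_forall fun y => ?_)
    simp only
    rw [Real.norm_of_nonneg (by positivity)]

/-- integrable with respect to the first variable -/
theorem int_fst_gen {b : E3 → ℝ} {F : Xn n → ℝ}
    (h : Integrable fun z : Xn n => b z.1 * F z) :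
    ∫ z : Xn n, b z.1 * F z = ∫ x, b x * ∫ y, F (x, y) := by
  have h' : Integrable (fun z : Xn n => b z.1 * F z)
      ((volume : Measure E3).prod (volume : Measure (Yn n))) := h
  rw [Measure.volume_eq_prod, integral_prod _ h']
  refine integral_congr_ae (Eventually.of_forall fun x => ?_)
  simp only
  rw [integral_const_mul]

theorem re_form (v : E3 → ℝ) (E : ℝ) (f : Xn n → ℂ) (Dx : Fin 3 → Xn n → ℂ)
    (Dy : Fin n → Fin 3 → Xn n → ℂ) (a : E3 → ℝ) (b : Fin 3 → E3 → ℝ) (z : Xn n) :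
    (formInt n v E f Dx Dy (fun z => (a z.1 : ℂ) * f z)
      (fun i z => (a z.1 : ℂ) * Dx i z + (b i z.1 : ℂ) * f z) (fun j i z => (a z.1 : ℂ) * Dy j i z)
      z).re =
    (1 / 2 : ℝ) * ((∑ i, (a z.1 * ‖Dx i z‖ ^ 2 + b i z.1 * rp (f z) (Dx i z))) +
      ∑ j, ∑ i, a z.1 * ‖Dy j i z‖ ^ 2) + (pot n v z - E) * (a z.1 * ‖f z‖ ^ 2) := by
  have e1 : ∀ w : ℂ, conj w * w = ((‖w‖ ^ 2 : ℝ) : ℂ) := fun w => by
    rw [mul_comm, Complex.mul_conj, Complex.normSq_eq_norm_sq]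
  unfold formInt
  rw [Complex.add_re]
  congr 1
  · have : (1 / 2 : ℂ) = ((1 / 2 : ℝ) : ℂ) := by norm_num
    rw [this, Complex.re_ofReal_mul, Complex.add_re, Complex.re_sum, Complex.re_sum]
    congr 2
    · refine Finset.sum_congr rfl fun i _ => ?_
      have : conj ((a z.1 : ℂ) * Dx i z + (b i z.1 : ℂ) * f z) * Dx i z =
          (a z.1 : ℂ) * (conj (Dx i z) * Dx i z) + (b i z.1 : ℂ) * (conj (f z) * Dx i z) := by
        rw [map_add, map_mul, map_mul, Complex.conj_ofReal, Complex.conj_ofReal]; ring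
      rw [this, e1, Complex.add_re, Complex.re_ofReal_mul, Complex.re_ofReal_mul,
        Complex.ofReal_re]
      congr 2
      simp [rp, Complex.mul_re]
    · refine Finset.sum_congr rfl fun j _ => ?_
      rw [Complex.re_sum]
      refine Finset.sum_congr rfl fun i _ => ?_
      rw [map_mul, Complex.conj_ofReal, mul_assoc, e1, Complex.re_ofReal_mul, Complex.ofReal_re]
  · rw [Complex.re_ofReal_mul, map_mul, Complex.conj_ofReal, mul_assoc, e1, Complex.re_ofReal_mul,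
      Complex.ofReal_re]

theorem cv_lint {F : Xn n → ℝ} (hF : Integrable F) (h0 : ∀ z, 0 ≤ F z) :
    ∫⁻ z, ENNReal.ofReal (F z) = ENNReal.ofReal (∫ z, F z) :=
  (ofReal_integral_eq_lintegral_ofReal hF (ae_of_all _ h0)).symm

theorem est_b {ε : ℝ} (hε : 0 < ε) {f D : Xn n → ℂ} (hf : MemLp f 2) (hD : MemLp D 2)
    {Z dZ : E3 → ℝ} (hZt : Test Z) (hdZt : Test dZ) (hZ0 : ∀ x, 0 ≤ Z x) {b : E3 → ℝ}
    (hb : b = fun x => Z x • (hd ε (tau f x) * sig f D x) + dZ x • hh ε (tau f x)) :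
    AEStronglyMeasurable b volume ∧ MemLp b 2 ∧ Integrable (fun x => b x ^ 2 * tau f x) := by
  obtain ⟨MZ, hMZ0, hMZ⟩ := hZt.bdd
  obtain ⟨Md, hMd0, hMd⟩ := hdZt.bdd
  have haar := haarX n
  have haarY := haarY n
  have iτ : Integrable (tau f) := tau_int hf
  have iδ : Integrable (tau D) := tau_int hD
  have iσ : Integrable (sig f D) := sig_int hf hD
  have mhτ : AEStronglyMeasurable (fun x => hh ε (tau f x)) volume :=
    (hh_cont hε).comp_aestronglyMeasurable iτ.1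
  have mdτ : AEStronglyMeasurable (fun x => hd ε (tau f x)) volume :=
    (hd_cont hε).comp_aestronglyMeasurable iτ.1
  have hbx : ∀ x, b x = Z x * (hd ε (tau f x) * sig f D x) + dZ x * hh ε (tau f x) := fun x => by
    rw [hb]; rfl
  have mb : AEStronglyMeasurable b volume := by
    rw [hb]
    exact (hZt.cont.aestronglyMeasurable.smul (mdτ.mul iσ.1)).add
      (hdZt.cont.aestronglyMeasurable.smul mhτ)
  clear hb
  obtain ⟨Mh, hMh0, hMh⟩ : ∃ Mh : ℝ, 0 ≤ Mh ∧ ∀ t, hh ε t ≤ Mh :=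
    ⟨(ε ^ 2) ^ (-(1 / 4 : ℝ)), by positivity, hh_le hε⟩
  obtain ⟨K1, hK10, hK1⟩ : ∃ K1 : ℝ, 0 ≤ K1 ∧ ∀ t, 0 ≤ t → hd ε t ^ 2 * t ≤ K1 :=
    ⟨(ε ^ 2) ^ (-(1 : ℝ)), by positivity, fun t ht => hd_sq1 hε ht⟩
  obtain ⟨K2, hK20, hK2⟩ : ∃ K2 : ℝ, 0 ≤ K2 ∧ ∀ t, 0 ≤ t → hd ε t ^ 2 * t ^ 2 ≤ K2 :=
    ⟨(ε ^ 2) ^ (-(1 / 2 : ℝ)), by positivity, fun t ht => hd_sq2 hε ht⟩
  have h3 : ∀ x, b x ^ 2 ≤ 2 * (Z x * (hd ε (tau f x) * sig f D x)) ^ 2 +
      2 * (dZ x * hh ε (tau f x)) ^ 2 := by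
    intro x
    rw [hbx]
    nlinarith [sq_nonneg (Z x * (hd ε (tau f x) * sig f D x) - dZ x * hh ε (tau f x))]
  refine ⟨mb, ?_, ?_⟩
  · refine (memLp_two_iff_integrable_sq mb).2 ?_
    have hcs : Test fun x => dZ x * dZ x := hdZt.mul hdZt.1
    have i5 : Integrable fun x => dZ x ^ 2 := by
      simp only [pow_two]
      exact hcs.cont.integrable_of_hasCompactSupport hcs.2
    have i6 : Integrable fun x => 2 * (MZ ^ 2 * (4 * K1)) * tau D x := iδ.const_mul _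
    have i7 : Integrable fun x => 2 * Mh ^ 2 * dZ x ^ 2 := i5.const_mul _
    have i8 : Integrable fun x => 2 * (MZ ^ 2 * (4 * K1)) * tau D x + 2 * Mh ^ 2 * dZ x ^ 2 :=
      i6.add i7
    have mb2 : AEStronglyMeasurable (fun x => b x ^ 2) volume := mb.pow 2
    refine i8.mono' mb2 ?_
    filter_upwards [sig_sq_le hf hD] with x hx
    rw [Real.norm_of_nonneg (sq_nonneg _)]
    have t0 := tau_nonneg f x
    have d0 := tau_nonneg D x
    have k1 := hK1 _ t0
    have h1 : (Z x * (hd ε (tau f x) * sig f D x)) ^ 2 ≤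
        MZ ^ 2 * (4 * K1) * tau D x := by
      calc _ = Z x ^ 2 * (hd ε (tau f x) ^ 2 * sig f D x ^ 2) := by ring
        _ ≤ MZ ^ 2 * (hd ε (tau f x) ^ 2 * (4 * (tau f x * tau D x))) := by
            gcongr
            · exact hZ0 x
            · exact (le_abs_self _).trans (hMZ x)
        _ = MZ ^ 2 * (4 * (hd ε (tau f x) ^ 2 * tau f x)) * tau D x := by ring
        _ ≤ _ := by gcongr
    have h2 : (dZ x * hh ε (tau f x)) ^ 2 ≤ Mh ^ 2 * dZ x ^ 2 := by
      rw [mul_pow, mul_comm]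
      gcongr
      · exact (hh_pos hε _).le
      · exact hMh _
    calc b x ^ 2 ≤ _ := h3 x
      _ ≤ 2 * (MZ ^ 2 * (4 * K1) * tau D x) + 2 * (Mh ^ 2 * dZ x ^ 2) := by gcongr
      _ = _ := by ring
  · have i6 : Integrable fun x => 2 * (MZ ^ 2 * (4 * K2)) * tau D x := iδ.const_mul _
    have i7 : Integrable fun x => 2 * (Md ^ 2 * Mh ^ 2) * tau f x := iτ.const_mul _
    have i8 : Integrable fun x => 2 * (MZ ^ 2 * (4 * K2)) * tau D x +
      2 * (Md ^ 2 * Mh ^ 2) * tau f x := i6.add i7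
    have mb2 : AEStronglyMeasurable (fun x => b x ^ 2 * tau f x) volume := (mb.pow 2).mul iτ.1
    refine i8.mono' mb2 ?_
    filter_upwards [sig_sq_le hf hD] with x hx
    have t0 := tau_nonneg f x
    have d0 := tau_nonneg D x
    rw [Real.norm_of_nonneg (mul_nonneg (sq_nonneg _) t0)]
    have k1 := hK2 _ t0
    have h1 : (Z x * (hd ε (tau f x) * sig f D x)) ^ 2 * tau f x ≤
        MZ ^ 2 * (4 * K2) * tau D x := by
      calc _ = Z x ^ 2 * (hd ε (tau f x) ^ 2 * sig f D x ^ 2) * tau f x := by ring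
        _ ≤ MZ ^ 2 * (hd ε (tau f x) ^ 2 * (4 * (tau f x * tau D x))) * tau f x := by
            gcongr
            · exact hZ0 x
            · exact (le_abs_self _).trans (hMZ x)
        _ = MZ ^ 2 * (4 * (hd ε (tau f x) ^ 2 * tau f x ^ 2)) * tau D x := by ring
        _ ≤ _ := by gcongr
    have h2 : (dZ x * hh ε (tau f x)) ^ 2 * tau f x ≤ Md ^ 2 * Mh ^ 2 * tau f x := by
      have h5 : dZ x ^ 2 ≤ Md ^ 2 := by
        rw [← sq_abs]
        exact pow_le_pow_left₀ (abs_nonneg _) (hMd x) 2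
      have h6 : hh ε (tau f x) ^ 2 ≤ Mh ^ 2 :=
        pow_le_pow_left₀ (hh_pos hε _).le (hMh _) 2
      rw [mul_pow]
      gcongr
    calc b x ^ 2 * tau f x ≤ (2 * (Z x * (hd ε (tau f x) * sig f D x)) ^ 2 +
        2 * (dZ x * hh ε (tau f x)) ^ 2) * tau f x := by gcongr; exact h3 x
      _ = 2 * ((Z x * (hd ε (tau f x) * sig f D x)) ^ 2 * tau f x) +
          2 * ((dZ x * hh ε (tau f x)) ^ 2 * tau f x) := by ring
      _ ≤ 2 * (MZ ^ 2 * (4 * K2) * tau D x) + 2 * (Md ^ 2 * Mh ^ 2 * tau f x) := by gcongr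
      _ = _ := by ring

theorem mLa {a : E3 → ℝ} (ma : AEStronglyMeasurable a volume) {M : ℝ} (haM : ∀ x, |a x| ≤ M)
    {u : Xn n → ℂ} (hu : MemLp u 2) : MemLp (fun z : Xn n => (a z.1 : ℂ) * u z) 2 := by
  have ham : AEStronglyMeasurable (fun z : Xn n => (a z.1 : ℂ)) volume :=
    Complex.continuous_ofReal.comp_aestronglyMeasurable
      (ma.comp_fst (ν := (volume : Measure (Yn n))))
  refine MemLp.of_le_mul (c := M) hu (ham.mul hu.1) (ae_of_all _ fun z => ?_)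
  rw [norm_mul, Complex.norm_real, Real.norm_eq_abs]
  gcongr
  exact haM _

theorem sqi {a : E3 → ℝ} (ma : AEStronglyMeasurable a volume) {M : ℝ} (haM : ∀ x, |a x| ≤ M)
    {u : Xn n → ℂ} (hu : MemLp u 2) : Integrable fun z : Xn n => a z.1 * ‖u z‖ ^ 2 := by
  have : Integrable fun z : Xn n => ‖u z‖ ^ 2 := sqn_int hu
  exact this.bdd_mul (c := M) (ma.comp_fst (ν := (volume : Measure (Yn n))))
    (ae_of_all _ fun z => haM _)

theorem wd_y {a : E3 → ℝ} (ma : AEStronglyMeasurable a volume) {M : ℝ} (haM : ∀ x, |a x| ≤ M)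
    {f g : Xn n → ℂ} (j : Fin n) (i : Fin 3) (h : WD (ey n j i) f g) (hf : MemLp f 2)
    (hg : MemLp g 2) :
    WD (ey n j i) (fun z : Xn n => (a z.1 : ℂ) * f z) (fun z => (a z.1 : ℂ) * g z) := by
  have haar := haarX n
  have haarY := haarY n
  have := Pool.Agent.H690.HK.WDg.mul_fst (A := E3) (B := Yn n)
    (e := (Pi.single j (EuclideanSpace.single i (1 : ℝ)) : Yn n))
    (u := f) (g := g) h (hf.locallyIntegrable (by norm_num))
    (hg.locallyIntegrable (by norm_num)) ma haM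
  simp only [← Complex.real_smul]
  exact this

theorem form_y {v : E3 → ℝ} (hvm : Measurable v) {C : ℝ} (hC : 0 < C)
    (hYb : ∀ (n : ℕ) (j : Fin n) (f : Xn n → ℂ) (D : Fin 3 → Xn n → ℂ), MemLp f 2 →
      (∀ i, MemLp (D i) 2) → (∀ i, WD (ey n j i) f (D i)) →
      ∫⁻ z, ENNReal.ofReal (|v (z.2 j)| * ‖f z‖ ^ 2) ≤
        ENNReal.ofReal (1 / 2) * (∫⁻ z, ENNReal.ofReal (∑ i, ‖D i z‖ ^ 2)) +
          ENNReal.ofReal C * ∫⁻ z, ENNReal.ofReal (‖f z‖ ^ 2))
    {a : E3 → ℝ} (ma : AEStronglyMeasurable a volume) {M : ℝ} (haM : ∀ x, |a x| ≤ M)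
    (ha0 : ∀ x, 0 ≤ a x) {f : Xn n → ℂ} {Dx : Fin 3 → Xn n → ℂ} {Dy : Fin n → Fin 3 → Xn n → ℂ}
    (hf : H1 n f Dx Dy) (j : Fin n) :
    Integrable (fun z : Xn n => |v (z.2 j)| * (a z.1 * ‖f z‖ ^ 2)) ∧
      ∫ z : Xn n, |v (z.2 j)| * (a z.1 * ‖f z‖ ^ 2) ≤
        (1 / 2) * (∑ i, ∫ z : Xn n, a z.1 * ‖Dy j i z‖ ^ 2) +
          C * ∫ z : Xn n, a z.1 * ‖f z‖ ^ 2 := by
  have haar := haarX n
  have haarY := haarY n
  have jf : Integrable fun z : Xn n => a z.1 * ‖f z‖ ^ 2 := sqi ma haM hf.f2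
  have jy : ∀ i, Integrable fun z : Xn n => a z.1 * ‖Dy j i z‖ ^ 2 := fun i =>
    sqi ma haM (hf.y2 j i)
  set s : E3 → ℝ := fun x => √(a x) with hs
  have ms : AEStronglyMeasurable s volume := Real.continuous_sqrt.comp_aestronglyMeasurable ma
  have hsM : ∀ x, |s x| ≤ √M := fun x => by
    rw [abs_of_nonneg (Real.sqrt_nonneg _)]
    exact Real.sqrt_le_sqrt ((le_abs_self _).trans (haM x))
  have ss : ∀ x, s x ^ 2 = a x := fun x => Real.sq_sqrt (ha0 x)
  have nrm2 : ∀ (u : Xn n → ℂ) z, ‖(s z.1 : ℂ) * u z‖ ^ 2 = a z.1 * ‖u z‖ ^ 2 := fun u z => by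
    rw [norm_mul, mul_pow, Complex.norm_real, Real.norm_eq_abs, sq_abs, ss]
  have key := hYb n j (fun z => (s z.1 : ℂ) * f z) (fun i z => (s z.1 : ℂ) * Dy j i z)
    (mLa ms hsM hf.f2) (fun i => mLa ms hsM (hf.y2 j i))
    (fun i => wd_y ms hsM j i (hf.wy j i) hf.f2 (hf.y2 j i))
  simp only [nrm2] at key
  have jyi : Integrable fun z : Xn n => ∑ i, a z.1 * ‖Dy j i z‖ ^ 2 :=
    integrable_finsetSum _ fun i _ => jy i
  have n1 : ∀ z : Xn n, 0 ≤ ∑ i, a z.1 * ‖Dy j i z‖ ^ 2 := fun z =>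
    Finset.sum_nonneg fun i _ => mul_nonneg (ha0 _) (sq_nonneg _)
  have n2 : ∀ z : Xn n, 0 ≤ a z.1 * ‖f z‖ ^ 2 := fun z => mul_nonneg (ha0 _) (sq_nonneg _)
  rw [cv_lint jyi n1, cv_lint jf n2,
    ← ENNReal.ofReal_mul (by norm_num), ← ENNReal.ofReal_mul hC.le,
    ← ENNReal.ofReal_add (mul_nonneg (by norm_num) (integral_nonneg n1))
      (mul_nonneg hC.le (integral_nonneg n2)),
    integral_finsetSum _ fun i _ => jy i] at key
  have mj : Measurable fun z : Xn n => z.2 j := (measurable_pi_apply j).comp measurable_snd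
  have int : Integrable (fun z : Xn n => |v (z.2 j)| * (a z.1 * ‖f z‖ ^ 2)) := by
    refine ⟨((hvm.comp mj).abs.aestronglyMeasurable).mul jf.1, ?_⟩
    rw [hasFiniteIntegral_iff_ofReal (ae_of_all _ fun z => mul_nonneg (abs_nonneg _) (n2 z))]
    exact lt_of_le_of_lt key ENNReal.ofReal_lt_top
  refine ⟨int, ?_⟩
  rw [cv_lint int (fun z => mul_nonneg (abs_nonneg _) (n2 z))] at key
  rw [ENNReal.ofReal_le_ofReal_iff] at key
  · exact key
  · exact add_nonneg (mul_nonneg (by norm_num) (Finset.sum_nonneg fun i _ =>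
      integral_nonneg fun z => mul_nonneg (ha0 _) (sq_nonneg _)))
      (mul_nonneg hC.le (integral_nonneg n2))

theorem t_EST : S_EST := by
  intro hX hY hFB n v E f Dx Dy hv hvm hf hsol ζ hζ
  obtain ⟨C, hC, hYb⟩ := hY v hv hvm (1 / 2) (by norm_num)
  have haar := haarX n
  have haarY := haarY n
  set Z : E3 → ℝ := fun x => ζ x ^ 2 with hZ
  have hZt : Test Z := by
    have := hζ.mul hζ.1
    have e : Z = fun x => ζ x * ζ x := by funext x; simp only [hZ]; ring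
    rw [e]; exact this
  have hZ0 : ∀ x, 0 ≤ Z x := fun x => sq_nonneg _
  obtain ⟨MZ, hMZ0, hMZ⟩ := hZt.bdd
  set dZ : Fin 3 → E3 → ℝ := fun i x => fderiv ℝ Z x (eb i) with hdZ
  have hdZt : ∀ i, Test (dZ i) := fun i => hZt.pd i
  choose Md hMd0 hMd using fun i => (hdZt i).bdd
  -- potential
  have vloc := locInt_of_XStar hv
  have iv : Integrable fun z : Xn n => |v z.1| * ‖f z‖ ^ 2 := by
    obtain ⟨C1, _, h1⟩ := hX v hv hvm 1 one_pos
    refine ⟨((hvm.comp measurable_fst).abs.aestronglyMeasurable).mul (hf.f2.1.norm.pow 2), ?_⟩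
    rw [hasFiniteIntegral_iff_ofReal (ae_of_all _ fun z => by positivity)]
    refine lt_of_le_of_lt (h1 n f Dx hf.f2 hf.x2 hf.wx) ?_
    refine ENNReal.add_lt_top.2 ⟨ENNReal.mul_lt_top (by simp) ?_, ENNReal.mul_lt_top (by simp) ?_⟩
    · rw [cv3 hf.x2]
      exact ENNReal.sum_lt_top.2 fun i _ => (sq_fin (hf.x2 i)).lt_top
    · simp only [cv2]
      exact (sq_fin hf.f2).lt_top
  have iτ : Integrable (tau f) := tau_int hf.f2
  have ivτ : Integrable fun x => |v x| * tau f x := by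
    have h1 : Integrable (fun z : Xn n => |v z.1| * ‖f z‖ ^ 2)
      ((volume : Measure E3).prod (volume : Measure (Yn n))) := iv
    refine h1.integral_prod_left.congr (Eventually.of_forall fun x => ?_)
    simp only [tau]
    rw [integral_const_mul]
  have iδ : ∀ i, Integrable (tau (Dx i)) := fun i => tau_int (hf.x2 i)
  set c : ℝ := |E| + n * C with hc
  have hc0 : 0 ≤ c := by positivity
  -- the constants
  set M3 : ℝ := ∫ x, Z x * ((|v x| + c) * (1 + tau f x)) with hM3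
  have iM3 : Integrable fun x => Z x * ((|v x| + c) * (1 + tau f x)) := by
    have i1 : Integrable fun x => Z x • v x := by
      have := vloc.integrable_smul_left_of_hasCompactSupport hZt.cont hZt.2
      exact this
    have i2 : Integrable fun x => Z x := hZt.cont.integrable_of_hasCompactSupport hZt.2
    have i3 : Integrable fun x => Z x * (|v x| * tau f x) :=
      ivτ.bdd_mul (c := MZ) hZt.cont.aestronglyMeasurable (ae_of_all _ hMZ)
    have i4 : Integrable fun x => Z x * tau f x :=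
      iτ.bdd_mul (c := MZ) hZt.cont.aestronglyMeasurable (ae_of_all _ hMZ)
    refine ((i1.norm.add i3).add ((i2.const_mul c).add (i4.const_mul c))).congr
      (Eventually.of_forall fun x => ?_)
    simp only [Pi.add_apply, norm_smul, Real.norm_eq_abs, abs_of_nonneg (hZ0 x)]
    ring
  set M4 : ℝ := ∫ x, ∑ i, |dZ i x| * (1 + tau (Dx i) x) with hM4
  have iM4 : Integrable fun x => ∑ i, |dZ i x| * (1 + tau (Dx i) x) := by
    refine integrable_finsetSum _ fun i _ => ?_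
    have i2 : Integrable fun x => dZ i x :=
      (hdZt i).cont.integrable_of_hasCompactSupport (hdZt i).2
    have i4 : Integrable fun x => |dZ i x| * tau (Dx i) x :=
      (iδ i).bdd_mul (c := Md i) (hdZt i).cont.abs.aestronglyMeasurable
        (ae_of_all _ fun x => by rw [Real.norm_eq_abs, abs_abs]; exact hMd i x)
    refine (i2.abs.add i4).congr (Eventually.of_forall fun x => ?_)
    simp only [Pi.add_apply]
    ring
  refine ⟨2 * M3 + M4, fun ε hε => ?_⟩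
  -- the multiplier
  have wτ : ∀ i, WDg (eb i) (tau f) (sig f (Dx i)) := fun i => WDg_tau (hf.wx i) hf.f2 (hf.x2 i)
  have iσ : ∀ i, Integrable (sig f (Dx i)) := fun i => sig_int hf.f2 (hf.x2 i)
  set a : E3 → ℝ := fun x => Z x • hh ε (tau f x) with ha
  set b : Fin 3 → E3 → ℝ := fun i x => Z x • (hd ε (tau f x) * sig f (Dx i) x) +
    fderiv ℝ Z x (eb i) • hh ε (tau f x) with hb
  have wh : ∀ i, WDg (eb i) (fun x => hh ε (tau f x)) (fun x => hd ε (tau f x) * sig f (Dx i) x) :=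
    fun i => (wτ i).comp iτ.locallyIntegrable (iσ i).locallyIntegrable (hh_deriv hε) (hd_cont hε)
      (hd_abs' hε)
  have mhτ : AEStronglyMeasurable (fun x => hh ε (tau f x)) volume :=
    (hh_cont hε).comp_aestronglyMeasurable iτ.1
  have mdτ : AEStronglyMeasurable (fun x => hd ε (tau f x)) volume :=
    (hd_cont hε).comp_aestronglyMeasurable iτ.1
  have lh : LocallyIntegrable fun x => hh ε (tau f x) := by
    have : MemLp (fun x => hh ε (tau f x)) ∞ :=
      memLp_top_of_bound mhτ ((ε ^ 2) ^ (-(1 / 4 : ℝ))) (ae_of_all _ fun x => by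
        rw [Real.norm_of_nonneg (hh_pos hε _).le]; exact hh_le hε _)
    exact this.locallyIntegrable (by simp)
  have iσd : ∀ i, Integrable fun x => hd ε (tau f x) * sig f (Dx i) x := fun i =>
    (iσ i).bdd_mul (c := (ε ^ 2) ^ (-(3 / 4 : ℝ))) mdτ (ae_of_all _ fun x => hd_abs' hε _)
  have wa : ∀ i, WDg (eb i) a (b i) := fun i =>
    (wh i).smooth_mul lh (iσd i).locallyIntegrable hZt.1
  have ma : AEStronglyMeasurable a volume := hZt.cont.aestronglyMeasurable.smul mhτ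
  have mb : ∀ i, AEStronglyMeasurable (b i) volume := fun i =>
    (hZt.cont.aestronglyMeasurable.smul (mdτ.mul (iσ i).1)).add
      ((hdZt i).cont.aestronglyMeasurable.smul mhτ)
  have ha0 : ∀ x, 0 ≤ a x := fun x => mul_nonneg (hZ0 x) (hh_pos hε _).le
  set Mh : ℝ := (ε ^ 2) ^ (-(1 / 4 : ℝ)) with hMh
  have hMh0 : 0 ≤ Mh := by positivity
  have haM : ∀ x, |a x| ≤ MZ * Mh := fun x => by
    rw [abs_of_nonneg (ha0 x)]
    exact mul_le_mul ((le_abs_self _).trans (hMZ x)) (hh_le hε _) (hh_pos hε _).le hMZ0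
  have hEb := fun i => est_b hε hf.f2 (hf.x2 i) hZt (hdZt i) hZ0 (b := b i) rfl
  have hb2 : ∀ i, MemLp (b i) 2 := fun i => (hEb i).2.1
  have hbτ : ∀ i, Integrable fun x => b i x ^ 2 * tau f x := fun i => (hEb i).2.2
  -- the test function
  have mLa : ∀ {u : Xn n → ℂ}, MemLp u 2 → MemLp (fun z : Xn n => (a z.1 : ℂ) * u z) 2 :=
    fun hu => mLa ma haM hu
  have mLb : ∀ i, MemLp (fun z : Xn n => (b i z.1 : ℂ) * f z) 2 := fun i =>
    memLp_bf (mb i) hf.f2 (hbτ i)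
  have Hg : H1 n (fun z => (a z.1 : ℂ) * f z)
      (fun i z => (a z.1 : ℂ) * Dx i z + (b i z.1 : ℂ) * f z)
      (fun j i z => (a z.1 : ℂ) * Dy j i z) :=
    ⟨mLa hf.f2, fun i => (mLa (hf.x2 i)).add (mLb i), fun j i => mLa (hf.y2 j i),
      fun i => prod_rule (wa i) ma haM (hb2 i) (hf.wx i) hf.f2 (hf.x2 i),
      fun j i => wd_y ma haM j i (hf.wy j i) hf.f2 (hf.y2 j i)⟩
  have h0 := hsol _ _ _ Hg
  have iF := integrable_form hFB hv hvm hf Hg E
  have hre : ∫ z, (formInt n v E f Dx Dy (fun z => (a z.1 : ℂ) * f z)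
      (fun i z => (a z.1 : ℂ) * Dx i z + (b i z.1 : ℂ) * f z) (fun j i z => (a z.1 : ℂ) * Dy j i z)
      z).re = 0 := by
    have := Complex.reCLM.integral_comp_comm iF
    simp only [Complex.reCLM_apply] at this
    rw [this, h0]; simp
  simp only [re_form] at hre
  -- integrability of the pieces
  have sqi : ∀ {u : Xn n → ℂ}, MemLp u 2 → Integrable fun z : Xn n => a z.1 * ‖u z‖ ^ 2 :=
    fun hu => sqi ma haM hu
  have jx1 : ∀ i, Integrable fun z : Xn n => a z.1 * ‖Dx i z‖ ^ 2 := fun i => sqi (hf.x2 i)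
  have jx2 : ∀ i, Integrable fun z : Xn n => b i z.1 * rp (f z) (Dx i z) := by
    intro i
    have h1 := rp_int (A := E3) (B := Yn n) (mLb i) (hf.x2 i)
    have h2 : Integrable fun z : Xn n => 2 * rp ((b i z.1 : ℂ) * f z) (Dx i z) := h1
    refine (h2.const_mul (1 / 2)).congr (Eventually.of_forall fun z => ?_)
    simp only [rp, Complex.re_ofReal_mul, Complex.im_ofReal_mul]
    ring
  have jy : ∀ j i, Integrable fun z : Xn n => a z.1 * ‖Dy j i z‖ ^ 2 := fun j i => sqi (hf.y2 j i)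
  have jyS : Integrable fun z : Xn n => ∑ j, ∑ i, a z.1 * ‖Dy j i z‖ ^ 2 :=
    integrable_finsetSum _ fun j _ => integrable_finsetSum _ fun i _ => jy j i
  have jxS : Integrable fun z : Xn n => ∑ i, (a z.1 * ‖Dx i z‖ ^ 2 + b i z.1 * rp (f z) (Dx i z)) :=
    integrable_finsetSum _ fun i _ => (jx1 i).add (jx2 i)
  have jf : Integrable fun z : Xn n => a z.1 * ‖f z‖ ^ 2 := sqi hf.f2
  have jp : Integrable fun z : Xn n => (pot n v z - E) * (a z.1 * ‖f z‖ ^ 2) := by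
    have h1 := hFB n v hv hvm f Dx Dy hf
    have h2 : Integrable fun z : Xn n => pot n v z * ‖f z‖ ^ 2 :=
      h1.mono ((measurable_pot hvm).aestronglyMeasurable.mul (hf.f2.1.norm.pow 2))
        (ae_of_all _ fun z => by
          simp only [norm_mul, Real.norm_eq_abs, abs_abs, le_refl])
    have h3 : Integrable fun z : Xn n => a z.1 * (pot n v z * ‖f z‖ ^ 2) :=
      h2.bdd_mul (c := MZ * Mh) (ma.comp_fst (ν := (volume : Measure (Yn n))))
        (ae_of_all _ fun z => haM _)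
    refine (h3.sub (jf.const_mul E)).congr (Eventually.of_forall fun z => ?_)
    simp only [Pi.sub_apply]
    ring
  have jv : Integrable fun z : Xn n => (|v z.1| + c) * (a z.1 * ‖f z‖ ^ 2) := by
    have h3 : Integrable fun z : Xn n => a z.1 * (|v z.1| * ‖f z‖ ^ 2) :=
      iv.bdd_mul (c := MZ * Mh) (ma.comp_fst (ν := (volume : Measure (Yn n))))
        (ae_of_all _ fun z => haM _)
    refine (h3.add (jf.const_mul c)).congr (Eventually.of_forall fun z => ?_)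
    simp only [Pi.add_apply]
    ring
  -- the form bound in the `y` variables
  have jvj := form_y hvm hC hYb ma haM ha0 hf
  -- the energy identity
  set IX : ℝ := ∫ z : Xn n, ∑ i, (a z.1 * ‖Dx i z‖ ^ 2 + b i z.1 * rp (f z) (Dx i z)) with hIX
  set IY : ℝ := ∫ z : Xn n, ∑ j, ∑ i, a z.1 * ‖Dy j i z‖ ^ 2 with hIY
  set IP : ℝ := ∫ z : Xn n, (pot n v z - E) * (a z.1 * ‖f z‖ ^ 2) with hIP
  have ident : (1 / 2) * (IX + IY) + IP = 0 := by
    have i12 : Integrable fun z : Xn n =>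
        (1 / 2 : ℝ) * ((∑ i, (a z.1 * ‖Dx i z‖ ^ 2 + b i z.1 * rp (f z) (Dx i z))) +
          ∑ j, ∑ i, a z.1 * ‖Dy j i z‖ ^ 2) := (jxS.add jyS).const_mul _
    rw [← hre, hIX, hIY, hIP, ← integral_add jxS jyS, ← integral_const_mul,
      ← integral_add i12 jp]
  have low : IP ≥ -(∫ z : Xn n, (|v z.1| + |E|) * (a z.1 * ‖f z‖ ^ 2)) -
      ∑ j, ∫ z : Xn n, |v (z.2 j)| * (a z.1 * ‖f z‖ ^ 2) := by
    have jE : Integrable fun z : Xn n => (|v z.1| + |E|) * (a z.1 * ‖f z‖ ^ 2) := by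
      refine (jv.add (jf.const_mul (|E| - c))).congr (Eventually.of_forall fun z => ?_)
      simp only [Pi.add_apply]
      ring
    have jEn : Integrable fun z : Xn n => -((|v z.1| + |E|) * (a z.1 * ‖f z‖ ^ 2)) := jE.neg
    have jS : Integrable fun z : Xn n => ∑ j, |v (z.2 j)| * (a z.1 * ‖f z‖ ^ 2) :=
      integrable_finsetSum _ fun j _ => (jvj j).1
    rw [← integral_finsetSum _ fun j _ => (jvj j).1, ← integral_neg, ← integral_sub jEn jS]
    refine integral_mono (jEn.sub jS) jp fun z => ?_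
    simp only [Pi.sub_apply]
    have w0 : 0 ≤ a z.1 * ‖f z‖ ^ 2 := mul_nonneg (ha0 _) (sq_nonneg _)
    have p1 : -(|v z.1| + |E|) - ∑ j, |v (z.2 j)| ≤ pot n v z - E := by
      unfold pot
      have q1 := neg_abs_le (v z.1)
      have q2 : -∑ j, |v (z.2 j)| ≤ ∑ j, v (z.2 j) := by
        rw [← Finset.sum_neg_distrib]
        exact Finset.sum_le_sum fun j _ => neg_abs_le _
      have q3 : 0 ≤ ∑ j, 1 / ‖z.1 - z.2 j‖ := Finset.sum_nonneg fun j _ => by positivity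
      have q4 : 0 ≤ ∑ j : Fin n, ∑ k : Fin n, if j < k then 1 / ‖z.2 j - z.2 k‖ else 0 :=
        Finset.sum_nonneg fun j _ => Finset.sum_nonneg fun k _ => by split_ifs <;> positivity
      have q5 := le_abs_self E
      linarith
    have p2 := mul_le_mul_of_nonneg_right p1 w0
    have p3 : (∑ j, |v (z.2 j)|) * (a z.1 * ‖f z‖ ^ 2) =
        ∑ j, |v (z.2 j)| * (a z.1 * ‖f z‖ ^ 2) := Finset.sum_mul _ _ _
    nlinarith
  have sumj : 2 * ∑ j, ∫ z : Xn n, |v (z.2 j)| * (a z.1 * ‖f z‖ ^ 2) ≤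
      IY + 2 * (n * C) * ∫ z : Xn n, a z.1 * ‖f z‖ ^ 2 := by
    have e1 : IY = ∑ j, ∑ i, ∫ z : Xn n, a z.1 * ‖Dy j i z‖ ^ 2 := by
      rw [hIY, integral_finsetSum _ fun j _ => integrable_finsetSum _ fun i _ => jy j i]
      refine Finset.sum_congr rfl fun j _ => ?_
      rw [integral_finsetSum _ fun i _ => jy j i]
    calc 2 * ∑ j, ∫ z : Xn n, |v (z.2 j)| * (a z.1 * ‖f z‖ ^ 2)
        ≤ 2 * ∑ j, ((1 / 2) * (∑ i, ∫ z : Xn n, a z.1 * ‖Dy j i z‖ ^ 2) +
            C * ∫ z : Xn n, a z.1 * ‖f z‖ ^ 2) := by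
          gcongr with j _
          exact (jvj j).2
      _ = _ := by
          rw [Finset.sum_add_distrib, ← Finset.mul_sum, e1]
          simp only [Finset.sum_const, Finset.card_univ, Fintype.card_fin, nsmul_eq_mul]
          ring
  have upX : IX ≤ 2 * ∫ z : Xn n, (|v z.1| + c) * (a z.1 * ‖f z‖ ^ 2) := by
    have e1 : ∫ z : Xn n, (|v z.1| + c) * (a z.1 * ‖f z‖ ^ 2) =
        (∫ z : Xn n, (|v z.1| + |E|) * (a z.1 * ‖f z‖ ^ 2)) +
          (n * C) * ∫ z : Xn n, a z.1 * ‖f z‖ ^ 2 := by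
      have jE : Integrable fun z : Xn n => (|v z.1| + |E|) * (a z.1 * ‖f z‖ ^ 2) := by
        refine (jv.add (jf.const_mul (|E| - c))).congr (Eventually.of_forall fun z => ?_)
        simp only [Pi.add_apply]
        ring
      rw [← integral_const_mul, ← integral_add jE (jf.const_mul _)]
      refine integral_congr_ae (Eventually.of_forall fun z => ?_)
      simp only [hc]
      ring
    rw [e1]
    linarith
  -- pass to integrals over `x`
  have xv : ∫ z : Xn n, (|v z.1| + c) * (a z.1 * ‖f z‖ ^ 2) ≤ M3 := by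
    have e1 : (fun z : Xn n => (|v z.1| + c) * (a z.1 * ‖f z‖ ^ 2)) =
        fun z => ((fun x => (|v x| + c) * a x) z.1) * ‖f z‖ ^ 2 := by
      funext z; simp only; ring
    rw [e1] at jv ⊢
    rw [int_fst_gen (b := fun x => (|v x| + c) * a x) (F := fun z : Xn n => ‖f z‖ ^ 2) jv]
    have jx : Integrable fun x => ((|v x| + c) * a x) * ∫ y, ‖f (x, y)‖ ^ 2 := by
      have h' : Integrable (fun z : Xn n => ((fun x => (|v x| + c) * a x) z.1) * ‖f z‖ ^ 2)
        ((volume : Measure E3).prod (volume : Measure (Yn n))) := jv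
      refine h'.integral_prod_left.congr (Eventually.of_forall fun x => ?_)
      simp only
      rw [integral_const_mul]
    refine integral_mono jx iM3 fun x => ?_
    simp only
    have t0 := tau_nonneg f x
    have h1 := hh_mul hε t0
    have e2 : ∫ y, ‖f (x, y)‖ ^ 2 = tau f x := rfl
    rw [e2]
    calc (|v x| + c) * a x * tau f x = Z x * ((|v x| + c) * (hh ε (tau f x) * tau f x)) := by
          simp only [ha, smul_eq_mul]; ring
      _ ≤ _ := by gcongr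
  have xX : IX = ∫ x, ∑ i, (a x * tau (Dx i) x + b i x * (sig f (Dx i) x / 2)) := by
    have k1 : ∀ i, ∫ z : Xn n, a z.1 * ‖Dx i z‖ ^ 2 = ∫ x, a x * tau (Dx i) x := fun i =>
      int_fst_tau (hf.x2 i) ma haM
    have k2 : ∀ i, ∫ z : Xn n, b i z.1 * rp (f z) (Dx i z) = ∫ x, b i x * (sig f (Dx i) x / 2) := by
      intro i
      rw [int_fst_gen (jx2 i)]
      refine integral_congr_ae (Eventually.of_forall fun x => ?_)
      simp only [sig]
      rw [integral_const_mul]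
      ring
    have l1 : ∀ i, Integrable fun x => a x * tau (Dx i) x := fun i =>
      (iδ i).bdd_mul (c := MZ * Mh) ma (ae_of_all _ haM)
    have l2 : ∀ i, Integrable fun x => b i x * (sig f (Dx i) x / 2) := by
      intro i
      have h' : Integrable (fun z : Xn n => b i z.1 * rp (f z) (Dx i z))
        ((volume : Measure E3).prod (volume : Measure (Yn n))) := jx2 i
      refine h'.integral_prod_left.congr (Eventually.of_forall fun x => ?_)
      simp only [sig]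
      rw [integral_const_mul, integral_const_mul]
      ring
    have jx12 : ∀ i, Integrable fun z : Xn n =>
        a z.1 * ‖Dx i z‖ ^ 2 + b i z.1 * rp (f z) (Dx i z) := fun i => (jx1 i).add (jx2 i)
    have l12 : ∀ i, Integrable fun x => a x * tau (Dx i) x + b i x * (sig f (Dx i) x / 2) :=
      fun i => (l1 i).add (l2 i)
    rw [hIX, integral_finsetSum _ fun i _ => jx12 i, integral_finsetSum _ fun i _ => l12 i]
    refine Finset.sum_congr rfl fun i _ => ?_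
    have m1 : ∫ z : Xn n, (a z.1 * ‖Dx i z‖ ^ 2 + b i z.1 * rp (f z) (Dx i z)) =
        (∫ z : Xn n, a z.1 * ‖Dx i z‖ ^ 2) + ∫ z : Xn n, b i z.1 * rp (f z) (Dx i z) :=
      integral_add (jx1 i) (jx2 i)
    have m2 : ∫ x, (a x * tau (Dx i) x + b i x * (sig f (Dx i) x / 2)) =
        (∫ x, a x * tau (Dx i) x) + ∫ x, b i x * (sig f (Dx i) x / 2) :=
      integral_add (l1 i) (l2 i)
    rw [m1, m2, k1, k2]
  have iX2 : Integrable fun x => ∑ i, (a x * tau (Dx i) x + b i x * (sig f (Dx i) x / 2)) := by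
    refine integrable_finsetSum _ fun i _ => ?_
    refine ((iδ i).bdd_mul (c := MZ * Mh) ma (ae_of_all _ haM)).add ?_
    have h' : Integrable (fun z : Xn n => b i z.1 * rp (f z) (Dx i z))
      ((volume : Measure E3).prod (volume : Measure (Yn n))) := jx2 i
    refine h'.integral_prod_left.congr (Eventually.of_forall fun x => ?_)
    simp only [sig]
    rw [integral_const_mul, integral_const_mul]
    ring
  -- conclusion
  set S : E3 → ℝ := fun x => Z x * (ε ^ 2 * ((tau f x) ^ 2 + ε ^ 2) ^ (-(5 / 4 : ℝ))) *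
    ∑ i, tau (Dx i) x with hS
  have S0 : ∀ x, 0 ≤ S x := fun x => by
    have := Real.rpow_nonneg (qpos hε (tau f x)).le (-(5 / 4 : ℝ))
    exact mul_nonneg (mul_nonneg (hZ0 x) (by positivity))
      (Finset.sum_nonneg fun i _ => tau_nonneg _ _)
  have Sle : ∀ᵐ x, S x ≤ (∑ i, (a x * tau (Dx i) x + b i x * (sig f (Dx i) x / 2))) +
      ∑ i, |dZ i x| * (1 + tau (Dx i) x) := by
    have hall : ∀ᵐ x, ∀ i, sig f (Dx i) x ^ 2 ≤ 4 * (tau f x * tau (Dx i) x) :=
      ae_all_iff.2 fun i => sig_sq_le hf.f2 (hf.x2 i)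
    filter_upwards [hall] with x hx
    simp only [hS]
    rw [Finset.mul_sum, ← Finset.sum_add_distrib]
    refine Finset.sum_le_sum fun i _ => ?_
    exact est_pt hε (hZ0 x) (tau_nonneg f x) (tau_nonneg (Dx i) x) (hx i)
  have Sm : AEStronglyMeasurable S volume := by
    have h1 : AEStronglyMeasurable (fun x => ((tau f x) ^ 2 + ε ^ 2) ^ (-(5 / 4 : ℝ))) volume := by
      have hcq : Continuous fun t : ℝ => (t ^ 2 + ε ^ 2) ^ (-(5 / 4 : ℝ)) :=
        Continuous.rpow_const (by fun_prop) fun t => Or.inl (qpos hε t).ne'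
      exact hcq.comp_aestronglyMeasurable iτ.1
    refine (hZt.cont.aestronglyMeasurable.mul (h1.const_mul _)).mul ?_
    exact (integrable_finsetSum Finset.univ fun i _ => iδ i).1
  have iS : Integrable S := by
    refine (iX2.add iM4).mono' Sm ?_
    filter_upwards [Sle] with x hx
    rw [Real.norm_of_nonneg (S0 x)]
    exact hx
  calc ∫⁻ x, ENNReal.ofReal (S x) = ENNReal.ofReal (∫ x, S x) :=
        (ofReal_integral_eq_lintegral_ofReal iS (ae_of_all _ S0)).symm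
    _ ≤ ENNReal.ofReal (2 * M3 + M4) := by
        refine ENNReal.ofReal_le_ofReal ?_
        calc ∫ x, S x ≤ ∫ x, ((∑ i, (a x * tau (Dx i) x + b i x * (sig f (Dx i) x / 2))) +
              ∑ i, |dZ i x| * (1 + tau (Dx i) x)) := integral_mono_ae iS (iX2.add iM4) Sle
          _ = IX + M4 := by rw [integral_add iX2 iM4, xX]
          _ ≤ 2 * M3 + M4 := by linarith

end Pool.Agent.H998.HK
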