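import Pool.Agent.H998.HK.Spec4
import Pool.Agent.H123.HK.EL
import Pool.Agent.H690.HK.SpB

/-!
# Hohenberg-Kohn in `L^{3/2} + L^∞` : task EXI (helper998)
-/

set_option autoImplicit false

noncomputable section

namespace Pool.Agent.H998.HK

open MeasureTheory Filter Topology Set
open scoped ENNReal NNReal

/-- a configuration with pairwise distinct positions -/
def x00 (N : ℕ) : Fin N → E3 := fun j => EuclideanSpace.single 0 (j : ℝ)

theorem x00_dist (N : ℕ) (j k : Fin N) (h : ‖x00 N j - x00 N k‖ < 1) : j = k := by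
  have h1 : |(j : ℝ) - k| ≤ ‖x00 N j - x00 N k‖ := by
    have := PiLp.norm_apply_le (x00 N j - x00 N k) 0
    simpa [x00, Real.norm_eq_abs] using this
  have h2 : |(j : ℝ) - k| < 1 := lt_of_le_of_lt h1 h
  have h3 : |((j : ℤ) - (k : ℤ) : ℤ)| < 1 := by
    have : ((|((j : ℤ) - (k : ℤ) : ℤ)| : ℤ) : ℝ) < 1 := by push_cast; exact h2
    exact_mod_cast this
  have h4 : (j : ℤ) - (k : ℤ) = 0 := Int.abs_lt_one_iff.1 h3
  ext
  omega

/-- bump around `x00` -/
def bmp0 (N : ℕ) : ContDiffBump (x00 N) where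
  rIn := 1 / 8
  rOut := 1 / 4
  rIn_pos := by norm_num
  rIn_lt_rOut := by norm_num

def u0 (N : ℕ) (x : Fin N → E3) : ℂ := ((bmp0 N x : ℝ) : ℂ)

theorem u0_contDiff (N : ℕ) : ContDiff ℝ 1 (u0 N) :=
  Complex.ofRealCLM.contDiff.comp (bmp0 N).contDiff

theorem u0_supp (N : ℕ) : HasCompactSupport (u0 N) :=
  (bmp0 N).hasCompactSupport.comp_left (g := fun r : ℝ => (r : ℂ)) (by simp)

theorem u0_zero (N : ℕ) (x : Fin N → E3) (h : u0 N x ≠ 0) : ‖x - x00 N‖ < 1 / 4 := by
  have h1 : bmp0 N x ≠ 0 := fun h' => h (by simp [u0, h'])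
  have h2 : x ∈ Function.support (bmp0 N) := h1
  rw [(bmp0 N).support_eq, Metric.mem_ball, dist_eq_norm] at h2
  exact h2

theorem u0_one (N : ℕ) (x : Fin N → E3) (h : ‖x - x00 N‖ < 1 / 8) : u0 N x = 1 := by
  have h1 : bmp0 N x = 1 := by
    refine (bmp0 N).one_of_mem_closedBall ?_
    rw [Metric.mem_closedBall, dist_eq_norm]
    exact h.le
  simp [u0, h1]

theorem t_EXI : S_EXI := by
  intro n
  set N := n + 1 with hN
  set s0 : Spin N := fun _ => 0 with hs0
  set K : Fin N → Fin 3 → (Fin N → E3) → ℂ := fun j i x => fderiv ℝ (u0 N) x (ee N j i) with hK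
  have hKc : ∀ j i, Continuous (K j i) := fun j i =>
    ((u0_contDiff N).continuous_fderiv (by simp)).clm_apply continuous_const
  have hKs : ∀ j i, HasCompactSupport (K j i) := fun j i => (u0_supp N).fderiv_apply ℝ _
  have hu : MemLp (u0 N) 2 := (u0_contDiff N).continuous.memLp_of_hasCompactSupport (u0_supp N)
  have hW := Pool.Agent.H123.HK.isWave_A (s0 := s0) (u := u0 N) (K := K) hu
    (fun j i => (hKc j i).memLp_of_hasCompactSupport (hKs j i))
    (fun j i φ hφ => Pool.Agent.H690.HK.WDg_of_contDiff (u0_contDiff N) (ee N j i) φ hφ)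
  set Φ := Pool.Agent.H123.HK.AW s0 (u0 N) with hΦ
  set L := Pool.Agent.H123.HK.AG s0 K with hL
  have hval : ∀ x : Fin N → E3, ‖x - x00 N‖ < 1 / 8 → Φ s0 x = 1 := by
    intro x hx
    simp only [hΦ, Pool.Agent.H123.HK.AW]
    rw [Finset.sum_eq_single (1 : Equiv.Perm (Fin N))]
    · have e1 : s0 ∘ (1 : Equiv.Perm (Fin N)) = s0 := rfl
      have e2 : x ∘ (1 : Equiv.Perm (Fin N)) = x := rfl
      rw [e1, e2, u0_one N x hx]
      simp
    · intro π _ hπ
      by_cases h0 : u0 N (x ∘ π) = 0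
      · rw [h0, mul_zero]
      · exfalso
        have h1 := u0_zero N _ h0
        apply hπ
        ext j
        have h2 : ‖(x ∘ π) j - x00 N j‖ < 1 / 4 :=
          lt_of_le_of_lt (norm_le_pi_norm (x ∘ π - x00 N) j) h1
        have h3 : ‖x (π j) - x00 N (π j)‖ < 1 / 8 :=
          lt_of_le_of_lt (norm_le_pi_norm (x - x00 N) (π j)) hx
        have h4 : ‖x00 N (π j) - x00 N j‖ < 1 := by
          have h5 : x00 N (π j) - x00 N j = ((x ∘ π) j - x00 N j) - (x (π j) - x00 N (π j)) := by
            simp only [Function.comp_apply]; abel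
          rw [h5]
          refine lt_of_le_of_lt (norm_sub_le _ _) ?_
          linarith
        rw [x00_dist N _ _ h4]
        rfl
    · intro h; exact absurd (Finset.mem_univ _) h
  have hpos : 0 < normSq N Φ := by
    unfold normSq
    refine Finset.sum_pos' (fun s _ => integral_nonneg fun x => by positivity)
      ⟨s0, Finset.mem_univ _, ?_⟩
    have hi : Integrable (fun x => ‖Φ s0 x‖ ^ 2) :=
      (hW.memLp s0).integrable_norm_pow (by norm_num)
    have hball : (0 : ℝ) < (volume (Metric.ball (x00 N) (1 / 8))).toReal := by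
      refine ENNReal.toReal_pos (Metric.measure_ball_pos volume _ (by norm_num)).ne' ?_
      exact measure_ball_lt_top.ne
    have h1 : (volume (Metric.ball (x00 N) (1 / 8))).toReal ≤ ∫ x, ‖Φ s0 x‖ ^ 2 := by
      calc (volume (Metric.ball (x00 N) (1 / 8))).toReal
          = ∫ x in Metric.ball (x00 N) (1 / 8), (1 : ℝ) := by
            rw [setIntegral_const, smul_eq_mul, mul_one]; rfl
        _ = ∫ x in Metric.ball (x00 N) (1 / 8), ‖Φ s0 x‖ ^ 2 := by
            refine setIntegral_congr_fun measurableSet_ball fun x hx => ?_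
            rw [Metric.mem_ball, dist_eq_norm] at hx
            rw [hval x hx]; simp
        _ ≤ ∫ x, ‖Φ s0 x‖ ^ 2 :=
            setIntegral_le_integral hi (Eventually.of_forall fun x => by positivity)
    linarith
  set c : ℂ := (((√(normSq N Φ))⁻¹ : ℝ) : ℂ) with hc
  refine ⟨fun s x => c * Φ s x, fun s j i x => c * L s j i x,
    Pool.Agent.H123.HK.IsWave_smul hW c, ?_⟩
  have e : normSq N (fun s x => c * Φ s x) = ‖c‖ ^ 2 * normSq N Φ := by
    unfold normSq
    rw [Finset.mul_sum]
    refine Finset.sum_congr rfl fun s _ => ?_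
    rw [← integral_const_mul]
    refine integral_congr_ae (Eventually.of_forall fun x => ?_)
    simp only [norm_mul]; ring
  rw [e, hc, Complex.norm_real, Real.norm_eq_abs, sq_abs, inv_pow, Real.sq_sqrt hpos.le,
    inv_mul_cancel₀ hpos.ne']

end Pool.Agent.H998.HK
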