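import Pool.Agent.H998.HK.Loc3

set_option autoImplicit false

noncomputable section

namespace Pool.Agent.H998.HK

open MeasureTheory Filter Topology Set
open scoped ENNReal NNReal RealInnerProductSpace

theorem setLI_translate (f : E3 → ℝ≥0∞) (x₀ : E3) (r : ℝ) :
    ∫⁻ x in Metric.closedBall (0 : E3) r, f (x + x₀) =
      ∫⁻ x in Metric.closedBall x₀ r, f x := by
  rw [← lintegral_indicator Metric.isClosed_closedBall.measurableSet,
    ← lintegral_indicator Metric.isClosed_closedBall.measurableSet,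
    ← lintegral_add_right_eq_self (fun x => (Metric.closedBall x₀ r).indicator f x) x₀]
  refine lintegral_congr fun x => ?_
  by_cases hx : x ∈ Metric.closedBall (0 : E3) r
  · rw [indicator_of_mem hx, indicator_of_mem]
    rw [Metric.mem_closedBall, dist_eq_norm] at hx ⊢
    simpa using hx
  · rw [indicator_of_notMem hx, indicator_of_notMem]
    rw [Metric.mem_closedBall, dist_eq_norm] at hx ⊢
    simpa using hx

section hilbert

variable {H : Type} [NormedAddCommGroup H] [InnerProductSpace ℂ H] [CompleteSpace H]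

theorem memLp_translate {u : E3 → H} (hu : MemLp u 2) (x₀ : E3) :
    MemLp (fun x => u (x + x₀)) 2 :=
  hu.comp_measurePreserving (measurePreserving_add_right volume x₀)

theorem wg_translate {χ : E3 → H} {D : Fin 3 → E3 → H} (h : WeakGrad χ D) (x₀ : E3) :
    WeakGrad (fun x => χ (x + x₀)) (fun i x => D i (x + x₀)) := by
  intro i φ hφ
  have h1 := h i _ (hφ.translate x₀)
  rw [pd_translate] at h1
  rw [← integral_add_right_eq_self _ x₀, ← integral_add_right_eq_self (fun x => φ (x - x₀) • D i x)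
    x₀] at h1
  simpa using h1

theorem heq_translate {R : H →L[ℂ] H} {V : E3 → ℝ} {χ g g₃ : E3 → H} {D : Fin 3 → E3 → H}
    (h : HEq R V χ D g g₃) (x₀ : E3) :
    HEq R (fun x => V (x + x₀)) (fun x => χ (x + x₀)) (fun i x => D i (x + x₀))
      (fun x => g (x + x₀)) (fun x => g₃ (x + x₀)) := by
  intro φ hφ
  have h1 := h _ (hφ.translate x₀)
  simp only [pd_translate] at h1
  rw [← integral_add_right_eq_self _ x₀, ← integral_add_right_eq_self (fun x => φ (x - x₀) •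
    (R (V x • χ x) + Rpow R (3 / 4) (g x) + R (g₃ x))) x₀] at h1
  simpa using h1

end hilbert

theorem t_LOC (hH : S_HCAR) : S_LOC := by
  obtain ⟨ε₀, hε₀, C, hC⟩ := hH
  intro H _ _ _ _ R V A hR hVm hVs hA
  set η₀ : ℝ := min (ε₀ / 2) (1 / (4 * ((C : ℝ) + 1) * (A + 1))) with hη₀
  have hC0 : (0 : ℝ) ≤ C := C.2
  have hη0 : 0 < η₀ := lt_min (by linarith) (by positivity)
  have hη2 : η₀ ≤ 1 / (4 * ((C : ℝ) + 1) * (A + 1)) := min_le_right _ _
  have hη1 : η₀ ≤ 1 := by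
    refine hη2.trans ?_
    rw [div_le_one (by positivity)]
    nlinarith
  obtain ⟨r, hr, hVr⟩ := hVs η₀ hη0
  set r0 := min r η₀ with hr0d
  have hr0 : 0 < r0 := lt_min hr hη0
  have hr0r : r0 ≤ r := min_le_left _ _
  have hr0η : r0 ≤ η₀ := min_le_right _ _
  set c : ℝ≥0∞ := C * ENNReal.ofReal ((η₀ + r0) ^ 2) with hc
  have hcf : c ≠ ∞ := ENNReal.mul_ne_top (by simp) (by simp)
  have hcA : c * ENNReal.ofReal (A ^ 2) ≤ 1 / 2 := by
    have e1 : (C : ℝ≥0∞) = ENNReal.ofReal (C : ℝ) := by simp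
    rw [hc, e1, ← ENNReal.ofReal_mul hC0, ← ENNReal.ofReal_mul (by positivity)]
    have e2 : (1 / 2 : ℝ≥0∞) = ENNReal.ofReal (1 / 2) := by
      rw [ENNReal.ofReal_div_of_pos (by norm_num)]; simp
    rw [e2]
    refine ENNReal.ofReal_le_ofReal ?_
    have h1 : η₀ * (4 * ((C : ℝ) + 1) * (A + 1)) ≤ 1 := by
      rwa [← le_div_iff₀ (by positivity)]
    have h2 : (η₀ + r0) ^ 2 ≤ (2 * η₀) ^ 2 := by
      gcongr; linarith
    have h3 : (η₀ * (4 * ((C : ℝ) + 1) * (A + 1))) ^ 2 ≤ 1 := by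
      rw [sq_le_one_iff₀ (by positivity)]; exact h1
    have h5 : (C : ℝ) ≤ (C + 1) ^ 2 := by nlinarith
    have h6 : A ^ 2 ≤ (A + 1) ^ 2 := by nlinarith
    calc (C : ℝ) * (η₀ + r0) ^ 2 * A ^ 2 ≤ (C + 1) ^ 2 * (2 * η₀) ^ 2 * (A + 1) ^ 2 := by gcongr
      _ = (1 / 4) * (η₀ * (4 * ((C : ℝ) + 1) * (A + 1))) ^ 2 := by ring
      _ ≤ (1 / 4) * 1 := by gcongr
      _ ≤ 1 / 2 := by norm_num
  refine ⟨r0 / 4, by linarith, ?_⟩
  intro χ ξ g D hS x₀ hinf
  -- translate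
  set V' : E3 → ℝ := fun x => V (x + x₀) with hV'
  have hV'm : Measurable V' := hVm.comp (measurable_id.add_const _)
  have hVM : (∫⁻ x in Metric.closedBall (0 : E3) r0, ENNReal.ofReal (|V' x| ^ (3 / 2 : ℝ))) ^
      (2 / 3 : ℝ) ≤ ENNReal.ofReal η₀ := by
    rw [setLI_translate (fun x => ENNReal.ofReal (|V x| ^ (3 / 2 : ℝ)))]
    refine le_trans ?_ (hVr x₀)
    gcongr
  have hV1 : ∫⁻ x in Metric.closedBall (0 : E3) r0, ENNReal.ofReal (|V' x| ^ (3 / 2 : ℝ)) < ∞ := by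
    by_contra hcon
    rw [not_lt, top_le_iff] at hcon
    rw [hcon, ENNReal.top_rpow_of_pos (by norm_num)] at hVM
    exact absurd hVM (by simp)
  have hcar : CarFix R V' r0 c := by
    intro ρ m χ ξ g g₃ D hρ hρr hm a1 a2 a3 a4 a5 a6 a7 a8 a9 a10
    exact hC H R hR V' ρ r0 η₀ m χ ξ g g₃ D hV'm hρ hρr (hr0η.trans hη1) hm hη0.le (by
      have : η₀ ≤ ε₀ / 2 := min_le_left _ _
      linarith) hVM a1 a2 a3 a4 a5 a6 a7 a8 a9 a10
  have hV2 : ∫⁻ x, ENNReal.ofReal (|V' x| * ‖χ (x + x₀)‖ ^ 2) < ∞ := by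
    rw [lintegral_add_right_eq_self (fun x => ENNReal.ofReal (|V x| * ‖χ x‖ ^ 2)) x₀]
    exact hS.Vfin
  have hinf' : InfOrder (fun x => χ (x + x₀)) (fun i x => D i (x + x₀)) 0 := by
    intro k
    obtain ⟨Ck, hCk⟩ := hinf k
    refine ⟨Ck, fun r hr hr1 => ?_⟩
    rw [setLI_translate (fun x => ENNReal.ofReal (‖χ x‖ ^ 2 + ∑ i, ‖D i x‖ ^ 2))]
    exact hCk r hr hr1
  have hξ' := memLp_translate hS.ξ2 x₀
  have main : ∀ ε : ℝ, 0 < ε →
      ∫⁻ x in {x : E3 | ε ≤ ‖x‖ ∧ ‖x‖ ≤ r0 / 4}, ENNReal.ofReal (‖ξ (x + x₀)‖ ^ 2) = 0 :=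
    fun ε hε => loc_origin hcar hcf hr0 (hr0η.trans hη1) hA hcA hV'm (memLp_translate hS.χ2 x₀)
      hξ' (memLp_translate hS.g2 x₀) (fun i => memLp_translate (hS.D2 i) x₀)
      (fun x => hS.hχ _) (wg_translate hS.wg x₀) (fun x => hS.hg _) hV1 hV2
      (heq_translate hS.eq x₀) hinf' hε
  have h1 : ∀ n : ℕ, ∀ᵐ x : E3, (1 / ((n : ℝ) + 1) ≤ ‖x‖ ∧ ‖x‖ ≤ r0 / 4) → ξ (x + x₀) = 0 := by
    intro n
    have hm : MeasurableSet {x : E3 | 1 / ((n : ℝ) + 1) ≤ ‖x‖ ∧ ‖x‖ ≤ r0 / 4} :=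
      (measurableSet_le measurable_const measurable_norm).inter
        (measurableSet_le measurable_norm measurable_const)
    have h0 := main (1 / ((n : ℝ) + 1)) (by positivity)
    rw [lintegral_eq_zero_iff' ((hξ'.1.norm.aemeasurable.pow_const 2).ennreal_ofReal.restrict)]
      at h0
    rw [Filter.EventuallyEq, ae_restrict_iff' hm] at h0
    filter_upwards [h0] with x hx hx2
    have := hx hx2
    simp only [Pi.zero_apply, ENNReal.ofReal_eq_zero] at this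
    have h3 : ‖ξ (x + x₀)‖ = 0 := by
      have := norm_nonneg (ξ (x + x₀))
      nlinarith
    exact norm_eq_zero.1 h3
  have h2 : ∀ᵐ x : E3, x ∈ Metric.ball (0 : E3) (r0 / 4) → χ (x + x₀) = 0 := by
    have hne : ∀ᵐ x : E3, x ≠ 0 := by rw [ae_iff]; simp
    filter_upwards [ae_all_iff.2 h1, hne] with x hx hx0 hxb
    rw [Metric.mem_ball, dist_zero_right] at hxb
    obtain ⟨n, hn⟩ := exists_nat_one_div_lt (norm_pos_iff.2 hx0)
    rw [hS.hχ, hx n ⟨hn.le, hxb.le⟩, map_zero]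
  have h3 : ∀ᵐ x : E3, (x - x₀) ∈ Metric.ball (0 : E3) (r0 / 4) → χ (x - x₀ + x₀) = 0 :=
    (measurePreserving_sub_right volume x₀).quasiMeasurePreserving.ae h2
  filter_upwards [h3] with x hx hxb
  rw [sub_add_cancel] at hx
  refine hx ?_
  rw [Metric.mem_ball, dist_eq_norm] at hxb
  rwa [Metric.mem_ball, dist_zero_right]

/-! ### unique continuation -/

theorem infOrder_of_ball {H : Type} [NormedAddCommGroup H] [InnerProductSpace ℂ H]
    [CompleteSpace H] {χ : E3 → H} {D : Fin 3 → E3 → H} (hχ : MemLp χ 2)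
    (hD : ∀ i, MemLp (D i) 2) (hw : WeakGrad χ D) {x₀ x₁ : E3} {r : ℝ}
    (h0 : ∀ᵐ x, x ∈ Metric.ball x₀ r → χ x = 0) (hx : x₁ ∈ Metric.ball x₀ r) :
    InfOrder χ D x₁ := by
  have hD0 : ∀ i, ∀ᵐ x, x ∈ Metric.ball x₀ r → D i x = 0 := by
    intro i
    refine Metric.isOpen_ball.ae_eq_zero_of_integral_contDiff_smul_eq_zero
      ((li2 (hD i)).locallyIntegrableOn _) fun φ hφ1 hφ2 hφ3 => ?_
    have hφ : Test φ := ⟨hφ1, hφ2⟩
    have := hw i φ hφ
    rw [← neg_eq_iff_eq_neg] at this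
    rw [← this, neg_eq_zero]
    refine integral_eq_zero_of_ae ?_
    filter_upwards [h0] with x hx
    by_cases hxb : x ∈ Metric.ball x₀ r
    · rw [hx hxb, smul_zero]; rfl
    · have : pd i φ x = 0 := by
        have h1 : x ∉ tsupport φ := fun h => hxb (hφ3 h)
        have h2 : fderiv ℝ φ x = 0 := by
          have : x ∉ tsupport (fderiv ℝ φ) := fun h => h1 (tsupport_fderiv_subset ℝ h)
          exact image_eq_zero_of_notMem_tsupport this
        unfold pd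
        rw [h2]; simp
      rw [this, zero_smul]; rfl
  set s := r - dist x₁ x₀ with hs
  have hs0 : 0 < s := by rw [Metric.mem_ball] at hx; linarith
  have hfin : ∫⁻ x, ENNReal.ofReal (‖χ x‖ ^ 2 + ∑ i, ‖D i x‖ ^ 2) < ∞ := by
    have e : ∀ x, ENNReal.ofReal (‖χ x‖ ^ 2 + ∑ i, ‖D i x‖ ^ 2) =
        ENNReal.ofReal (‖χ x‖ ^ 2) + ∑ i, ENNReal.ofReal (‖D i x‖ ^ 2) := fun x => by
      rw [ENNReal.ofReal_add (by positivity) (by positivity),
        ENNReal.ofReal_sum_of_nonneg fun i _ => by positivity]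
    simp only [e]
    rw [lintegral_add_left' (hχ.1.norm.aemeasurable.pow_const 2).ennreal_ofReal,
      lintegral_finsetSum' _ fun i _ => ((hD i).1.norm.aemeasurable.pow_const 2).ennreal_ofReal]
    refine ENNReal.add_lt_top.2 ⟨lint_sq hχ, ?_⟩
    exact ENNReal.sum_lt_top.2 fun i _ => lint_sq (hD i)
  set T := (∫⁻ x, ENNReal.ofReal (‖χ x‖ ^ 2 + ∑ i, ‖D i x‖ ^ 2)).toReal with hT
  have hT0 : 0 ≤ T := ENNReal.toReal_nonneg
  intro k
  refine ⟨T * (s⁻¹) ^ k, fun ρ hρ hρ1 => ?_⟩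
  by_cases hρs : ρ < s
  · have : ∫⁻ x in Metric.closedBall x₁ ρ, ENNReal.ofReal (‖χ x‖ ^ 2 + ∑ i, ‖D i x‖ ^ 2) = 0 := by
      rw [← lintegral_indicator Metric.isClosed_closedBall.measurableSet]
      refine (lintegral_congr_ae ?_).trans lintegral_zero
      filter_upwards [h0, ae_all_iff.2 hD0] with x hx1 hx2
      by_cases hxb : x ∈ Metric.closedBall x₁ ρ
      · have hxr : x ∈ Metric.ball x₀ r := by
          rw [Metric.mem_closedBall] at hxb
          rw [Metric.mem_ball]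
          have := dist_triangle x x₁ x₀
          linarith
        rw [indicator_of_mem hxb, hx1 hxr]
        simp [hx2 _ hxr]
      · rw [indicator_of_notMem hxb]
    rw [this]; exact zero_le
  · calc _ ≤ ∫⁻ x, ENNReal.ofReal (‖χ x‖ ^ 2 + ∑ i, ‖D i x‖ ^ 2) := setLIntegral_le_lintegral _ _
      _ = ENNReal.ofReal T := by rw [hT, ENNReal.ofReal_toReal hfin.ne]
      _ ≤ _ := by
        refine ENNReal.ofReal_le_ofReal ?_
        have h1 : 1 ≤ s⁻¹ * ρ := by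
          rw [← div_eq_inv_mul, one_le_div hs0]
          exact not_lt.1 hρs
        have h2 : 1 ≤ (s⁻¹ * ρ) ^ k := one_le_pow₀ h1
        calc T = T * 1 := (mul_one _).symm
          _ ≤ T * (s⁻¹ * ρ) ^ k := by gcongr
          _ = _ := by rw [mul_pow]; ring

instance sep_Hn (n : ℕ) : TopologicalSpace.SeparableSpace (Hn n) := by
  haveI : Fact ((2 : ℝ≥0∞) ≠ ∞) := ⟨by norm_num⟩
  haveI : SecondCountableTopology (Lp ℂ 2 (volume : Measure (Yn n))) := inferInstance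
  exact inferInstance

theorem t_UCP (hL : S_LOC) (hD : S_DENS) (hC : S_CONC) : S_UCP := by
  intro n v E f Dx Dy hv hvm hf hsol B hBm hB0 hfB
  obtain ⟨R, V, A, hR, hVm, hVs, hA, hall⟩ := hC n v E hv hvm
  obtain ⟨χ, ξ, g, D, hS, hχf⟩ := hall f Dx Dy hf hsol
  obtain ⟨r₁, hr₁, hloc⟩ := hL (Hn n) R V A hR hVm hVs hA
  have hχB : ∀ᵐ x : E3, x ∈ B → χ x = 0 := by
    have h1 : ∀ᵐ x : E3, ∀ᵐ y : Yn n, x ∈ B → f (x, y) = 0 := Measure.ae_ae_of_ae_prod hfB
    filter_upwards [h1, hχf] with x hx1 hx2 hxB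
    rw [Lp.eq_zero_iff_ae_eq_zero]
    filter_upwards [hx1, hx2] with y hy1 hy2
    rw [hy2, hy1 hxB]; rfl
  obtain ⟨x₀, hx₀⟩ := hD (Hn n) V A χ D hVm hVs hA hS.χ2 hS.D2 hS.wg hS.energy B hBm hB0 hχB
  set Z : Set E3 := {x | InfOrder χ D x} with hZ
  have hprop : ∀ x ∈ Z, Metric.ball x r₁ ⊆ Z := fun x hx y hy =>
    infOrder_of_ball hS.χ2 hS.D2 hS.wg (hloc χ ξ g D hS x hx) hy
  have hZo : IsOpen Z := Metric.isOpen_iff.2 fun x hx => ⟨r₁, hr₁, hprop x hx⟩
  have hZc : IsClosed Z := by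
    rw [← isOpen_compl_iff]
    refine Metric.isOpen_iff.2 fun x hx => ⟨r₁, hr₁, fun y hy hyZ => hx ?_⟩
    exact hprop y hyZ (by rw [Metric.mem_ball, dist_comm]; exact hy)
  have hZu : Z = univ := IsClopen.eq_univ ⟨hZc, hZo⟩ ⟨x₀, hx₀⟩
  have hχ0 : ∀ᵐ x : E3, χ x = 0 := by
    have : volume {x : E3 | ¬ χ x = 0} = 0 := by
      refine measure_null_of_locally_null _ fun x _ => ?_
      have hxZ : x ∈ Z := by rw [hZu]; exact mem_univ x
      have h1 := hloc χ ξ g D hS x hxZ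
      refine ⟨{y | ¬ χ y = 0} ∩ Metric.ball x r₁, ?_, ?_⟩
      · exact inter_mem self_mem_nhdsWithin (mem_nhdsWithin_of_mem_nhds (Metric.ball_mem_nhds x hr₁))
      · rw [ae_iff] at h1
        refine measure_mono_null (fun y hy => ?_) h1
        simp only [mem_ofPred_eq, Classical.not_imp]
        exact ⟨hy.2, hy.1⟩
    rw [ae_iff]; exact this
  have h5 : ∀ᵐ x : E3, ∀ᵐ y : Yn n, f (x, y) = 0 := by
    filter_upwards [hχ0, hχf] with x hx1 hx2
    rw [Lp.eq_zero_iff_ae_eq_zero] at hx1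
    filter_upwards [hx1, hx2] with y hy1 hy2
    rw [← hy2, hy1]; rfl
  have hm : AEStronglyMeasurable f (volume : Measure (Xn n)) := hf.f2.1
  -- pass to the product
  obtain ⟨f', hf'm, hff'⟩ := hm
  have h6 : ∀ᵐ x : E3, ∀ᵐ y : Yn n, f (x, y) = f' (x, y) := Measure.ae_ae_of_ae_prod hff'
  have h7 : ∀ᵐ x : E3, ∀ᵐ y : Yn n, f' (x, y) = 0 := by
    filter_upwards [h5, h6] with x hx1 hx2
    filter_upwards [hx1, hx2] with y hy1 hy2
    rw [← hy2, hy1]
  have h8 : ∀ᵐ z : Xn n, f' z = 0 := by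
    have hms : MeasurableSet {z : Xn n | f' z = 0} :=
      hf'm.measurable (measurableSet_singleton 0)
    exact (Measure.ae_prod_mem_iff_ae_ae_mem hms).2 h7
  filter_upwards [hff', h8] with z hz1 hz2
  rw [hz1, hz2]

end Pool.Agent.H998.HK
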