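import Pool.Agent.H998.HK.Star2

set_option autoImplicit false

noncomputable section

namespace Pool.Agent.H998.HK

open MeasureTheory Filter Topology Set
open scoped ENNReal NNReal RealInnerProductSpace

attribute [local irreducible] wK Km

theorem real_bd1 {C M r n1 n2 n3 : ℝ} (hC : 0 ≤ C) (hM : 0 ≤ M) (hr : 0 ≤ r) (h1 : 0 ≤ n1)
    (h2 : 0 ≤ n2) (h3 : 0 ≤ n3) :
    (C * (√M * (√M * n1 + √r * n2 + √r * n3))) ^ 2 ≤
      3 * C ^ 2 * ((M + r) ^ 2 * (n1 ^ 2 + n2 ^ 2 + n3 ^ 2)) := by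
  have e : √M ^ 2 = M := Real.sq_sqrt hM
  have e' : √r ^ 2 = r := Real.sq_sqrt hr
  have t : (√M * n1 + √r * n2 + √r * n3) ^ 2 ≤ 3 * (M * n1 ^ 2 + r * n2 ^ 2 + r * n3 ^ 2) := by
    have a1 : (√M * n1) ^ 2 = M * n1 ^ 2 := by rw [mul_pow, e]
    have a2 : (√r * n2) ^ 2 = r * n2 ^ 2 := by rw [mul_pow, e']
    have a3 : (√r * n3) ^ 2 = r * n3 ^ 2 := by rw [mul_pow, e']
    rw [← a1, ← a2, ← a3]
    nlinarith [sq_nonneg (√M * n1 - √r * n2), sq_nonneg (√M * n1 - √r * n3),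
      sq_nonneg (√r * n2 - √r * n3)]
  have t2 : M * (M * n1 ^ 2 + r * n2 ^ 2 + r * n3 ^ 2) ≤
      (M + r) ^ 2 * (n1 ^ 2 + n2 ^ 2 + n3 ^ 2) := by
    have b1 : M * M ≤ (M + r) ^ 2 := by nlinarith
    have b2 : M * r ≤ (M + r) ^ 2 := by nlinarith
    nlinarith [mul_le_mul_of_nonneg_right b1 (sq_nonneg n1),
      mul_le_mul_of_nonneg_right b2 (sq_nonneg n2), mul_le_mul_of_nonneg_right b2 (sq_nonneg n3)]
  calc (C * (√M * (√M * n1 + √r * n2 + √r * n3))) ^ 2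
      = C ^ 2 * (M * (√M * n1 + √r * n2 + √r * n3) ^ 2) := by rw [mul_pow, mul_pow, e]
    _ ≤ C ^ 2 * (M * (3 * (M * n1 ^ 2 + r * n2 ^ 2 + r * n3 ^ 2))) := by gcongr
    _ = 3 * C ^ 2 * (M * (M * n1 ^ 2 + r * n2 ^ 2 + r * n3 ^ 2)) := by ring
    _ ≤ _ := by gcongr

theorem real_bd2 {C D M r n1 n2 n3 : ℝ} (hC : 0 ≤ C) (hD : 0 ≤ D) (hM : 0 ≤ M) (hr : 0 ≤ r)
    (h1 : 0 ≤ n1) (h2 : 0 ≤ n2) (h3 : 0 ≤ n3) :
    (C * √r * √M * n1 + D * r * (n2 + n3)) ^ 2 ≤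
      3 * (C + D) ^ 2 * ((M + r) ^ 2 * (n1 ^ 2 + n2 ^ 2 + n3 ^ 2)) := by
  have e : √M ^ 2 = M := Real.sq_sqrt hM
  have e' : √r ^ 2 = r := Real.sq_sqrt hr
  have k1 : √r * √M ≤ M + r := by nlinarith [sq_nonneg (√r - √M)]
  have k2 : C * √r * √M * n1 + D * r * (n2 + n3) ≤ (C + D) * ((M + r) * (n1 + n2 + n3)) := by
    have a1 : C * (√r * √M) * n1 ≤ C * (M + r) * n1 := by gcongr
    have a2 : D * r * (n2 + n3) ≤ D * (M + r) * (n2 + n3) := by gcongr; linarith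
    have a3 : 0 ≤ C * (M + r) * (n2 + n3) := by positivity
    have a4 : 0 ≤ D * (M + r) * n1 := by positivity
    nlinarith
  calc (C * √r * √M * n1 + D * r * (n2 + n3)) ^ 2
      ≤ ((C + D) * ((M + r) * (n1 + n2 + n3))) ^ 2 := by gcongr
    _ = (C + D) ^ 2 * ((M + r) ^ 2 * (n1 + n2 + n3) ^ 2) := by ring
    _ ≤ (C + D) ^ 2 * ((M + r) ^ 2 * (3 * (n1 ^ 2 + n2 ^ 2 + n3 ^ 2))) := by
        gcongr
        nlinarith [sq_nonneg (n1 - n2), sq_nonneg (n1 - n3), sq_nonneg (n2 - n3)]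
    _ = _ := by ring

/-- the weight -/
def om (m : ℕ) (x : E3) : ℝ := ‖x‖ ^ (-((m : ℝ) + 1 / 4))

theorem om_meas (m : ℕ) : Measurable (om m) := by
  unfold om
  fun_prop

theorem om_sq (m : ℕ) (x : E3) : om m x ^ 2 = ‖x‖ ^ (-(2 * (m : ℝ) + 1 / 2)) := by
  unfold om
  rw [← Real.rpow_natCast, ← Real.rpow_mul (norm_nonneg _)]
  congr 1
  push_cast
  ring

theorem om2_eq (m : ℕ) (x : E3) {t : ℝ} (ht : 0 ≤ t) :
    om2 m x * ENNReal.ofReal t = ENNReal.ofReal (om m x ^ 2 * t) := by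
  rw [om2, om_sq, ENNReal.ofReal_mul (Real.rpow_nonneg (norm_nonneg _) _)]

theorem om_le {m : ℕ} {ρ : ℝ} (hρ : 0 < ρ) {x : E3} (hx : ρ ≤ ‖x‖) :
    om m x ≤ ρ ^ (-((m : ℝ) + 1 / 4)) := by
  unfold om
  exact Real.rpow_le_rpow_of_nonpos hρ hx (by have : (0 : ℝ) ≤ m := Nat.cast_nonneg m; linarith)

theorem om_memLp {m : ℕ} {ρ : ℝ} (hρ : 0 < ρ) {f : E3 → ℝ} (hf : MemLp f 2)
    (h0 : ∀ x, ‖x‖ < ρ → f x = 0) : MemLp (fun x => om m x * f x) 2 := by
  refine MemLp.of_le_mul (c := ρ ^ (-((m : ℝ) + 1 / 4))) hf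
    ((om_meas m).aestronglyMeasurable.mul hf.1) (ae_of_all _ fun x => ?_)
  rw [norm_mul]
  by_cases hx : ‖x‖ < ρ
  · rw [h0 x hx]; simp
  · have := om_le (m := m) hρ (not_lt.1 hx)
    have h1 : 0 ≤ om m x := Real.rpow_nonneg (norm_nonneg _) _
    rw [Real.norm_of_nonneg h1]
    gcongr

theorem wK_om {κ : ℝ} {m : ℕ} {x y : E3} (hx : x ≠ 0) (hy : y ≠ 0) :
    wK κ m x y * om m y = om m x * Km κ m x y := by
  have hx' : 0 < ‖x‖ := norm_pos_iff.2 hx
  have hy' : 0 < ‖y‖ := norm_pos_iff.2 hy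
  rw [wK, om, om, Real.div_rpow hy'.le hx'.le, Real.rpow_neg hy'.le, Real.rpow_neg hx'.le]
  have h1 : ‖y‖ ^ ((m : ℝ) + 1 / 4) ≠ 0 := (Real.rpow_pos_of_pos hy' _).ne'
  have h2 : ‖x‖ ^ ((m : ℝ) + 1 / 4) ≠ 0 := (Real.rpow_pos_of_pos hx' _).ne'
  field_simp

theorem t_STAR (hB : S_BIL) (hL : S_L2) (hR : S_REP) : S_STAR := by
  obtain ⟨C, hC⟩ := hB
  obtain ⟨C₂, hC₂0, hC₂⟩ := hL
  set D : ℝ≥0 := ⟨2 * C₂, by positivity⟩ with hD
  refine ⟨3 * C ^ 2 + 3 * (C + D) ^ 2, ?_⟩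
  intro V κ ρ r0 M m u g₁ g₂ g₃ Du hV hκ hρ hρr hr1 hm hM hVM hu hDu h1 h2 h3 hw heq z
  have hr0 : 0 < r0 := hρ.trans hρr
  have hκ0 : 0 < κ := by linarith
  -- the right-hand side is integrable
  have hFint : Integrable (fun x => √|V x| * g₁ x + √κ * g₂ x + g₃ x) := by
    set B : Set E3 := Metric.closedBall (0 : E3) r0 with hBd
    have hBm : MeasurableSet B := Metric.isClosed_closedBall.measurableSet
    have hBf : volume B < ∞ := measure_closedBall_lt_top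
    have hout : ∀ x, x ∉ B → r0 < ‖x‖ := fun x hx => by
      rw [hBd, Metric.mem_closedBall, dist_zero_right] at hx
      exact not_le.1 hx
    have i32 : IntegrableOn (fun x => |V x| ^ (3 / 2 : ℝ)) B := by
      refine ⟨(by fun_prop : Measurable fun x => |V x| ^ (3 / 2 : ℝ)).aestronglyMeasurable, ?_⟩
      rw [hasFiniteIntegral_iff_ofReal (ae_of_all _ fun x => Real.rpow_nonneg (abs_nonneg _) _)]
      by_contra hcon
      rw [not_lt, top_le_iff] at hcon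
      rw [hcon, ENNReal.top_rpow_of_pos (by norm_num)] at hVM
      exact absurd hVM (by simp)
    have i1 : IntegrableOn (fun x => 1 + |V x| ^ (3 / 2 : ℝ) + g₁ x ^ 2) B :=
      ((integrableOn_const (μ := (volume : Measure E3)) (s := B) (C := (1 : ℝ))
        hBf.ne).add i32).add h1.integrable_sq.integrableOn
    have i1' : Integrable (B.indicator fun x => 1 + |V x| ^ (3 / 2 : ℝ) + g₁ x ^ 2) :=
      (integrable_indicator_iff hBm).2 i1
    have j1 : Integrable fun x => √|V x| * g₁ x := by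
      refine i1'.mono' ((by fun_prop : Measurable fun x => √|V x|).aestronglyMeasurable.mul h1.1)
        (ae_of_all _ fun x => ?_)
      by_cases hx : x ∈ B
      · rw [indicator_of_mem hx, norm_mul, Real.norm_of_nonneg (Real.sqrt_nonneg _),
          Real.norm_eq_abs]
        have e : √|V x| ^ 2 = |V x| := Real.sq_sqrt (abs_nonneg _)
        have e2 : |V x| ≤ 1 + |V x| ^ (3 / 2 : ℝ) := by
          by_cases hv : |V x| ≤ 1
          · have : 0 ≤ |V x| ^ (3 / 2 : ℝ) := Real.rpow_nonneg (abs_nonneg _) _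
            linarith
          · have := Real.self_le_rpow_of_one_le (not_le.1 hv).le (by norm_num : (1 : ℝ) ≤ 3 / 2)
            linarith
        have e3 : 0 ≤ |V x| ^ (3 / 2 : ℝ) := Real.rpow_nonneg (abs_nonneg _) _
        have e4 : |g₁ x| ^ 2 = g₁ x ^ 2 := sq_abs _
        nlinarith [sq_nonneg (√|V x| - |g₁ x|), sq_nonneg (√|V x|), sq_nonneg (g₁ x)]
      · rw [indicator_of_notMem hx, (z x (Or.inr (hout x hx))).2.1]
        simp
    have jj : ∀ g : E3 → ℝ, MemLp g 2 → (∀ x, r0 < ‖x‖ → g x = 0) → Integrable g := by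
      intro g hg hg0
      have : Integrable (B.indicator fun x => 1 + g x ^ 2) :=
        (integrable_indicator_iff hBm).2 ((integrableOn_const (μ := (volume : Measure E3))
          (s := B) (C := (1 : ℝ)) hBf.ne).add hg.integrable_sq.integrableOn)
      refine this.mono' hg.1 (ae_of_all _ fun x => ?_)
      by_cases hx : x ∈ B
      · rw [indicator_of_mem hx, Real.norm_eq_abs]
        nlinarith [sq_nonneg (|g x| - 1), sq_abs (g x)]
      · rw [indicator_of_notMem hx, hg0 x (hout x hx)]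
        simp
    exact (j1.add ((jj g₂ h2 fun x hx => (z x (Or.inr hx)).2.2.1).const_mul _)).add
      (jj g₃ h3 fun x hx => (z x (Or.inr hx)).2.2.2.1)
  have rep := hR κ ρ r0 u (fun x => √|V x| * g₁ x + √κ * g₂ x + g₃ x) Du hκ0 hρ hρr hu hDu hFint
    hw heq (fun x hx => (z x hx).1) (fun i x hx => (z x hx).2.2.2.2 i) (fun x hx => by
      simp only [(z x hx).2.1, (z x hx).2.2.1, (z x hx).2.2.2.1]; ring) m
  have hU := om_memLp (m := m) hρ hu fun x hx => (z x (Or.inl hx)).1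
  have hG1 := om_memLp (m := m) hρ h1 fun x hx => (z x (Or.inl hx)).2.1
  have hG2 := om_memLp (m := m) hρ h2 fun x hx => (z x (Or.inl hx)).2.2.1
  have hG3 := om_memLp (m := m) hρ h3 fun x hx => (z x (Or.inl hx)).2.2.2.1
  have rep2 : ∀ᵐ x, om m x * u x = ∫ y, wK κ m x y *
      (√|V y| * (om m y * g₁ y) + √κ * (om m y * g₂ y) + om m y * g₃ y) := by
    have hne : ∀ᵐ x : E3, x ≠ 0 := by
      rw [ae_iff]; simp
    filter_upwards [rep, hne] with x hx hx0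
    rw [hx, ← integral_const_mul]
    refine integral_congr_ae (ae_of_all _ fun y => ?_)
    simp only
    by_cases hy : ‖y‖ < ρ
    · have := z y (Or.inl hy)
      rw [this.2.1, this.2.2.1, this.2.2.2.1]
      ring
    · have hy0 : y ≠ 0 := by
        intro h
        rw [h, norm_zero] at hy
        exact hy hρ
      rw [← mul_assoc, ← wK_om hx0 hy0]
      ring
  obtain ⟨p1, p2⟩ := star_core (C := C) (C₂ := C₂) (κ := κ) (ρ := ρ) (r0 := r0) (M := M) (m := m)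
    hκ hρ hρr hM hC₂0 (fun f g hf hg hf0 hg0 => hC κ m r0 hκ0.le hr0 f g hf hg hf0 hg0)
    (fun f g hf hg hf0 hg0 => hC₂ κ m ρ r0 hκ0 hm hρ hρr f g hf hg hf0 hg0) hV hVM hU hG1 hG2 hG3
    (fun x hx => ⟨by rw [(z x hx).1, mul_zero], by rw [(z x hx).2.1, mul_zero],
      by rw [(z x hx).2.2.1, mul_zero], by rw [(z x hx).2.2.2.1, mul_zero]⟩) rep2
  set n1 := √(∫ x, (om m x * g₁ x) ^ 2) with hn1
  set n2 := √(∫ x, (om m x * g₂ x) ^ 2) with hn2
  set n3 := √(∫ x, (om m x * g₃ x) ^ 2) with hn3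
  have n10 : 0 ≤ n1 := Real.sqrt_nonneg _
  have n20 : 0 ≤ n2 := Real.sqrt_nonneg _
  have n30 : 0 ≤ n3 := Real.sqrt_nonneg _
  have L1 : ∫⁻ x, om2 m x * ENNReal.ofReal (|V x| * u x ^ 2) =
      ∫⁻ x, ENNReal.ofReal (|V x| * (om m x * u x) ^ 2) := by
    refine lintegral_congr fun x => ?_
    rw [om2_eq m x (by positivity)]
    congr 1; ring
  have L2 : ENNReal.ofReal κ * ∫⁻ x, om2 m x * ENNReal.ofReal (u x ^ 2) =
      ENNReal.ofReal ((√κ * √(∫ x, (om m x * u x) ^ 2)) ^ 2) := by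
    rw [mul_pow, Real.sq_sqrt hκ0.le, Real.sq_sqrt (integral_nonneg fun x => sq_nonneg _),
      ENNReal.ofReal_mul hκ0.le, ofReal_integral_eq_lintegral_ofReal hU.integrable_sq
        (ae_of_all _ fun x => sq_nonneg _)]
    congr 1
    refine lintegral_congr fun x => ?_
    rw [om2_eq m x (by positivity)]
    congr 1; ring
  have Rr : ∫⁻ x, om2 m x * ENNReal.ofReal (g₁ x ^ 2 + g₂ x ^ 2 + g₃ x ^ 2) =
      ENNReal.ofReal (n1 ^ 2 + n2 ^ 2 + n3 ^ 2) := by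
    have i12 : Integrable fun x => (om m x * g₁ x) ^ 2 + (om m x * g₂ x) ^ 2 :=
      hG1.integrable_sq.add hG2.integrable_sq
    have i123 : Integrable fun x => (om m x * g₁ x) ^ 2 + (om m x * g₂ x) ^ 2 +
        (om m x * g₃ x) ^ 2 := i12.add hG3.integrable_sq
    rw [hn1, hn2, hn3, Real.sq_sqrt (integral_nonneg fun x => sq_nonneg _),
      Real.sq_sqrt (integral_nonneg fun x => sq_nonneg _),
      Real.sq_sqrt (integral_nonneg fun x => sq_nonneg _),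
      ← integral_add hG1.integrable_sq hG2.integrable_sq,
      ← integral_add i12 hG3.integrable_sq,
      ofReal_integral_eq_lintegral_ofReal i123
        (ae_of_all _ fun x => by simp only [Pi.zero_apply]; positivity)]
    refine lintegral_congr fun x => ?_
    rw [om2_eq m x (by positivity)]
    congr 1; ring
  rw [L1, L2, Rr]
  have q1 := real_bd1 (C := (C : ℝ)) C.2 hM hr0.le n10 n20 n30
  have q2 := real_bd2 (C := (C : ℝ)) (D := 2 * C₂) C.2 (by positivity) hM hr0.le n10 n20 n30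
  have q3 : (√κ * √(∫ x, (om m x * u x) ^ 2)) ^ 2 ≤
      3 * ((C : ℝ) + 2 * C₂) ^ 2 * ((M + r0) ^ 2 * (n1 ^ 2 + n2 ^ 2 + n3 ^ 2)) := by
    refine le_trans ?_ q2
    gcongr
  have cC : ((3 * C ^ 2 + 3 * (C + D) ^ 2 : ℝ≥0) : ℝ≥0∞) =
      ENNReal.ofReal (3 * (C : ℝ) ^ 2 + 3 * ((C : ℝ) + 2 * C₂) ^ 2) := by
    rw [ENNReal.ofReal, ENNReal.coe_inj]
    rw [← NNReal.coe_inj, Real.coe_toNNReal _ (by positivity)]
    push_cast
    have hDc : (D : ℝ) = 2 * C₂ := rfl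
    rw [hDc]
  rw [cC, ← ENNReal.ofReal_mul (by positivity), ← ENNReal.ofReal_mul (by positivity)]
  calc _ ≤ ENNReal.ofReal (3 * (C : ℝ) ^ 2 * ((M + r0) ^ 2 * (n1 ^ 2 + n2 ^ 2 + n3 ^ 2))) +
        ENNReal.ofReal (3 * ((C : ℝ) + 2 * C₂) ^ 2 *
          ((M + r0) ^ 2 * (n1 ^ 2 + n2 ^ 2 + n3 ^ 2))) :=
        add_le_add (p1.trans (ENNReal.ofReal_le_ofReal q1)) (ENNReal.ofReal_le_ofReal q3)
    _ = _ := by
        rw [← ENNReal.ofReal_add (by positivity) (by positivity)]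
        congr 1; ring

end Pool.Agent.H998.HK
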