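import Pool.Agent.H690.HK.SpI
import Pool.Agent.H773.HK.Conc4
import Pool.Agent.H773.HK.FB
import Pool.Agent.H998.HK.Est
import Pool.Agent.H998.HK.Loc4
import Pool.Agent.H998.HK.Star3
import Pool.Agent.H998.HK.FormB
import Pool.Agent.H196.HK.KB
import Pool.Agent.H196.HK.L2
import Pool.Agent.H200.HK.Dens
import Pool.Agent.H238.HK.Var
import Pool.Agent.H287.HK.HCar
import Pool.Agent.H548.HK.J
import Pool.Agent.H578.HK.Yuk2
import Pool.Agent.H690.HK.BilB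
import Pool.Agent.H707.HK.Kap
import Pool.Agent.H762.HK.Fin
import Pool.Agent.H803.HK.WFB
import Pool.Agent.H825.HK.Two2
import Pool.Agent.H980.HK.Rep
import Pool.Agent.H123.HK.EL

/-!
# Hohenberg-Kohn in `L^{3/2} + L^∞` : assembly (helper998)
-/

set_option autoImplicit false

noncomputable section

namespace Pool.Agent.H998.HK

open MeasureTheory Filter Topology Set

theorem f_EST : Pool.Agent.H690.HK.S_EST' := by
  intro n v E f Dx Dy hv hvm hf hs ζ hζ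
  obtain ⟨M, hM⟩ := t_EST t_FBX t_FBY Pool.Agent.H773.HK.FB1 n v E f Dx Dy hv hvm hf hs ζ hζ
  refine ⟨M, fun ε hε => ?_⟩
  have h := hM ε hε
  have e : (-(5 / 4) : ℝ) = -5 / 4 := by norm_num
  rw [e] at h
  exact h

theorem f_SPLIT : S_SPLIT :=
  Pool.Agent.H690.HK.SPLIT_of_EST t_FBX t_FBY t_COUX t_COUY f_EST

theorem f_BIL : S_BIL := Pool.Agent.H690.HK.t_BIL (Pool.Agent.H196.HK.t_KB Pool.Agent.H548.HK.t_J)

theorem f_REP : S_REP :=
  Pool.Agent.H980.HK.t_REP2 Pool.Agent.H196.HK.t_TAYLOR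
    (Pool.Agent.H578.HK.t_YUK2 Pool.Agent.H707.HK.t_KAP)

theorem f_STAR : S_STAR := t_STAR f_BIL (Pool.Agent.H196.HK.t_L2 f_BIL) f_REP

theorem f_HCAR : S_HCAR := Pool.Agent.H287.HK.t_HCAR f_STAR

theorem f_LOC : S_LOC := t_LOC f_HCAR

theorem f_UCP : S_UCP := t_UCP f_LOC Pool.Agent.H200.HK.t_DENS Pool.Agent.H773.HK.CONC

theorem f_WFB : S_WFB := Pool.Agent.H803.HK.t_WFB2 t_FBX t_FBY t_COUX t_COUY

theorem f_HK : S_HK :=
  Pool.Agent.H762.HK.t_FIN f_SPLIT f_UCP (Pool.Agent.H238.HK.t_VAR2 f_WFB)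
    (Pool.Agent.H123.HK.t_EL2 f_WFB) (Pool.Agent.H825.HK.t_TWO2 Pool.Agent.H773.HK.FB1)
    Pool.Agent.H773.HK.FB1

end Pool.Agent.H998.HK
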