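import Pool.Agent.H998.HK.Spec4
import Pool.Agent.H123.HK.EL
import Pool.Agent.H238.HK.Var
import Pool.Agent.H773.HK.Sob
import Pool.Agent.H998.HK.FormB

/-!
# Hohenberg-Kohn in `L^{3/2} + L^∞` : task LTHREE (helper998)
-/

set_option autoImplicit false

noncomputable section

namespace Pool.Agent.H998.HK

open MeasureTheory Filter Topology Set
open scoped ENNReal NNReal
open Pool.Agent.H773.HK (N32 sobC split_sobolev eb)

/-- duality characterization of `L³` -/
theorem dual_L3 {ρ : E3 → ℝ≥0∞} (hρ : Measurable ρ) {K : ℝ≥0∞}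
    (h : ∀ v : E3 → ℝ, Measurable v → N32 v ≠ ∞ → ∫⁻ x, ‖v x‖ₑ * ρ x ≤ K * N32 v) :
    ∫⁻ x, ρ x ^ (3 : ℝ) ≤ K ^ (3 : ℝ) := by
  set τ : ℕ → E3 → ℝ≥0∞ := fun m => (Metric.ball (0 : E3) m).indicator
    (fun x => min (ρ x) m) with hτ
  have hτm : ∀ m, Measurable (τ m) := fun m =>
    (hρ.min measurable_const).indicator measurableSet_ball
  have hτle : ∀ m x, τ m x ≤ ρ x := fun m x => by
    simp only [hτ]
    by_cases hx : x ∈ Metric.ball (0 : E3) m
    · rw [indicator_of_mem hx]; exact min_le_left _ _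
    · rw [indicator_of_notMem hx]; exact zero_le
  have hτfin : ∀ m x, τ m x ≠ ∞ := fun m x => by
    simp only [hτ]
    by_cases hx : x ∈ Metric.ball (0 : E3) m
    · rw [indicator_of_mem hx]
      exact ne_of_lt (lt_of_le_of_lt (min_le_right _ _) (by simp))
    · rw [indicator_of_notMem hx]; simp
  have key : ∀ m, ∫⁻ x, τ m x ^ (3 : ℝ) ≤ K ^ (3 : ℝ) := by
    intro m
    set A := ∫⁻ x, τ m x ^ (3 : ℝ) with hA
    have hAfin : A ≠ ∞ := by
      have h1 : A ≤ ∫⁻ x, (Metric.ball (0 : E3) m).indicator (fun _ => (m : ℝ≥0∞) ^ (3 : ℝ)) x := by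
        refine lintegral_mono fun x => ?_
        simp only [hτ]
        by_cases hx : x ∈ Metric.ball (0 : E3) m
        · rw [indicator_of_mem hx, indicator_of_mem hx]
          exact ENNReal.rpow_le_rpow (min_le_right _ _) (by norm_num)
        · rw [indicator_of_notMem hx, indicator_of_notMem hx]
          simp
      rw [lintegral_indicator measurableSet_ball, setLIntegral_const] at h1
      refine ne_of_lt (lt_of_le_of_lt h1 ?_)
      exact ENNReal.mul_lt_top (by simp) measure_ball_lt_top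
    set v : E3 → ℝ := fun x => (τ m x ^ (2 : ℝ)).toReal with hv
    have hvm : Measurable v := ((hτm m).pow_const _).ennreal_toReal
    have hve : ∀ x, ‖v x‖ₑ = τ m x ^ (2 : ℝ) := by
      intro x
      simp only [hv]
      rw [Real.enorm_of_nonneg ENNReal.toReal_nonneg, ENNReal.ofReal_toReal]
      exact ENNReal.rpow_ne_top_of_nonneg (by norm_num) (hτfin m x)
    have hN : N32 v = A ^ (2 / 3 : ℝ) := by
      rw [N32, hA]
      congr 1
      refine lintegral_congr fun x => ?_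
      rw [hve, ← ENNReal.rpow_mul]
      norm_num
    have h1 := h v hvm (by rw [hN]; exact ENNReal.rpow_ne_top_of_nonneg (by norm_num) hAfin)
    have h2 : A ≤ ∫⁻ x, ‖v x‖ₑ * ρ x := by
      refine lintegral_mono fun x => ?_
      rw [hve]
      calc τ m x ^ (3 : ℝ) = τ m x ^ (2 : ℝ) * τ m x ^ (1 : ℝ) := by
            rw [← ENNReal.rpow_add_of_nonneg _ _ (by norm_num) (by norm_num)]; norm_num
        _ ≤ τ m x ^ (2 : ℝ) * ρ x := by
            rw [ENNReal.rpow_one]
            exact mul_le_mul' le_rfl (hτle m x)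
    have h3 : A ≤ K * A ^ (2 / 3 : ℝ) := by rw [← hN]; exact h2.trans h1
    by_cases h0 : A = 0
    · rw [h0]; exact zero_le
    · have h4 : A ^ (2 / 3 : ℝ) ≠ 0 := by
        rw [Ne, ENNReal.rpow_eq_zero_iff]
        push Not
        exact ⟨fun h => absurd h h0, fun h => absurd h hAfin⟩
      have h5 : A ^ (2 / 3 : ℝ) ≠ ∞ := ENNReal.rpow_ne_top_of_nonneg (by norm_num) hAfin
      have h6 : A ^ (1 / 3 : ℝ) ≤ K := by
        have h7 : A = A ^ (1 / 3 : ℝ) * A ^ (2 / 3 : ℝ) := by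
          rw [← ENNReal.rpow_add_of_nonneg _ _ (by norm_num) (by norm_num)]; norm_num
        have h8 : A ^ (1 / 3 : ℝ) * A ^ (2 / 3 : ℝ) ≤ K * A ^ (2 / 3 : ℝ) := by
          rw [← h7]; exact h3
        exact (ENNReal.mul_le_mul_iff_left h4 h5).1 h8
      calc A = (A ^ (1 / 3 : ℝ)) ^ (3 : ℝ) := by rw [← ENNReal.rpow_mul]; norm_num
        _ ≤ K ^ (3 : ℝ) := ENNReal.rpow_le_rpow h6 (by norm_num)
  have hlim : ∀ x, Tendsto (fun m => τ m x ^ (3 : ℝ)) atTop (𝓝 (ρ x ^ (3 : ℝ))) := by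
    intro x
    have h1 : Tendsto (fun m => τ m x) atTop (𝓝 (ρ x)) := by
      have h2 : Tendsto (fun m : ℕ => min (ρ x) (m : ℝ≥0∞)) atTop (𝓝 (min (ρ x) ∞)) :=
        tendsto_const_nhds.min ENNReal.tendsto_nat_nhds_top
      rw [min_eq_left le_top] at h2
      refine h2.congr' ?_
      obtain ⟨m0, hm0⟩ := exists_nat_gt ‖x‖
      filter_upwards [eventually_ge_atTop m0] with m hm
      simp only [hτ]
      rw [indicator_of_mem]
      rw [mem_ball_zero_iff]
      exact lt_of_lt_of_le hm0 (by exact_mod_cast hm)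
    exact (ENNReal.continuous_rpow_const.tendsto _).comp h1
  calc ∫⁻ x, ρ x ^ (3 : ℝ) = ∫⁻ x, liminf (fun m => τ m x ^ (3 : ℝ)) atTop :=
        lintegral_congr fun x => (hlim x).liminf_eq.symm
    _ ≤ liminf (fun m => ∫⁻ x, τ m x ^ (3 : ℝ)) atTop :=
        lintegral_liminf_le fun m => (hτm m).pow_const _
    _ ≤ liminf (fun _ : ℕ => K ^ (3 : ℝ)) atTop :=
        liminf_le_liminf (Eventually.of_forall key)
    _ = K ^ (3 : ℝ) := liminf_const _

/-- one component: the density `∫ |f(x,y)|² dy` is in `L³` -/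
theorem comp_L3 {n : ℕ} {f : Xn n → ℂ} {D : Fin 3 → Xn n → ℂ} (hf : MemLp f 2)
    (hD : ∀ i, MemLp (D i) 2) (hw : ∀ i, WD (ex n i) f (D i)) :
    MemLp (fun x : E3 => ∫ y : Yn n, ‖f (x, y)‖ ^ 2) 3 := by
  have hmf := hf.1.stronglyMeasurable_mk.measurable
  set F : Xn n → ℂ := hf.1.mk f with hF
  have hFf : f =ᵐ[volume] F := hf.1.ae_eq_mk
  set r : E3 → ℝ≥0∞ := fun x => ∫⁻ y : Yn n, ‖F (x, y)‖ₑ ^ 2 with hr
  have hrm : Measurable r := by
    have : Measurable fun z : Xn n => ‖F z‖ₑ ^ 2 := hmf.enorm.pow_const 2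
    exact this.lintegral_prod_right'
  set K : ℝ≥0∞ := sobC * ∑ i, ∫⁻ z, ‖D i z‖ₑ ^ 2 with hK
  have hKfin : K ≠ ∞ := by
    refine ENNReal.mul_ne_top ENNReal.coe_ne_top (ENNReal.sum_ne_top.2 fun i _ => ?_)
    have := lintegral_rpow_enorm_lt_top_of_eLpNorm_lt_top (by norm_num) (by norm_num)
      (hD i).eLpNorm_lt_top
    simp only [ENNReal.toReal_ofNat, ENNReal.rpow_ofNat] at this
    exact this.ne
  have h1 : ∫⁻ x, r x ^ (3 : ℝ) ≤ K ^ (3 : ℝ) := by
    refine dual_L3 hrm fun v hv hN => ?_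
    have haar := haarX n
    have h2 := split_sobolev (X := Xn n) (F := ℂ) (ContinuousLinearMap.fst ℝ E3 (Yn n))
      (ContinuousLinearMap.inl ℝ E3 (Yn n)) (fun a => rfl) (v := v) (v' := v) hv hv
      (C := 0) (ε := N32 v) (by simp) hN (fun x => by simp) le_rfl hf hD
      (fun i φ hφ => hw i φ hφ)
    rw [zero_mul, zero_add] at h2
    calc ∫⁻ x, ‖v x‖ₑ * r x = ∫⁻ x : E3, ∫⁻ y : Yn n, ‖v x‖ₑ * ‖F (x, y)‖ₑ ^ 2 := by
          refine lintegral_congr fun x => ?_
          rw [hr, lintegral_const_mul' _ _ enorm_ne_top]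
      _ = ∫⁻ z : Xn n, ‖v z.1‖ₑ * ‖F z‖ₑ ^ 2 := by
          rw [Measure.volume_eq_prod, lintegral_prod]
          exact ((hv.comp measurable_fst).enorm.mul (hmf.enorm.pow_const 2)).aemeasurable
      _ = ∫⁻ z : Xn n, ‖v z.1‖ₑ * ‖f z‖ₑ ^ 2 := by
          refine lintegral_congr_ae ?_
          filter_upwards [hFf] with z hz
          rw [hz]
      _ ≤ sobC * N32 v * ∑ i, ∫⁻ z, ‖D i z‖ₑ ^ 2 := h2
      _ = K * N32 v := by rw [hK]; ring
  have hae : ∀ᵐ x : E3, (∫ y : Yn n, ‖f (x, y)‖ ^ 2) = (r x).toReal := by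
    have h2 : ∀ᵐ x : E3, ∀ᵐ y : Yn n, f (x, y) = F (x, y) := by
      have := hFf
      rw [Measure.volume_eq_prod] at this
      exact Measure.ae_ae_of_ae_prod this
    filter_upwards [h2] with x hx
    rw [integral_eq_lintegral_of_nonneg_ae (Eventually.of_forall fun y => by positivity)]
    · congr 1
      refine lintegral_congr_ae ?_
      filter_upwards [hx] with y hy
      rw [hy, ← ofReal_norm, ENNReal.ofReal_pow (norm_nonneg _)]
    · have : Measurable fun y => F (x, y) := hmf.comp measurable_prodMk_left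
      refine (this.norm.pow_const 2).aestronglyMeasurable.congr ?_
      filter_upwards [hx] with y hy
      simp only [hy]
  refine MemLp.ae_eq (f := fun x => (r x).toReal) (hae.mono fun x hx => hx.symm) ?_
  refine ⟨hrm.ennreal_toReal.aestronglyMeasurable, ?_⟩
  rw [eLpNorm_eq_lintegral_rpow_enorm_toReal (by norm_num) (by norm_num)]
  refine ENNReal.rpow_lt_top_of_nonneg (by positivity) (ne_of_lt (lt_of_le_of_lt
    (lintegral_mono fun x => ?_) (lt_of_le_of_lt h1
      (ENNReal.rpow_lt_top_of_nonneg (by norm_num) hKfin))))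
  simp only [ENNReal.toReal_ofNat]
  refine ENNReal.rpow_le_rpow ?_ (by norm_num)
  rw [Real.enorm_of_nonneg ENNReal.toReal_nonneg]
  exact ENNReal.ofReal_toReal_le

theorem t_L3 : S_L3 := by
  intro n Ψ G h
  have h1 : ∀ s, Integrable (fun x : Fin (n + 1) → E3 => ‖Ψ s x‖ ^ 2) := fun s =>
    (h.memLp s).integrable_norm_pow (by norm_num)
  have hp := Pool.Agent.H238.HK.Pv_dens n (fun _ => 1) Ψ G h (fun s j => by simpa using h1 s)
  have hint : Integrable (dens n Ψ) := by simpa using hp.1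
  refine ⟨memLp_one_iff_integrable.2 hint, ?_, ?_⟩
  · have hs : ∀ s, MemLp (fun x : E3 => ∫ y : Fin n → E3, ‖Ψ s (Fin.cons x y)‖ ^ 2) 3 := by
      intro s
      have hL := Pool.Agent.H123.HK.LL_mp n
      refine comp_L3 (n := n) (f := fun z => Ψ s (Pool.Agent.H123.HK.LL n z))
        (D := fun i z => G s 0 i (Pool.Agent.H123.HK.LL n z))
        ((h.memLp s).comp_measurePreserving hL) (fun i => (h.gradMemLp s 0 i).comp_measurePreserving hL)
        fun i => ?_
      refine Pool.Agent.H123.HK.WD_comp (Pool.Agent.H123.HK.LL n) hL (ex n i) _ _ ?_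
      rw [Pool.Agent.H123.HK.LL_ex]
      exact h.grad s 0 i
    have := (memLp_finsetSum (Finset.univ : Finset (Spin (n + 1))) fun s _ => hs s).const_mul
      (n + 1 : ℝ)
    exact this
  · have h2 := hp.2
    simp only [one_mul] at h2
    rw [← h2, Pool.Agent.H238.HK.Pv, normSq]
    simp only [one_mul, Finset.sum_const, Finset.card_univ, Fintype.card_fin, nsmul_eq_mul]
    rw [← Finset.mul_sum]
    push_cast; ring

end Pool.Agent.H998.HK
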