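import Pool.Agent.H998.HK.Sub
import Pool.Agent.H998.HK.Exi
import Pool.Agent.H998.HK.L3
import Pool.Agent.H383.HK.Rel
import Pool.Agent.H551.HK.Comp

/-!
# Hohenberg-Kohn in `L^{3/2} + L^∞` : assembly of the subdifferential form (helper998)
-/

set_option autoImplicit false

noncomputable section

namespace Pool.Agent.H998.HK

open MeasureTheory Filter Topology Set
open scoped ENNReal NNReal

theorem f_COMP : S_COMP := Pool.Agent.H551.HK.t_COMP f_WFB Pool.Agent.H383.HK.t_REL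

/-- two elements of the subdifferential differ by a constant -/
theorem f_SUB {n : ℕ} {ρ : E3 → ℝ} (r1 : MemLp ρ 1) (r3 : MemLp ρ 3) {w₁ w₂ : E3 → ℝ}
    (h1 : w₁ ∈ subD n ρ) (h2 : w₂ ∈ subD n ρ) : ∃ c : ℝ, ∀ᵐ x, w₁ x - w₂ x = c :=
  subD_unique f_WFB t_EXI t_L3 f_COMP r1 r3 h1 h2

theorem f_SUBadd {n : ℕ} {ρ : E3 → ℝ} (r1 : MemLp ρ 1) (r3 : MemLp ρ 3)
    {w w' : E3 → ℝ} (h : w ∈ subD n ρ) (μ : ℝ) (hX : XStar w') (hw' : ∀ᵐ x, w' x = w x + μ) :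
    w' ∈ subD n ρ := subD_add f_WFB t_EXI t_L3 r1 r3 h μ hX hw'

end Pool.Agent.H998.HK
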