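import Pool.Agent.H998.HK.Spec2

set_option autoImplicit false

noncomputable section

namespace Pool.Agent.H998.HK

open MeasureTheory Filter Topology Set
open scoped ENNReal NNReal RealInnerProductSpace ContDiff

/-! ### test functions -/

theorem Test.cont {φ : E3 → ℝ} (h : Test φ) : Continuous φ := h.1.continuous

theorem Test.diff {φ : E3 → ℝ} (h : Test φ) : Differentiable ℝ φ :=
  h.1.differentiable (by simp)

theorem Test.mul {φ η : E3 → ℝ} (h : Test φ) (h2 : ContDiff ℝ ((⊤ : ℕ∞) : WithTop ℕ∞) η) :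
    Test (fun x => φ x * η x) :=
  ⟨h.1.mul h2, h.2.mul_right⟩

theorem Test.pd {φ : E3 → ℝ} (h : Test φ) (i : Fin 3) : Test (pd i φ) := by
  constructor
  · unfold HK.pd
    exact (h.1.fderiv_right (by simp)).clm_apply contDiff_const
  · exact h.2.fderiv_apply (𝕜 := ℝ) _

theorem pd_mul {φ η : E3 → ℝ} (h : Differentiable ℝ φ) (h2 : Differentiable ℝ η) (i : Fin 3)
    (x : E3) : pd i (fun x => φ x * η x) x = pd i φ x * η x + φ x * pd i η x := by
  unfold pd
  rw [fderiv_fun_mul (h x) (h2 x)]
  simp [mul_comm]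
  ring

theorem Test.sub {φ η : E3 → ℝ} (h : Test φ) (h2 : Test η) : Test (fun x => φ x - η x) :=
  ⟨h.1.sub h2.1, by
    have := h.2.add (h2.2.neg)
    simpa [sub_eq_add_neg] using! this⟩

theorem pd_sub {φ η : E3 → ℝ} (h : Differentiable ℝ φ) (h2 : Differentiable ℝ η) (i : Fin 3) :
    pd i (fun x => φ x - η x) = fun x => pd i φ x - pd i η x := by
  funext x
  unfold pd
  rw [fderiv_fun_sub (h x) (h2 x)]
  simp

theorem pd_scale {φ : E3 → ℝ} (h : Differentiable ℝ φ) (c : ℝ) (i : Fin 3) :
    pd i (fun x => φ (c • x)) = fun x => c * pd i φ (c • x) := by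
  funext x
  unfold pd
  have h1 : HasFDerivAt (fun x : E3 => φ (c • x))
      ((fderiv ℝ φ (c • x)).comp (c • ContinuousLinearMap.id ℝ E3)) x :=
    (h (c • x)).hasFDerivAt.comp x ((hasFDerivAt_id x).const_smul c)
  rw [h1.fderiv]
  simp

theorem pd_translate {φ : E3 → ℝ} (x₀ : E3) (i : Fin 3) :
    pd i (fun x => φ (x - x₀)) = fun x => pd i φ (x - x₀) := by
  funext x
  unfold pd
  rw [fderiv_comp_sub]

theorem Test.translate {φ : E3 → ℝ} (h : Test φ) (x₀ : E3) : Test (fun x => φ (x - x₀)) :=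
  ⟨h.1.comp (contDiff_id.sub contDiff_const), by
    have := h.2.comp_homeomorph (Homeomorph.subRight x₀)
    exact this⟩

theorem Test.scale {φ : E3 → ℝ} (h : Test φ) {c : ℝ} (hc : c ≠ 0) : Test (fun x => φ (c • x)) :=
  ⟨h.1.comp (contDiff_const_smul c), by
    have := h.2.comp_homeomorph (Homeomorph.smulOfNeZero c hc)
    exact this⟩

section hilbert

variable {H : Type} [NormedAddCommGroup H] [InnerProductSpace ℂ H] [CompleteSpace H]

theorem Test.int {φ : E3 → ℝ} (h : Test φ) {u : E3 → H} (hu : LocallyIntegrable u) :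
    Integrable fun x => φ x • u x :=
  hu.integrable_smul_left_of_hasCompactSupport h.cont h.2

theorem li2 {u : E3 → H} (hu : MemLp u 2) : LocallyIntegrable u :=
  hu.locallyIntegrable (by norm_num)

theorem wg_cut {χ : E3 → H} {D : Fin 3 → E3 → H} {η : E3 → ℝ} (hη : Test η) (hχ : MemLp χ 2)
    (hD : ∀ i, MemLp (D i) 2) (h : WeakGrad χ D) :
    WeakGrad (fun x => η x • χ x) (fun i x => η x • D i x + pd i η x • χ x) := by
  intro i φ hφ
  have h1 := h i (fun x => φ x * η x) (hφ.mul hη.1)
  have lχ := li2 hχ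
  have lD := li2 (hD i)
  have i1 : Integrable fun x => (pd i φ x * η x) • χ x := ((hφ.pd i).mul hη.1).int lχ
  have i2 : Integrable fun x => (φ x * pd i η x) • χ x := (hφ.mul (hη.pd i).1).int lχ
  have i3 : Integrable fun x => (φ x * η x) • D i x := (hφ.mul hη.1).int lD
  have e1 : ∫ x, pd i (fun x => φ x * η x) x • χ x =
      (∫ x, (pd i φ x * η x) • χ x) + ∫ x, (φ x * pd i η x) • χ x := by
    rw [← integral_add i1 i2]
    refine integral_congr_ae (ae_of_all _ fun x => ?_)
    simp only
    rw [pd_mul hφ.diff hη.diff, add_smul]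
  rw [e1] at h1
  have e2 : ∫ x, φ x • (η x • D i x + pd i η x • χ x) =
      (∫ x, (φ x * η x) • D i x) + ∫ x, (φ x * pd i η x) • χ x := by
    rw [← integral_add i3 i2]
    refine integral_congr_ae (ae_of_all _ fun x => ?_)
    simp only [smul_add, smul_smul]
  rw [e2]
  have e3 : ∫ x, pd i φ x • η x • χ x = ∫ x, (pd i φ x * η x) • χ x := by
    simp only [smul_smul]
  rw [e3, neg_add, ← h1]
  abel

/-- the commutator `-2 ∇η·∇χ - (Δη) χ` -/
def com (η : E3 → ℝ) (χ : E3 → H) (D : Fin 3 → E3 → H) (x : E3) : H :=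
  -((2 : ℝ) • ∑ i, pd i η x • D i x) - (∑ i, pd i (pd i η) x) • χ x

theorem int_com {χ : E3 → H} {D : Fin 3 → E3 → H} {η : E3 → ℝ} (hη : Test η) (hχ : MemLp χ 2)
    (hD : ∀ i, MemLp (D i) 2) (h : WeakGrad χ D) {φ : E3 → ℝ} (hφ : Test φ) :
    Integrable (fun x => φ x • com η χ D x) ∧
    ∫ x, φ x • com η χ D x = ∑ i, ((∫ x, (pd i φ x * pd i η x) • χ x) -
      ∫ x, (φ x * pd i η x) • D i x) := by
  have lχ := li2 hχ
  have i1 : ∀ i, Integrable fun x => (pd i φ x * pd i η x) • χ x := fun i =>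
    ((hφ.pd i).mul (hη.pd i).1).int lχ
  have i2 : ∀ i, Integrable fun x => (φ x * pd i (pd i η) x) • χ x := fun i =>
    (hφ.mul ((hη.pd i).pd i).1).int lχ
  have i3 : ∀ i, Integrable fun x => (φ x * pd i η x) • D i x := fun i =>
    (hφ.mul (hη.pd i).1).int (li2 (hD i))
  have key : ∀ i, (∫ x, (pd i φ x * pd i η x) • χ x) + ∫ x, (φ x * pd i (pd i η) x) • χ x =
      -∫ x, (φ x * pd i η x) • D i x := by
    intro i
    rw [← h i (fun x => φ x * pd i η x) (hφ.mul (hη.pd i).1), ← integral_add (i1 i) (i2 i)]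
    refine integral_congr_ae (ae_of_all _ fun x => ?_)
    simp only
    rw [pd_mul hφ.diff (hη.pd i).diff, add_smul]
  have e : (fun x => φ x • com η χ D x) = fun x =>
      ∑ i, (-((2 : ℝ) • ((φ x * pd i η x) • D i x)) - (φ x * pd i (pd i η) x) • χ x) := by
    funext x
    simp only [com, Finset.sum_sub_distrib, smul_sub, smul_neg, Finset.sum_neg_distrib,
      Finset.sum_smul, Finset.smul_sum, smul_smul]
    congr 1
    congr 1
    refine Finset.sum_congr rfl fun i _ => ?_
    congr 1
    ring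
  have i4 : ∀ i, Integrable fun x =>
      -((2 : ℝ) • ((φ x * pd i η x) • D i x)) - (φ x * pd i (pd i η) x) • χ x := fun i =>
    (((i3 i).smul (2 : ℝ)).neg).sub (i2 i)
  rw [e]
  refine ⟨integrable_finsetSum _ fun i _ => i4 i, ?_⟩
  rw [integral_finsetSum _ fun i _ => i4 i]
  refine Finset.sum_congr rfl fun i _ => ?_
  have i3n : Integrable fun x => -((2 : ℝ) • ((φ x * pd i η x) • D i x)) :=
    ((i3 i).smul (2 : ℝ)).neg
  rw [integral_sub i3n (i2 i), integral_neg, integral_smul]
  have := key i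
  have k2 : ∫ x, (φ x * pd i (pd i η) x) • χ x =
      -(∫ x, (φ x * pd i η x) • D i x) - ∫ x, (pd i φ x * pd i η x) • χ x := by
    rw [← this]; abel
  rw [k2, two_smul]
  abel

theorem heq_cut {R : H →L[ℂ] H} {V : E3 → ℝ} {χ g : E3 → H} {D : Fin 3 → E3 → H} {η : E3 → ℝ}
    (hη : Test η) (hχ : MemLp χ 2) (hg : MemLp g 2) (hD : ∀ i, MemLp (D i) 2)
    (hV : Integrable fun x => η x • (V x • χ x)) (h : WeakGrad χ D) (he : HEq R V χ D g 0) :
    HEq R V (fun x => η x • χ x) (fun i x => η x • D i x + pd i η x • χ x) (fun x => η x • g x)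
      (com η χ D) := by
  intro φ hφ
  have h1 := he (fun x => φ x * η x) (hφ.mul hη.1)
  obtain ⟨ic, ec⟩ := int_com hη hχ hD h hφ
  have lχ := li2 hχ
  have rs : ∀ (c : ℝ) (y : H), R (c • y) = c • R y := fun c y => by
    rw [← Complex.coe_smul, map_smul, Complex.coe_smul]
  have rs' : ∀ (c : ℝ) (y : H), Rpow R (3 / 4) (c • y) = c • Rpow R (3 / 4) y := fun c y => by
    rw [← Complex.coe_smul, map_smul, Complex.coe_smul]
  have i1 : ∀ i, Integrable fun x => (pd i φ x * η x) • R (D i x) := fun i => by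
    have := R.integrable_comp (((hφ.pd i).mul hη.1).int (li2 (hD i)))
    simpa only [rs] using this
  have i2 : ∀ i, Integrable fun x => (pd i φ x * pd i η x) • χ x := fun i =>
    ((hφ.pd i).mul (hη.pd i).1).int lχ
  have i3 : ∀ i, Integrable fun x => (φ x * pd i η x) • D i x := fun i =>
    (hφ.mul (hη.pd i).1).int (li2 (hD i))
  have i5 : Integrable fun x => (φ x * η x) • χ x := (hφ.mul hη.1).int lχ
  -- the right-hand side
  have iV : Integrable fun x => φ x • R (V x • (η x • χ x)) := by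
    obtain ⟨B, hB⟩ := hφ.2.exists_bound_of_continuous hφ.cont
    have i0 : Integrable fun x => φ x • (η x • (V x • χ x)) :=
      hV.bdd_smul (𝕜 := ℝ) B hφ.cont.aestronglyMeasurable (ae_of_all _ hB)
    have := R.integrable_comp i0
    refine this.congr (ae_of_all _ fun x => ?_)
    simp only [rs]
    rw [smul_comm (η x) (V x)]
  have ig : Integrable fun x => (φ x * η x) • Rpow R (3 / 4) (g x) := by
    have := (Rpow R (3 / 4)).integrable_comp ((hφ.mul hη.1).int (li2 hg))
    simpa only [rs'] using this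
  have R1 : ∫ x, φ x • (R (V x • (η x • χ x)) + Rpow R (3 / 4) (η x • g x) + R (com η χ D x)) =
      (∫ x, (φ x * η x) • (R (V x • χ x) + Rpow R (3 / 4) (g x) + R ((0 : E3 → H) x))) +
        R (∫ x, φ x • com η χ D x) := by
    rw [← R.integral_comp_comm ic]
    have iA : Integrable fun x =>
        (φ x * η x) • (R (V x • χ x) + Rpow R (3 / 4) (g x) + R ((0 : E3 → H) x)) := by
      refine (iV.add ig).congr (ae_of_all _ fun x => ?_)
      simp only [Pi.add_apply, Pi.zero_apply, map_zero, add_zero, smul_add, rs, smul_smul]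
      congr 2
      ring
    rw [← integral_add iA (R.integrable_comp ic)]
    refine integral_congr_ae (ae_of_all _ fun x => ?_)
    simp only [Pi.zero_apply, map_zero, add_zero, smul_add, rs, rs', smul_smul]
    congr 2
    ring_nf
  rw [R1, ← h1, ec]
  have L1 : ∫ x, (∑ i, pd i φ x • R (η x • D i x + pd i η x • χ x) + φ x • η x • χ x) =
      (∑ i, ((∫ x, (pd i φ x * η x) • R (D i x)) + R (∫ x, (pd i φ x * pd i η x) • χ x))) +
        ∫ x, (φ x * η x) • χ x := by
    have : (fun x => ∑ i, pd i φ x • R (η x • D i x + pd i η x • χ x) + φ x • η x • χ x) =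
        fun x => (∑ i, ((pd i φ x * η x) • R (D i x) + R ((pd i φ x * pd i η x) • χ x))) +
          (φ x * η x) • χ x := by
      funext x
      congr 1
      · refine Finset.sum_congr rfl fun i _ => ?_
        simp only [map_add, rs, smul_add, smul_smul]
      · rw [smul_smul]
    have j1 : ∀ i, Integrable fun x =>
        (pd i φ x * η x) • R (D i x) + R ((pd i φ x * pd i η x) • χ x) := fun i =>
      (i1 i).add (R.integrable_comp (i2 i))
    rw [this, integral_add (integrable_finsetSum _ fun i _ => j1 i) i5,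
      integral_finsetSum _ fun i _ => j1 i]
    congr 1
    refine Finset.sum_congr rfl fun i _ => ?_
    rw [integral_add (i1 i) (R.integrable_comp (i2 i)), R.integral_comp_comm (i2 i)]
  have L2 : ∫ x, (∑ i, pd i (fun x => φ x * η x) x • R (D i x) + (φ x * η x) • χ x) =
      (∑ i, ((∫ x, (pd i φ x * η x) • R (D i x)) + R (∫ x, (φ x * pd i η x) • D i x))) +
        ∫ x, (φ x * η x) • χ x := by
    have : (fun x => ∑ i, pd i (fun x => φ x * η x) x • R (D i x) + (φ x * η x) • χ x) =
        fun x => (∑ i, ((pd i φ x * η x) • R (D i x) + R ((φ x * pd i η x) • D i x))) +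
          (φ x * η x) • χ x := by
      funext x
      congr 1
      refine Finset.sum_congr rfl fun i _ => ?_
      rw [pd_mul hφ.diff hη.diff, add_smul, rs]
    have j1 : ∀ i, Integrable fun x =>
        (pd i φ x * η x) • R (D i x) + R ((φ x * pd i η x) • D i x) := fun i =>
      (i1 i).add (R.integrable_comp (i3 i))
    rw [this, integral_add (integrable_finsetSum _ fun i _ => j1 i) i5,
      integral_finsetSum _ fun i _ => j1 i]
    congr 1
    refine Finset.sum_congr rfl fun i _ => ?_
    rw [integral_add (i1 i) (R.integrable_comp (i3 i)), R.integral_comp_comm (i3 i)]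
  rw [L1, L2, map_sum]
  simp only [map_sub, Finset.sum_add_distrib, Finset.sum_sub_distrib]
  abel

end hilbert

end Pool.Agent.H998.HK
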