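import Pool.Agent.H998.HK.Loc2

set_option autoImplicit false

noncomputable section

namespace Pool.Agent.H998.HK

open MeasureTheory Filter Topology Set
open scoped ENNReal NNReal RealInnerProductSpace

theorem cb_test {c : E3} (f : ContDiffBump c) : Test (fun x => f x) :=
  ⟨f.contDiff, f.hasCompactSupport⟩

/-- uniformly scaled cutoffs -/
theorem exists_beta : ∃ K : ℝ, 0 ≤ K ∧ ∀ δ : ℝ, 0 < δ → δ ≤ 1 → ∃ β : E3 → ℝ, Test β ∧
    (∀ x, ‖x‖ ≤ δ → β x = 1) ∧ (∀ x, 2 * δ ≤ ‖x‖ → β x = 0) ∧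
    (∀ i x, |pd i β x| ≤ K * (δ ^ 2)⁻¹) ∧ (∀ i x, |pd i (pd i β) x| ≤ K * (δ ^ 2)⁻¹) := by
  let f : ContDiffBump (0 : E3) := ⟨1, 2, by norm_num, by norm_num⟩
  have hf : Test (fun x => f x) := cb_test f
  choose B1 hB10 hB1 using fun i => (hf.pd i).bdd
  choose B2 hB20 hB2 using fun i => ((hf.pd i).pd i).bdd
  refine ⟨(∑ i, B1 i) + ∑ i, B2 i, add_nonneg (Finset.sum_nonneg fun i _ => hB10 i)
    (Finset.sum_nonneg fun i _ => hB20 i), fun δ hδ hδ1 => ⟨fun x => f (δ⁻¹ • x), ?_, ?_, ?_, ?_,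
    ?_⟩⟩
  · exact hf.scale (inv_ne_zero hδ.ne')
  · intro x hx
    refine f.one_of_mem_closedBall ?_
    rw [Metric.mem_closedBall, dist_zero_right, norm_smul, norm_inv, Real.norm_of_nonneg hδ.le]
    change δ⁻¹ * ‖x‖ ≤ 1
    rw [inv_mul_le_iff₀ hδ]; simpa using hx
  · intro x hx
    refine f.zero_of_le_dist ?_
    rw [dist_zero_right, norm_smul, norm_inv, Real.norm_of_nonneg hδ.le]
    change 2 ≤ δ⁻¹ * ‖x‖
    rw [le_inv_mul_iff₀ hδ]; linarith
  · intro i x
    rw [pd_scale hf.diff]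
    simp only
    rw [abs_mul, abs_of_pos (inv_pos.2 hδ)]
    have h1 : δ⁻¹ ≤ (δ ^ 2)⁻¹ := by
      apply inv_anti₀ (by positivity)
      nlinarith
    have h2 : |pd i (fun x => f x) (δ⁻¹ • x)| ≤ (∑ i, B1 i) + ∑ i, B2 i :=
      (hB1 i _).trans ((Finset.single_le_sum (fun i _ => hB10 i) (Finset.mem_univ i)).trans
        (le_add_of_nonneg_right (Finset.sum_nonneg fun i _ => hB20 i)))
    calc _ ≤ (δ ^ 2)⁻¹ * ((∑ i, B1 i) + ∑ i, B2 i) := by gcongr
      _ = _ := mul_comm _ _
  · intro i x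
    have e : pd i (pd i fun x => f (δ⁻¹ • x)) x = (δ ^ 2)⁻¹ * pd i (pd i fun x => f x) (δ⁻¹ • x) := by
      rw [pd_scale hf.diff]
      have : (fun x => δ⁻¹ * pd i (fun x => f x) (δ⁻¹ • x)) =
          fun x => (fun _ : E3 => δ⁻¹) x * (fun x => pd i (fun x => f x) (δ⁻¹ • x)) x := rfl
      rw [this, pd_mul (by fun_prop) ((hf.pd i).scale (inv_ne_zero hδ.ne')).diff,
        pd_scale (hf.pd i).diff]
      have h0 : pd i (fun _ : E3 => δ⁻¹) x = 0 := by unfold pd; simp
      rw [h0]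
      simp only [zero_mul, zero_add]
      rw [← mul_assoc]
      congr 1
      rw [pow_two, mul_inv]
    rw [e, abs_mul, abs_of_pos (by positivity : 0 < (δ ^ 2)⁻¹)]
    have h2 : |pd i (pd i fun x => f x) (δ⁻¹ • x)| ≤ (∑ i, B1 i) + ∑ i, B2 i :=
      (hB2 i _).trans ((Finset.single_le_sum (fun i _ => hB20 i) (Finset.mem_univ i)).trans
        (le_add_of_nonneg_left (Finset.sum_nonneg fun i _ => hB10 i)))
    calc _ ≤ (δ ^ 2)⁻¹ * ((∑ i, B1 i) + ∑ i, B2 i) := by gcongr
      _ = _ := mul_comm _ _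

section hilbert

variable {H : Type} [NormedAddCommGroup H] [InnerProductSpace ℂ H] [CompleteSpace H]

theorem loc_origin {R : H →L[ℂ] H} {V : E3 → ℝ} {r0 A : ℝ} {c : ℝ≥0∞} (hc : CarFix R V r0 c)
    (hcf : c ≠ ∞) (hr0 : 0 < r0) (hr1 : r0 ≤ 1)
    (hA : 0 < A) (hcA : c * ENNReal.ofReal (A ^ 2) ≤ 1 / 2) (hVm : Measurable V)
    {χ ξ g : E3 → H} {D : Fin 3 → E3 → H} (hχ : MemLp χ 2) (hξ : MemLp ξ 2) (hg : MemLp g 2)
    (hD : ∀ i, MemLp (D i) 2) (hχξ : ∀ x, χ x = Rpow R (1 / 4) (ξ x)) (hw : WeakGrad χ D)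
    (hgA : ∀ x, ‖g x‖ ≤ A * ‖ξ x‖)
    (h1 : ∫⁻ x in Metric.closedBall (0 : E3) r0, ENNReal.ofReal (|V x| ^ (3 / 2 : ℝ)) < ∞)
    (h2 : ∫⁻ x, ENNReal.ofReal (|V x| * ‖χ x‖ ^ 2) < ∞) (he : HEq R V χ D g 0)
    (hinf : InfOrder χ D 0) {ε : ℝ} (hε : 0 < ε) :
    ∫⁻ x in {x : E3 | ε ≤ ‖x‖ ∧ ‖x‖ ≤ r0 / 4}, ENNReal.ofReal (‖ξ x‖ ^ 2) = 0 := by
  obtain ⟨K, hK0, hK⟩ := exists_beta
  let f : ContDiffBump (0 : E3) := ⟨r0 / 2, 3 * r0 / 4, by linarith, by linarith⟩
  have hb : Test (fun x => f x) := cb_test f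
  set b : E3 → ℝ := fun x => f x with hbdef
  have hb1 : ∀ x, ‖x‖ ≤ r0 / 2 → b x = 1 := fun x hx => by
    refine f.one_of_mem_closedBall ?_
    rw [Metric.mem_closedBall, dist_zero_right]; exact hx
  have hb0 : ∀ x, 3 * r0 / 4 ≤ ‖x‖ → b x = 0 := fun x hx => by
    refine f.zero_of_le_dist ?_
    rw [dist_zero_right]; exact hx
  set S : Set E3 := {x : E3 | ε ≤ ‖x‖ ∧ ‖x‖ ≤ r0 / 4} with hS
  have hSm : MeasurableSet S :=
    (measurableSet_le measurable_const measurable_norm).inter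
      (measurableSet_le measurable_norm measurable_const)
  set T := ∫⁻ x in S, ENNReal.ofReal (‖ξ x‖ ^ 2) with hT
  set Kb := ∫⁻ x, ENNReal.ofReal (‖com b χ D x‖ ^ 2) with hKb
  have hKbf : Kb ≠ ∞ := (lint_sq (com_memLp hb hχ hD)).ne
  -- the estimate for fixed `m`
  have key : ∀ m : ℕ, 1 ≤ m → T ≤ 4 * c * Kb * ENNReal.ofReal (2 ^ (-(2 * (m : ℝ) + 1 / 2))) := by
    intro m hm
    have hm0 : (0 : ℝ) ≤ m := Nat.cast_nonneg m
    set a : ℝ := 2 * (m : ℝ) + 1 / 2 with ha
    have ha0 : 0 < a := by positivity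
    obtain ⟨Ck, hCk⟩ := hinf (2 * m + 5)
    set P := ENNReal.ofReal ((r0 / 4) ^ (-a)) with hP
    set Q : ℝ := 21 * K ^ 2 * |Ck| * 2 ^ (2 * m + 5) with hQ
    have hQ0 : 0 ≤ Q := by positivity
    have step : ∀ δ : ℝ, 0 < δ → δ < min (ε / 2) (r0 / 8) → P * T ≤
        4 * c * (ENNReal.ofReal ((r0 / 2) ^ (-a)) * Kb + ENNReal.ofReal (Q * √δ)) := by
      intro δ hδ hδ2
      have hδε : 2 * δ < ε := by have := hδ2.trans_le (min_le_left _ _); linarith
      have hδr : 8 * δ < r0 := by have := hδ2.trans_le (min_le_right _ _); linarith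
      obtain ⟨β, hβ, hβ1, hβ0, hβa, hβb⟩ := hK δ hδ (by linarith)
      have hη : Test (fun x => b x - β x) := hb.sub hβ
      have h0 : ∀ x, (‖x‖ < δ ∨ r0 < ‖x‖) → b x - β x = 0 := by
        rintro x (hx | hx)
        · rw [hb1 x (by linarith), hβ1 x hx.le, sub_self]
        · rw [hb0 x (by linarith), hβ0 x (by linarith), sub_self]
      have main := cut_ineq hc hA hcA hVm hχ hξ hg hD hχξ hw hgA h1 h2 he hη hδ (by linarith) h0 hm
      have L : P * T ≤ ∫⁻ x, om2 m x * ENNReal.ofReal (‖(b x - β x) • ξ x‖ ^ 2) := by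
        rw [hP, hT, ← lintegral_const_mul' _ _ (by simp), ← lintegral_indicator hSm]
        refine lintegral_mono fun x => ?_
        by_cases hx : x ∈ S
        · rw [indicator_of_mem hx, hb1 x (by have := hx.2; linarith),
            hβ0 x (by have := hx.1; linarith), sub_zero, one_smul]
          gcongr
          exact om2_ge (lt_of_lt_of_le hε hx.1) hx.2
        · rw [indicator_of_notMem hx]; exact zero_le
      have hcb0 : ∀ x, ‖x‖ < r0 / 2 → com b χ D x = 0 := by
        intro x hx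
        have hU : IsOpen {x : E3 | ‖x‖ < r0 / 2} := isOpen_lt continuous_norm continuous_const
        have q1 : ∀ y ∈ {x : E3 | ‖x‖ < r0 / 2}, ∀ i, pd i b y = 0 := fun y hy i =>
          pd_zero_of hU (fun z hz => hb1 z (le_of_lt hz)) hy i
        have q2 : ∀ i, pd i (pd i b) x = 0 := fun i => pd_zero_of hU (fun z hz => q1 z hz i) hx i
        unfold com
        simp only [q1 x hx, q2, zero_smul, Finset.sum_const_zero, smul_zero, neg_zero, sub_zero]
      have hcβ0 : ∀ x, (‖x‖ < δ ∨ 2 * δ < ‖x‖) → com β χ D x = 0 := by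
        intro x hx
        have hU1 : IsOpen {x : E3 | ‖x‖ < δ} := isOpen_lt continuous_norm continuous_const
        have hU2 : IsOpen {x : E3 | 2 * δ < ‖x‖} := isOpen_lt continuous_const continuous_norm
        have q : (∀ i, pd i β x = 0) ∧ ∀ i, pd i (pd i β) x = 0 := by
          rcases hx with hx | hx
          · have q1 : ∀ y ∈ {x : E3 | ‖x‖ < δ}, ∀ i, pd i β y = 0 := fun y hy i =>
              pd_zero_of hU1 (fun z hz => hβ1 z (le_of_lt hz)) hy i
            exact ⟨q1 x hx, fun i => pd_zero_of hU1 (fun z hz => q1 z hz i) hx i⟩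
          · have q1 : ∀ y ∈ {x : E3 | 2 * δ < ‖x‖}, ∀ i, pd i β y = 0 := fun y hy i =>
              pd_zero_of hU2 (fun z hz => hβ0 z (le_of_lt hz)) hy i
            exact ⟨q1 x hx, fun i => pd_zero_of hU2 (fun z hz => q1 z hz i) hx i⟩
        unfold com
        simp only [q.1, q.2, zero_smul, Finset.sum_const_zero, smul_zero, neg_zero, sub_zero]
      have J1 : ∫⁻ x, om2 m x * ENNReal.ofReal (‖com b χ D x‖ ^ 2) ≤
          ENNReal.ofReal ((r0 / 2) ^ (-a)) * Kb := by
        rw [hKb, ← lintegral_const_mul' _ _ (by simp)]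
        refine lintegral_mono fun x => ?_
        by_cases hx : ‖x‖ < r0 / 2
        · rw [hcb0 x hx]; simp
        · gcongr
          exact om2_le (by linarith) (not_lt.1 hx)
      have J2 : ∫⁻ x, om2 m x * ENNReal.ofReal (‖com β χ D x‖ ^ 2) ≤ ENNReal.ofReal (Q * √δ) := by
        have hball := hCk (2 * δ) (by linarith) (by linarith)
        have hBm : MeasurableSet (Metric.closedBall (0 : E3) (2 * δ)) :=
          Metric.isClosed_closedBall.measurableSet
        calc ∫⁻ x, om2 m x * ENNReal.ofReal (‖com β χ D x‖ ^ 2)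
            ≤ ∫⁻ x, (Metric.closedBall (0 : E3) (2 * δ)).indicator (fun x =>
                ENNReal.ofReal (δ ^ (-a) * (21 * (K * (δ ^ 2)⁻¹) ^ 2)) *
                  ENNReal.ofReal (‖χ x‖ ^ 2 + ∑ i, ‖D i x‖ ^ 2)) x := by
              refine lintegral_mono fun x => ?_
              by_cases hx : ‖x‖ < δ ∨ 2 * δ < ‖x‖
              · rw [hcβ0 x hx]; simp
              · push Not at hx
                rw [indicator_of_mem (by rw [Metric.mem_closedBall, dist_zero_right]; exact hx.2),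
                  ← ENNReal.ofReal_mul (by positivity)]
                calc om2 m x * ENNReal.ofReal (‖com β χ D x‖ ^ 2)
                    ≤ ENNReal.ofReal (δ ^ (-a)) * ENNReal.ofReal (21 * (K * (δ ^ 2)⁻¹) ^ 2 *
                      (‖χ x‖ ^ 2 + ∑ i, ‖D i x‖ ^ 2)) := by
                      gcongr
                      · exact om2_le hδ hx.1
                      · exact com_bound (by positivity) (fun i => hβa i x) (fun i => hβb i x)
                  _ = _ := by
                      rw [← ENNReal.ofReal_mul (by positivity)]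
                      congr 1
                      ring
          _ = ENNReal.ofReal (δ ^ (-a) * (21 * (K * (δ ^ 2)⁻¹) ^ 2)) *
                ∫⁻ x in Metric.closedBall (0 : E3) (2 * δ),
                  ENNReal.ofReal (‖χ x‖ ^ 2 + ∑ i, ‖D i x‖ ^ 2) := by
              rw [lintegral_indicator hBm, lintegral_const_mul' _ _ (by simp)]
          _ ≤ ENNReal.ofReal (δ ^ (-a) * (21 * (K * (δ ^ 2)⁻¹) ^ 2)) *
                ENNReal.ofReal (|Ck| * (2 * δ) ^ (2 * m + 5)) := by
              gcongr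
              refine hball.trans (ENNReal.ofReal_le_ofReal ?_)
              gcongr
              exact le_abs_self _
          _ = ENNReal.ofReal (Q * √δ) := by
              rw [← ENNReal.ofReal_mul (by positivity)]
              congr 1
              rw [hQ, Real.sqrt_eq_rpow]
              have e1 : (δ : ℝ) ^ (-a) * ((δ ^ 2)⁻¹ ^ 2 * δ ^ (2 * m + 5)) = δ ^ (1 / 2 : ℝ) := by
                have : (δ ^ 2)⁻¹ ^ 2 * δ ^ (2 * m + 5) = δ ^ (((2 * m + 1 : ℕ) : ℝ)) := by
                  rw [Real.rpow_natCast]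
                  have h5 : δ ^ (2 * m + 5) = δ ^ (2 * m + 1) * δ ^ 4 := by rw [← pow_add]
                  rw [h5]
                  field_simp
                rw [this, ← Real.rpow_add hδ]
                congr 1
                rw [ha]; push_cast; ring
              calc _ = 21 * K ^ 2 * |Ck| * 2 ^ (2 * m + 5) *
                    (δ ^ (-a) * ((δ ^ 2)⁻¹ ^ 2 * δ ^ (2 * m + 5))) := by
                    rw [mul_pow, mul_pow]; ring
                _ = _ := by rw [e1]
      have J3 : ∫⁻ x, om2 m x * ENNReal.ofReal (‖com (fun x => b x - β x) χ D x‖ ^ 2) ≤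
          2 * (∫⁻ x, om2 m x * ENNReal.ofReal (‖com b χ D x‖ ^ 2)) +
          2 * ∫⁻ x, om2 m x * ENNReal.ofReal (‖com β χ D x‖ ^ 2) := by
        rw [← lintegral_const_mul' _ _ (by norm_num), ← lintegral_const_mul' _ _ (by norm_num),
          ← lintegral_add_right']
        · refine lintegral_mono fun x => ?_
          rw [com_sub hb hβ, mul_left_comm, mul_left_comm 2, ← mul_add]
          gcongr
          have e2 : (2 : ℝ≥0∞) = ENNReal.ofReal 2 := by norm_num
          rw [e2, ← ENNReal.ofReal_mul (by norm_num), ← ENNReal.ofReal_mul (by norm_num),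
            ← ENNReal.ofReal_add (by positivity) (by positivity)]
          refine ENNReal.ofReal_le_ofReal ?_
          have := norm_sub_le (com b χ D x) (com β χ D x)
          have h5 : 0 ≤ ‖com b χ D x - com β χ D x‖ := norm_nonneg _
          nlinarith [sq_nonneg (‖com b χ D x‖ - ‖com β χ D x‖)]
        · exact (((om2_meas m).aemeasurable.mul
            (((com_memLp hβ hχ hD).1.norm.aemeasurable.pow_const 2).ennreal_ofReal))).const_mul _
      calc P * T ≤ _ := L
        _ ≤ _ := main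
        _ ≤ 2 * c * (2 * (ENNReal.ofReal ((r0 / 2) ^ (-a)) * Kb) + 2 * ENNReal.ofReal (Q * √δ)) := by
            gcongr
            exact J3.trans (by gcongr)
        _ = _ := by ring
    -- limit δ → 0
    have lim1 : P * T ≤ 4 * c * (ENNReal.ofReal ((r0 / 2) ^ (-a)) * Kb) := by
      have ht : Tendsto (fun δ : ℝ => 4 * c * (ENNReal.ofReal ((r0 / 2) ^ (-a)) * Kb +
          ENNReal.ofReal (Q * √δ))) (𝓝[>] 0)
          (𝓝 (4 * c * (ENNReal.ofReal ((r0 / 2) ^ (-a)) * Kb + ENNReal.ofReal (Q * √0)))) := by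
        refine Tendsto.mono_left ?_ nhdsWithin_le_nhds
        refine ENNReal.Tendsto.const_mul ?_ (Or.inr (ENNReal.mul_ne_top (by norm_num) hcf))
        refine tendsto_const_nhds.add ?_
        exact ENNReal.tendsto_ofReal
          ((continuous_const.mul Real.continuous_sqrt).tendsto (0 : ℝ))
      have := ge_of_tendsto ht (by
        have : Ioo (0 : ℝ) (min (ε / 2) (r0 / 8)) ∈ 𝓝[>] (0 : ℝ) :=
          Ioo_mem_nhdsGT (lt_min (by linarith) (by linarith))
        filter_upwards [this] with δ hδ using step δ hδ.1 hδ.2)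
      simpa using this
    have e3 : (r0 / 2) ^ (-a) = (r0 / 4) ^ (-a) * 2 ^ (-a) := by
      rw [← Real.mul_rpow (by positivity) (by norm_num)]
      congr 1
      ring
    rw [e3, ENNReal.ofReal_mul (by positivity)] at lim1
    have hP0 : P ≠ 0 := by
      rw [hP, Ne, ENNReal.ofReal_eq_zero, not_le]
      positivity
    have hPf : P ≠ ∞ := ENNReal.ofReal_ne_top
    have lim2 : P * T ≤ P * (4 * c * Kb * ENNReal.ofReal (2 ^ (-a))) := by
      refine lim1.trans (le_of_eq ?_)
      rw [← hP]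
      ring
    exact (ENNReal.mul_le_mul_iff_right hP0 hPf).1 lim2
  have ht : Tendsto (fun m : ℕ => 4 * c * Kb * ENNReal.ofReal (2 ^ (-(2 * (m : ℝ) + 1 / 2))))
      atTop (𝓝 (4 * c * Kb * ENNReal.ofReal 0)) := by
    refine ENNReal.Tendsto.const_mul ?_
      (Or.inr (ENNReal.mul_ne_top (ENNReal.mul_ne_top (by norm_num) hcf) hKbf))
    refine ENNReal.tendsto_ofReal ?_
    have h3 : Tendsto (fun m : ℕ => -(2 * (m : ℝ) + 1 / 2)) atTop atBot := by
      refine tendsto_neg_atTop_atBot.comp ?_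
      exact tendsto_atTop_add_const_right _ _
        (Tendsto.const_mul_atTop (by norm_num) tendsto_natCast_atTop_atTop)
    exact (tendsto_rpow_atBot_of_base_gt_one 2 (by norm_num)).comp h3
  have h4 : T ≤ 4 * c * Kb * ENNReal.ofReal 0 :=
    ge_of_tendsto ht (by filter_upwards [eventually_ge_atTop 1] with m hm using key m hm)
  simpa using h4

end hilbert

end Pool.Agent.H998.HK
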