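import Pool.Agent.H998.HK.Spec4
import Pool.Agent.H238.HK.Var

/-!
# Hohenberg-Kohn in `L^{3/2} + L^∞` : task SEQ (helper998)
-/

set_option autoImplicit false

noncomputable section

namespace Pool.Agent.H998.HK

open MeasureTheory Filter Topology Set
open scoped ENNReal NNReal
open Pool.Agent.H238.HK

/-- a weight tending to infinity which is integrable against `ρ` -/
theorem exists_weight {ρ : E3 → ℝ} (hρ : Integrable ρ) : ∃ W : E3 → ℝ≥0∞, Measurable W ∧
    ∫⁻ x, W x * ENNReal.ofReal (ρ x) ≤ 2 ∧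
    ∀ t : ℕ, ∃ R : ℝ, ∀ x : E3, R < ‖x‖ → (t : ℝ≥0∞) ≤ W x := by
  have h1 : ∀ k : ℕ, ∃ R : ℝ, ∫⁻ x in {x : E3 | R < ‖x‖}, ENNReal.ofReal (ρ x) ≤
      (2⁻¹ : ℝ≥0∞) ^ k := by
    intro k
    have hfin : ∫⁻ x, ENNReal.ofReal (ρ x) ≠ ∞ := by
      refine ne_of_lt (lt_of_le_of_lt (lintegral_mono fun x => ?_) hρ.2)
      rw [← ofReal_norm]
      exact ENNReal.ofReal_le_ofReal (le_abs_self _)
    have h2 : Tendsto (fun m : ℕ => ∫⁻ x in {x : E3 | (m : ℝ) < ‖x‖}, ENNReal.ofReal (ρ x)) atTop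
        (𝓝 0) := by
      have hmeas : ∀ m : ℕ, MeasurableSet {x : E3 | (m : ℝ) < ‖x‖} := fun m =>
        measurableSet_lt measurable_const measurable_norm
      have h3 : Tendsto (fun m : ℕ => (volume : Measure E3).withDensity
          (fun x => ENNReal.ofReal (ρ x)) {x : E3 | (m : ℝ) < ‖x‖}) atTop
          (𝓝 ((volume : Measure E3).withDensity (fun x => ENNReal.ofReal (ρ x))
            (⋂ m : ℕ, {x : E3 | (m : ℝ) < ‖x‖}))) := by
        refine tendsto_measure_iInter_atTop (fun m => (hmeas m).nullMeasurableSet) ?_ ⟨0, ?_⟩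
        · intro a b hab x hx
          simp only [mem_ofPred_eq] at hx ⊢
          exact lt_of_le_of_lt (Nat.cast_le.2 hab) hx
        · rw [withDensity_apply _ (hmeas 0)]
          exact ne_of_lt (lt_of_le_of_lt (setLIntegral_le_lintegral _ _) (lt_top_iff_ne_top.2 hfin))
      have h4 : (⋂ m : ℕ, {x : E3 | (m : ℝ) < ‖x‖}) = ∅ := by
        ext x
        simp only [mem_iInter, mem_ofPred_eq, mem_empty_iff_false, iff_false, not_forall, not_lt]
        exact exists_nat_ge ‖x‖
      rw [h4, measure_empty] at h3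
      refine h3.congr fun m => ?_
      rw [withDensity_apply _ (hmeas m)]
    have h5 : ∀ᶠ m : ℕ in atTop, ∫⁻ x in {x : E3 | (m : ℝ) < ‖x‖}, ENNReal.ofReal (ρ x) <
        (2⁻¹ : ℝ≥0∞) ^ k :=
      h2.eventually (gt_mem_nhds (by simp [pos_iff_ne_zero]))
    obtain ⟨m, hm⟩ := h5.exists
    exact ⟨m, hm.le⟩
  choose R hR using h1
  have hmeas : ∀ k : ℕ, MeasurableSet {x : E3 | R k < ‖x‖} := fun k =>
    measurableSet_lt measurable_const measurable_norm
  refine ⟨fun x => ∑' k, {x : E3 | R k < ‖x‖}.indicator (fun _ => (1 : ℝ≥0∞)) x, ?_, ?_, ?_⟩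
  · exact Measurable.ennreal_tsum fun k => measurable_const.indicator (hmeas k)
  · have hae : AEMeasurable (fun x => ENNReal.ofReal (ρ x)) volume :=
      hρ.1.aemeasurable.ennreal_ofReal
    calc ∫⁻ x, (∑' k, {x : E3 | R k < ‖x‖}.indicator (fun _ => (1 : ℝ≥0∞)) x) *
          ENNReal.ofReal (ρ x)
        = ∫⁻ x, ∑' k, ({x : E3 | R k < ‖x‖}.indicator (fun _ => (1 : ℝ≥0∞)) x *
          ENNReal.ofReal (ρ x)) := by simp only [ENNReal.tsum_mul_right]
      _ = ∑' k, ∫⁻ x, ({x : E3 | R k < ‖x‖}.indicator (fun _ => (1 : ℝ≥0∞)) x *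
          ENNReal.ofReal (ρ x)) := by
          refine lintegral_tsum fun k => ?_
          exact (measurable_const.indicator (hmeas k)).aemeasurable.mul hae
      _ = ∑' k, ∫⁻ x in {x : E3 | R k < ‖x‖}, ENNReal.ofReal (ρ x) := by
          refine tsum_congr fun k => ?_
          rw [← lintegral_indicator (hmeas k)]
          refine lintegral_congr fun x => ?_
          by_cases hx : x ∈ {x : E3 | R k < ‖x‖} <;> simp [hx]
      _ ≤ ∑' k, (2⁻¹ : ℝ≥0∞) ^ k := ENNReal.tsum_le_tsum hR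
      _ = 2 := by
          rw [ENNReal.tsum_geometric, ENNReal.one_sub_inv_two, inv_inv]
  · intro t
    have : ∃ R' : ℝ, ∀ k < t, R k ≤ R' := by
      induction t with
      | zero => exact ⟨0, by simp⟩
      | succ t ih =>
        obtain ⟨R', h⟩ := ih
        refine ⟨max R' (R t), fun k hk => ?_⟩
        rcases Nat.lt_succ_iff_lt_or_eq.1 hk with h1 | h1
        · exact (h k h1).trans (le_max_left _ _)
        · rw [h1]; exact le_max_right _ _
    obtain ⟨R', hR'⟩ := this
    refine ⟨R', fun x hx => ?_⟩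
    calc (t : ℝ≥0∞) = ∑ k ∈ Finset.range t,
          {x : E3 | R k < ‖x‖}.indicator (fun _ => (1 : ℝ≥0∞)) x := by
          rw [Finset.sum_congr rfl (g := fun _ => (1 : ℝ≥0∞))]
          · simp
          · intro k hk
            have : R k < ‖x‖ := lt_of_le_of_lt (hR' k (Finset.mem_range.1 hk)) hx
            simp [this]
      _ ≤ _ := ENNReal.sum_le_tsum _

theorem XStar_zero : XStar (fun _ => (0 : ℝ)) :=
  ⟨fun _ => 0, fun _ => 0, MemLp.zero', MemLp.zero', fun _ => by simp⟩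

theorem Pv_zero (n : ℕ) (Ψ : Wave (n + 1)) : Pv n (fun _ => (0 : ℝ)) Ψ = 0 := by
  unfold Pv
  simp

theorem t_SEQ (hW : S_WFB) : S_SEQ := by
  intro n v₁ v₂ h1 h2 ρ hρ H
  obtain ⟨C₀, _, hf0⟩ := fb_of hW n _ XStar_zero
  obtain ⟨C₁, _, hf1⟩ := fb_of hW n v₁ h1
  obtain ⟨C₂, _, hf2⟩ := fb_of hW n v₂ h2
  obtain ⟨W, hWm, hWρ, hWinf⟩ := exists_weight hρ
  have key : ∀ m : ℕ, ∃ (Ψ : Wave (n + 1)) (G : Gr n), (IsWave (n + 1) Ψ G ∧
      normSq (n + 1) Ψ = 1) ∧ (energy (n + 1) v₁ Ψ G - E0 n v₁) +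
        (energy (n + 1) v₂ Ψ G - E0 n v₂) ≤ 6 * ((m : ℝ) + 1)⁻¹ ∧
      ∫⁻ x, W x * ENNReal.ofReal (dens n Ψ x) ≤ 6 := by
    intro m
    set ε : ℝ := ((m : ℝ) + 1)⁻¹ with hε
    have hε0 : 0 < ε := by positivity
    obtain ⟨e, p, Ψ, G, ⟨hp, hp1, hΨ, he, hd⟩, he1, he2⟩ := H ε hε0
    have hE : ∀ (v : E3 → ℝ) (C : ℝ), FB n v C →
        HasSum (fun k => p k * energy (n + 1) v (Ψ k) (G k)) (e + ∫ x, v x * ρ x) := by
      intro v C hf
      have s := he.add (sum_Pw hf0 hf ρ p Ψ G hp hp1 hΨ he.summable hd)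
      have e3 : (fun k => p k * energy (n + 1) v (Ψ k) (G k)) = fun k =>
          p k * energy (n + 1) (fun _ => 0) (Ψ k) (G k) + p k * Pv n v (Ψ k) := by
        funext k
        rw [energy_eq n v (Ψ k) (G k) (hf _ _ (hΨ k).1).1,
          energy_eq n _ (Ψ k) (G k) (hf0 _ _ (hΨ k).1).1, Pv_zero]
        ring
      rwa [e3]
    set a : ℕ → ℝ := fun k => (energy (n + 1) v₁ (Ψ k) (G k) - E0 n v₁) +
      (energy (n + 1) v₂ (Ψ k) (G k) - E0 n v₂) with ha
    have ha0 : ∀ k, 0 ≤ a k := fun k => by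
      have b1 := E0_le hf1 (Ψ k) (G k) (hΨ k).1 (hΨ k).2
      have b2 := E0_le hf2 (Ψ k) (G k) (hΨ k).1 (hΨ k).2
      simp only [ha]; linarith
    have hsa : HasSum (fun k => p k * a k) ((e + ∫ x, v₁ x * ρ x) - E0 n v₁ +
        ((e + ∫ x, v₂ x * ρ x) - E0 n v₂)) := by
      have s := ((hE v₁ C₁ hf1).sub (hp1.mul_right (E0 n v₁))).add
        ((hE v₂ C₂ hf2).sub (hp1.mul_right (E0 n v₂)))
      rw [one_mul, one_mul] at s
      have e3 : (fun k => p k * a k) = fun k =>
          p k * energy (n + 1) v₁ (Ψ k) (G k) - p k * E0 n v₁ +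
          (p k * energy (n + 1) v₂ (Ψ k) (G k) - p k * E0 n v₂) := by
        funext k
        simp only [ha]; ring
      rwa [e3]
    have hA : ∑' k, ENNReal.ofReal (p k) * ENNReal.ofReal (a k) ≤ ENNReal.ofReal (2 * ε) := by
      have : ∀ k, ENNReal.ofReal (p k) * ENNReal.ofReal (a k) = ENNReal.ofReal (p k * a k) :=
        fun k => (ENNReal.ofReal_mul (hp k)).symm
      simp only [this]
      rw [← ENNReal.ofReal_tsum_of_nonneg (fun k => mul_nonneg (hp k) (ha0 k)) hsa.summable,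
        hsa.tsum_eq]
      exact ENNReal.ofReal_le_ofReal (by linarith)
    set B : ℕ → ℝ≥0∞ := fun k => ∫⁻ x, W x * ENNReal.ofReal (dens n (Ψ k) x) with hB
    have hdm : ∀ k, AEMeasurable (fun x => dens n (Ψ k) x) volume := by
      intro k
      have hi := (Pv_dens n (fun _ => 1) (Ψ k) (G k) (hΨ k).1 (fun s j => by
        simpa using ((hΨ k).1.memLp s).integrable_norm_pow (by norm_num))).1
      simpa using hi.1.aemeasurable
    have hBs : ∑' k, ENNReal.ofReal (p k) * B k ≤ 2 := by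
      calc ∑' k, ENNReal.ofReal (p k) * B k
          = ∑' k, ∫⁻ x, ENNReal.ofReal (p k) * (W x * ENNReal.ofReal (dens n (Ψ k) x)) := by
            refine tsum_congr fun k => ?_
            exact (lintegral_const_mul' _ _ ENNReal.ofReal_ne_top).symm
        _ = ∫⁻ x, ∑' k, ENNReal.ofReal (p k) * (W x * ENNReal.ofReal (dens n (Ψ k) x)) := by
            rw [lintegral_tsum fun k => ?_]
            exact (hWm.aemeasurable.mul (hdm k).ennreal_ofReal).const_mul _
        _ = ∫⁻ x, W x * ENNReal.ofReal (ρ x) := by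
            refine lintegral_congr_ae ?_
            filter_upwards [hd] with x hx
            have e4 : ∀ k, ENNReal.ofReal (p k) * (W x * ENNReal.ofReal (dens n (Ψ k) x)) =
                W x * ENNReal.ofReal (p k * dens n (Ψ k) x) := by
              intro k
              rw [ENNReal.ofReal_mul (hp k)]; ring
            simp only [e4]
            rw [ENNReal.tsum_mul_left, ← ENNReal.ofReal_tsum_of_nonneg
              (fun k => mul_nonneg (hp k) (dens_nonneg n _ _)) hx.summable, hx.tsum_eq]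
        _ ≤ 2 := hWρ
    have hex : ∃ k, ENNReal.ofReal (a k) / ENNReal.ofReal (2 * ε) + B k / 2 < 3 := by
      by_contra hcon
      push Not at hcon
      have h3 : (3 : ℝ≥0∞) ≤ 2 := by
        calc (3 : ℝ≥0∞) = ∑' k, ENNReal.ofReal (p k) * 3 := by
              rw [ENNReal.tsum_mul_right, ← ENNReal.ofReal_tsum_of_nonneg hp hp1.summable,
                hp1.tsum_eq]
              simp
          _ ≤ ∑' k, ENNReal.ofReal (p k) *
                (ENNReal.ofReal (a k) / ENNReal.ofReal (2 * ε) + B k / 2) :=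
              ENNReal.tsum_le_tsum fun k => mul_le_mul' le_rfl (hcon k)
          _ = (∑' k, ENNReal.ofReal (p k) * ENNReal.ofReal (a k)) / ENNReal.ofReal (2 * ε) +
                (∑' k, ENNReal.ofReal (p k) * B k) / 2 := by
              rw [div_eq_mul_inv, div_eq_mul_inv, ← ENNReal.tsum_mul_right,
                ← ENNReal.tsum_mul_right, ← ENNReal.tsum_add]
              refine tsum_congr fun k => ?_
              rw [div_eq_mul_inv, div_eq_mul_inv]
              ring
          _ ≤ ENNReal.ofReal (2 * ε) / ENNReal.ofReal (2 * ε) + 2 / 2 :=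
              add_le_add (ENNReal.div_le_div_right hA _) (ENNReal.div_le_div_right hBs _)
          _ = 2 := by
              rw [ENNReal.div_self (by simpa using hε0) ENNReal.ofReal_ne_top,
                ENNReal.div_self (by norm_num) (by norm_num)]
              norm_num
      norm_num at h3
    obtain ⟨k, hk⟩ := hex
    refine ⟨Ψ k, G k, hΨ k, ?_, ?_⟩
    · have h3 : ENNReal.ofReal (a k) / ENNReal.ofReal (2 * ε) ≤ 3 :=
        (le_self_add.trans hk.le)
      have h4 : ENNReal.ofReal (a k) ≤ 3 * ENNReal.ofReal (2 * ε) := by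
        refine (ENNReal.div_le_iff (by simpa using hε0) ENNReal.ofReal_ne_top).1 h3
      have h5 : ENNReal.ofReal (a k) ≤ ENNReal.ofReal (6 * ε) := by
        refine h4.trans (le_of_eq ?_)
        rw [show (3 : ℝ≥0∞) = ENNReal.ofReal 3 by simp, ← ENNReal.ofReal_mul (by norm_num)]
        congr 1; ring
      exact (ENNReal.ofReal_le_ofReal_iff (by positivity)).1 h5
    · have h3 : B k / 2 ≤ 3 := (le_add_self.trans hk.le)
      have h4 : B k ≤ 3 * 2 := (ENNReal.div_le_iff (by norm_num) (by norm_num)).1 h3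
      refine h4.trans (le_of_eq (by norm_num))
  choose Ψ G hΨ hen hB using key
  have hlim : Tendsto (fun m : ℕ => 6 * ((m : ℝ) + 1)⁻¹) atTop (𝓝 0) := by
    have := (tendsto_one_div_add_atTop_nhds_zero_nat (𝕜 := ℝ)).const_mul 6
    simpa [one_div] using this
  refine ⟨Ψ, G, hΨ, ?_, ?_, ?_⟩
  · have h3 : ∀ m, E0 n v₁ ≤ energy (n + 1) v₁ (Ψ m) (G m) := fun m =>
      E0_le hf1 _ _ (hΨ m).1 (hΨ m).2
    have h4 : ∀ m, energy (n + 1) v₁ (Ψ m) (G m) ≤ E0 n v₁ + 6 * ((m : ℝ) + 1)⁻¹ := fun m => by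
      have := E0_le hf2 _ _ (hΨ m).1 (hΨ m).2
      have := hen m
      linarith
    refine tendsto_of_tendsto_of_tendsto_of_le_of_le tendsto_const_nhds ?_ h3 h4
    simpa using hlim.const_add (E0 n v₁)
  · have h3 : ∀ m, E0 n v₂ ≤ energy (n + 1) v₂ (Ψ m) (G m) := fun m =>
      E0_le hf2 _ _ (hΨ m).1 (hΨ m).2
    have h4 : ∀ m, energy (n + 1) v₂ (Ψ m) (G m) ≤ E0 n v₂ + 6 * ((m : ℝ) + 1)⁻¹ := fun m => by
      have := E0_le hf1 _ _ (hΨ m).1 (hΨ m).2
      have := hen m
      linarith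
    refine tendsto_of_tendsto_of_tendsto_of_le_of_le tendsto_const_nhds ?_ h3 h4
    simpa using hlim.const_add (E0 n v₂)
  · intro ε hε
    obtain ⟨t, ht⟩ := exists_nat_gt (6 / ε)
    have ht0 : (0 : ℝ) < t := lt_trans (by positivity) ht
    obtain ⟨R, hR⟩ := hWinf t
    refine ⟨R, fun k => ?_⟩
    have hms : MeasurableSet {x : E3 | R < ‖x‖} := measurableSet_lt measurable_const measurable_norm
    have h3 : (t : ℝ≥0∞) * ∫⁻ x in {x : E3 | R < ‖x‖}, ENNReal.ofReal (dens n (Ψ k) x) ≤ 6 := by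
      rw [← lintegral_const_mul' _ _ (by simp)]
      refine le_trans (le_trans (setLIntegral_mono' hms fun x hx => ?_)
        (setLIntegral_le_lintegral {x : E3 | R < ‖x‖} _)) (hB k)
      exact mul_le_mul' (hR x hx) le_rfl
    have h4 : ∫⁻ x in {x : E3 | R < ‖x‖}, ENNReal.ofReal (dens n (Ψ k) x) ≤
        ENNReal.ofReal (6 / t) := by
      rw [ENNReal.ofReal_div_of_pos ht0, ENNReal.ofReal_natCast]
      rw [ENNReal.le_div_iff_mul_le (Or.inl (by simpa using ht0.ne')) (Or.inl (by simp)), mul_comm]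
      simpa using h3
    have h5 : ∫ x in {x : E3 | R < ‖x‖}, dens n (Ψ k) x ≤ 6 / t := by
      by_cases hm : AEStronglyMeasurable (fun x => dens n (Ψ k) x)
        (volume.restrict {x : E3 | R < ‖x‖})
      · rw [integral_eq_lintegral_of_nonneg_ae
          (Eventually.of_forall fun x => dens_nonneg n _ x) hm]
        exact ENNReal.toReal_le_of_le_ofReal (by positivity) h4
      · rw [integral_non_aestronglyMeasurable hm]
        positivity
    refine h5.trans ?_
    rw [div_le_iff₀ ht0]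
    rw [div_lt_iff₀ hε] at ht
    linarith

end Pool.Agent.H998.HK
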