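import Pool.Agent.H998.HK.Spec

/-!
# Hohenberg-Kohn in `L^{3/2} + L^∞` : project specification, part 2 (helper998)

The many-body statements.
-/

set_option autoImplicit false

noncomputable section

namespace Pool.Agent.H998.HK

open MeasureTheory Filter Topology Set
open scoped ENNReal NNReal RealInnerProductSpace ComplexConjugate

/-! ### configuration space `ℝ³ × (ℝ³)ⁿ` -/

/-- the positions of the last `n` particles -/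
abbrev Yn (n : ℕ) : Type := Fin n → E3

/-- the configuration space of `n + 1` particles -/
abbrev Xn (n : ℕ) : Type := E3 × Yn n

/-- unit vectors -/
def ex (n : ℕ) (i : Fin 3) : Xn n := (EuclideanSpace.single i (1 : ℝ), 0)
def ey (n : ℕ) (j : Fin n) (i : Fin 3) : Xn n := (0, Pi.single j (EuclideanSpace.single i (1 : ℝ)))

/-- `g` is the weak derivative of `u` in the direction `e` -/
def WD {X : Type} [NormedAddCommGroup X] [NormedSpace ℝ X] [MeasureSpace X] (e : X)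
    (u g : X → ℂ) : Prop :=
  ∀ φ : X → ℝ, Test φ → ∫ z, fderiv ℝ φ z e • u z = -∫ z, φ z • g z

/-- `f ∈ H¹(ℝ³ × (ℝ³)ⁿ)`, with weak derivatives `Dx i`, `Dy j i` -/
structure H1 (n : ℕ) (f : Xn n → ℂ) (Dx : Fin 3 → Xn n → ℂ) (Dy : Fin n → Fin 3 → Xn n → ℂ) :
    Prop where
  f2 : MemLp f 2
  x2 : ∀ i, MemLp (Dx i) 2
  y2 : ∀ j i, MemLp (Dy j i) 2
  wx : ∀ i, WD (ex n i) f (Dx i)
  wy : ∀ j i, WD (ey n j i) f (Dy j i)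

/-- `v ∈ L^{3/2}(ℝ³) + L^∞(ℝ³)` -/
def XStar (v : E3 → ℝ) : Prop :=
  ∃ v₁ v₂ : E3 → ℝ, MemLp v₁ (3 / 2 : ℝ≥0∞) ∧ MemLp v₂ ∞ ∧ ∀ x, v x = v₁ x + v₂ x

/-- the potential `∑ v(xᵢ) + ∑_{i<j} 1/|xᵢ-xⱼ|` of `n + 1` electrons -/
def pot (n : ℕ) (v : E3 → ℝ) (z : Xn n) : ℝ :=
  v z.1 + ∑ j, v (z.2 j) + ∑ j, 1 / ‖z.1 - z.2 j‖ +
    ∑ j : Fin n, ∑ k : Fin n, if j < k then 1 / ‖z.2 j - z.2 k‖ else 0

/-- the integrand of the form `⟨g, (H - E) f⟩` -/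
def formInt (n : ℕ) (v : E3 → ℝ) (E : ℝ) (f : Xn n → ℂ) (Dx : Fin 3 → Xn n → ℂ)
    (Dy : Fin n → Fin 3 → Xn n → ℂ) (g : Xn n → ℂ) (Gx : Fin 3 → Xn n → ℂ)
    (Gy : Fin n → Fin 3 → Xn n → ℂ) (z : Xn n) : ℂ :=
  (1 / 2 : ℂ) * (∑ i, conj (Gx i z) * Dx i z + ∑ j, ∑ i, conj (Gy j i z) * Dy j i z) +
    ((pot n v z - E : ℝ) : ℂ) * (conj (g z) * f z)

/-- `f` is a weak solution of `H f = E f` -/
def WeakSol (n : ℕ) (v : E3 → ℝ) (E : ℝ) (f : Xn n → ℂ) (Dx : Fin 3 → Xn n → ℂ)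
    (Dy : Fin n → Fin 3 → Xn n → ℂ) : Prop :=
  ∀ (g : Xn n → ℂ) (Gx : Fin 3 → Xn n → ℂ) (Gy : Fin n → Fin 3 → Xn n → ℂ), H1 n g Gx Gy →
    ∫ z, formInt n v E f Dx Dy g Gx Gy z = 0

/-! ### Task FB: form bounds (Sobolev, Hardy) -/

/-- all integrands are integrable -/
def S_FB1 : Prop := ∀ (n : ℕ) (v : E3 → ℝ), XStar v → Measurable v →
  ∀ (f : Xn n → ℂ) (Dx : Fin 3 → Xn n → ℂ) (Dy : Fin n → Fin 3 → Xn n → ℂ), H1 n f Dx Dy →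
    Integrable fun z => |pot n v z| * ‖f z‖ ^ 2

/-! ### Task SPLIT -/

def S_SPLIT : Prop := ∀ (n : ℕ) (v : E3 → ℝ) (E : ℝ) (f : Xn n → ℂ) (Dx : Fin 3 → Xn n → ℂ)
  (Dy : Fin n → Fin 3 → Xn n → ℂ), XStar v → Measurable v → H1 n f Dx Dy →
  WeakSol n v E f Dx Dy → ∀ (w : E3 → ℝ) (c : ℝ), Measurable w →
  (∀ᵐ z : Xn n, f z ≠ 0 → w z.1 + ∑ j, w (z.2 j) = c) → ∀ t : ℝ,
  ∃ (Dx' : Fin 3 → Xn n → ℂ) (Dy' : Fin n → Fin 3 → Xn n → ℂ),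
    H1 n ({z : Xn n | w z.1 < t}.indicator f) Dx' Dy' ∧
    WeakSol n v E ({z : Xn n | w z.1 < t}.indicator f) Dx' Dy'

/-! ### Task UCP -/

def S_UCP : Prop := ∀ (n : ℕ) (v : E3 → ℝ) (E : ℝ) (f : Xn n → ℂ) (Dx : Fin 3 → Xn n → ℂ)
  (Dy : Fin n → Fin 3 → Xn n → ℂ), XStar v → Measurable v → H1 n f Dx Dy →
  WeakSol n v E f Dx Dy → ∀ B : Set E3, MeasurableSet B → volume B ≠ 0 →
  (∀ᵐ z : Xn n, z.1 ∈ B → f z = 0) → ∀ᵐ z : Xn n, f z = 0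

/-! ### Task CONC: translation of a weak solution into a Hilbert space valued function -/

/-- uniform local smallness of `V` in `L^{3/2}` -/
def UnifSmall (V : E3 → ℝ) : Prop := ∀ ε : ℝ, 0 < ε → ∃ r : ℝ, 0 < r ∧ ∀ x : E3,
  (∫⁻ y in Metric.closedBall x r, ENNReal.ofReal (|V y| ^ (3 / 2 : ℝ))) ^ (2 / 3 : ℝ) ≤
    ENNReal.ofReal ε

/-- `H = L²((ℝ³)ⁿ)` -/
abbrev Hn (n : ℕ) : Type := Lp ℂ 2 (volume : Measure (Yn n))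

/-- abstract data of an eigenfunction: `χ : ℝ³ → H` solves `-Δ(Rχ) + χ = R(Vχ) + R^{3/4} g`,
`χ = R^{1/4} ξ`, `‖g‖ ≤ A ‖ξ‖`, and the energy inequality holds -/
structure Sys {H : Type} [NormedAddCommGroup H] [InnerProductSpace ℂ H] [CompleteSpace H]
    (R : H →L[ℂ] H) (V : E3 → ℝ) (A : ℝ) (χ ξ g : E3 → H) (D : Fin 3 → E3 → H) : Prop where
  χ2 : MemLp χ 2
  ξ2 : MemLp ξ 2
  g2 : MemLp g 2
  D2 : ∀ i, MemLp (D i) 2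
  hχ : ∀ x, χ x = Rpow R (1 / 4) (ξ x)
  wg : WeakGrad χ D
  hg : ∀ x, ‖g x‖ ≤ A * ‖ξ x‖
  Vfin : ∫⁻ x, ENNReal.ofReal (|V x| * ‖χ x‖ ^ 2) < ∞
  eq : HEq R V χ D g 0
  energy : ∀ ζ : E3 → ℝ, Test ζ → ∫⁻ x, ENNReal.ofReal (ζ x ^ 2 * ∑ i, ‖D i x‖ ^ 2) ≤
    ENNReal.ofReal A * ∫⁻ x, ENNReal.ofReal
      ((∑ i, pd i ζ x ^ 2 + ζ x ^ 2 * (1 + |V x|)) * ‖χ x‖ ^ 2)

def S_CONC : Prop := ∀ (n : ℕ) (v : E3 → ℝ) (E : ℝ), XStar v → Measurable v →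
  ∃ (R : Hn n →L[ℂ] Hn n) (V : E3 → ℝ) (A : ℝ), GoodR R ∧ Measurable V ∧ UnifSmall V ∧ 0 < A ∧
  ∀ (f : Xn n → ℂ) (Dx : Fin 3 → Xn n → ℂ) (Dy : Fin n → Fin 3 → Xn n → ℂ), H1 n f Dx Dy →
    WeakSol n v E f Dx Dy → ∃ (χ ξ g : E3 → Hn n) (D : Fin 3 → E3 → Hn n),
      Sys R V A χ ξ g D ∧ ∀ᵐ x : E3, (χ x : Yn n → ℂ) =ᵐ[volume] fun y => f (x, y)

/-! ### Task DENS: vanishing to infinite order at density points -/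

/-- `χ` and `D` vanish to infinite order at `x₀` (in the `L²` sense) -/
def InfOrder {H : Type} [NormedAddCommGroup H] (χ : E3 → H) (D : Fin 3 → E3 → H) (x₀ : E3) :
    Prop :=
  ∀ k : ℕ, ∃ C : ℝ, ∀ r : ℝ, 0 < r → r ≤ 1 →
    ∫⁻ x in Metric.closedBall x₀ r, ENNReal.ofReal (‖χ x‖ ^ 2 + ∑ i, ‖D i x‖ ^ 2) ≤
      ENNReal.ofReal (C * r ^ k)

def S_DENS : Prop := ∀ (H : Type) [NormedAddCommGroup H] [InnerProductSpace ℂ H] [CompleteSpace H]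
  [TopologicalSpace.SeparableSpace H] (V : E3 → ℝ) (A : ℝ) (χ : E3 → H) (D : Fin 3 → E3 → H),
  Measurable V → UnifSmall V → 0 < A → MemLp χ 2 → (∀ i, MemLp (D i) 2) → WeakGrad χ D →
  (∀ ζ : E3 → ℝ, Test ζ → ∫⁻ x, ENNReal.ofReal (ζ x ^ 2 * ∑ i, ‖D i x‖ ^ 2) ≤
    ENNReal.ofReal A * ∫⁻ x, ENNReal.ofReal
      ((∑ i, pd i ζ x ^ 2 + ζ x ^ 2 * (1 + |V x|)) * ‖χ x‖ ^ 2)) →
  ∀ B : Set E3, MeasurableSet B → volume B ≠ 0 → (∀ᵐ x, x ∈ B → χ x = 0) →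
    ∃ x₀ : E3, InfOrder χ D x₀

/-! ### Task LOC: local unique continuation from Carleman -/

def S_LOC : Prop := ∀ (H : Type) [NormedAddCommGroup H] [InnerProductSpace ℂ H] [CompleteSpace H]
  [TopologicalSpace.SeparableSpace H] (R : H →L[ℂ] H) (V : E3 → ℝ) (A : ℝ), GoodR R →
  Measurable V → UnifSmall V → 0 < A → ∃ r₁ : ℝ, 0 < r₁ ∧
  ∀ (χ ξ g : E3 → H) (D : Fin 3 → E3 → H), Sys R V A χ ξ g D → ∀ x₀ : E3, InfOrder χ D x₀ →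
    ∀ᵐ x, x ∈ Metric.ball x₀ r₁ → χ x = 0

/-! ### The final statement -/

/-- spins -/
abbrev Spin (N : ℕ) : Type := Fin N → Fin 2

/-- wavefunctions of `N` spin-1/2 particles -/
abbrev Wave (N : ℕ) : Type := Spin N → (Fin N → E3) → ℂ

/-- unit vector in the coordinate `i` of the particle `j` -/
def ee (N : ℕ) (j : Fin N) (i : Fin 3) : Fin N → E3 :=
  Pi.single j (EuclideanSpace.single i (1 : ℝ))

/-- antisymmetric, of finite kinetic energy; `G s j i` are the weak derivatives -/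
structure IsWave (N : ℕ) (Ψ : Wave N) (G : Spin N → Fin N → Fin 3 → (Fin N → E3) → ℂ) :
    Prop where
  memLp : ∀ s, MemLp (Ψ s) 2
  gradMemLp : ∀ s j i, MemLp (G s j i) 2
  grad : ∀ s j i, WD (ee N j i) (Ψ s) (G s j i)
  antisymm : ∀ (π : Equiv.Perm (Fin N)) (s : Spin N), ∀ᵐ x : Fin N → E3,
    Ψ (s ∘ π) (x ∘ π) = (Equiv.Perm.sign π : ℂ) * Ψ s x

/-- `‖Ψ‖²` -/
def normSq (N : ℕ) (Ψ : Wave N) : ℝ := ∑ s, ∫ x, ‖Ψ s x‖ ^ 2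

/-- the quadratic form `⟨Ψ, H[v] Ψ⟩` -/
def energy (N : ℕ) (v : E3 → ℝ) (Ψ : Wave N) (G : Spin N → Fin N → Fin 3 → (Fin N → E3) → ℂ) :
    ℝ :=
  ∑ s, ((1 / 2 : ℝ) * (∑ j, ∑ i, ∫ x, ‖G s j i x‖ ^ 2) +
    ∫ x : Fin N → E3, (∑ j, v (x j) + ∑ j, ∑ k, if j < k then 1 / ‖x j - x k‖ else 0) *
      ‖Ψ s x‖ ^ 2)

end Pool.Agent.H998.HK
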