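import Pool.Agent.H998.HK.Spec3

/-!
# Hohenberg-Kohn in `L^{3/2} + L^∞` : project specification, part 4 (helper998)

The subdifferential form of the theorem: existence of a common ground state from
`-v₁, -v₂ ∈ ∂F[ρ]`.
-/

set_option autoImplicit false

noncomputable section

namespace Pool.Agent.H998.HK

open MeasureTheory Filter Topology Set
open scoped ENNReal NNReal RealInnerProductSpace ComplexConjugate ContDiff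

/-- Task REL: Rellich-Kolmogorov compactness of tight sequences bounded in `H¹((ℝ³)^N)` -/
def S_REL : Prop := ∀ (N : ℕ) (u : ℕ → (Fin N → E3) → ℂ)
  (D : ℕ → Fin N → Fin 3 → (Fin N → E3) → ℂ) (M : ℝ),
  (∀ k, MemLp (u k) 2) → (∀ k j i, MemLp (D k j i) 2) →
  (∀ k j i, WD (ee N j i) (u k) (D k j i)) →
  (∀ k, ∫ x, ‖u k x‖ ^ 2 ≤ M) → (∀ k j i, ∫ x, ‖D k j i x‖ ^ 2 ≤ M) →
  (∀ ε : ℝ, 0 < ε → ∃ R : ℝ, ∀ k, ∫ x in {x : Fin N → E3 | R < ‖x‖}, ‖u k x‖ ^ 2 ≤ ε) →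
  ∃ (φ : ℕ → ℕ) (w : (Fin N → E3) → ℂ), StrictMono φ ∧ MemLp w 2 ∧
    Tendsto (fun k => ∫ x, ‖u (φ k) x - w x‖ ^ 2) atTop (𝓝 0)

/-- Task EXI: there are normalized wavefunctions of finite kinetic energy -/
def S_EXI : Prop := ∀ n : ℕ, ∃ (Ψ : Wave (n + 1))
  (G : Spin (n + 1) → Fin (n + 1) → Fin 3 → (Fin (n + 1) → E3) → ℂ),
  IsWave (n + 1) Ψ G ∧ normSq (n + 1) Ψ = 1

/-- Task LTHREE: densities are in `L¹ ∩ L³` -/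
def S_L3 : Prop := ∀ (n : ℕ) (Ψ : Wave (n + 1))
  (G : Spin (n + 1) → Fin (n + 1) → Fin 3 → (Fin (n + 1) → E3) → ℂ),
  IsWave (n + 1) Ψ G → MemLp (dens n Ψ) 1 ∧ MemLp (dens n Ψ) 3 ∧
    ∫ x, dens n Ψ x = (n + 1 : ℝ) * normSq (n + 1) Ψ

/-- tightness of the densities -/
def TightD (n : ℕ) (Ψ : ℕ → Wave (n + 1)) : Prop :=
  ∀ ε : ℝ, 0 < ε → ∃ R : ℝ, ∀ k, ∫ x in {x : E3 | R < ‖x‖}, dens n (Ψ k) x ≤ ε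

/-- Task COMP: a tight common minimizing sequence gives a common ground state -/
def S_COMP : Prop := ∀ (n : ℕ) (v₁ v₂ : E3 → ℝ), XStar v₁ → XStar v₂ →
  ∀ (Ψ : ℕ → Wave (n + 1))
    (G : ℕ → Spin (n + 1) → Fin (n + 1) → Fin 3 → (Fin (n + 1) → E3) → ℂ),
  (∀ k, IsWave (n + 1) (Ψ k) (G k) ∧ normSq (n + 1) (Ψ k) = 1) →
  Tendsto (fun k => energy (n + 1) v₁ (Ψ k) (G k)) atTop (𝓝 (E0 n v₁)) →
  Tendsto (fun k => energy (n + 1) v₂ (Ψ k) (G k)) atTop (𝓝 (E0 n v₂)) → TightD n Ψ →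
  ∃ (Φ : Wave (n + 1)) (K : Spin (n + 1) → Fin (n + 1) → Fin 3 → (Fin (n + 1) → E3) → ℂ),
    IsWave (n + 1) Φ K ∧ normSq (n + 1) Φ = 1 ∧ energy (n + 1) v₁ Φ K = E0 n v₁ ∧
    energy (n + 1) v₂ Φ K = E0 n v₂

/-- `Γ = ∑ₖ pₖ |Ψₖ⟩⟨Ψₖ|` is a density operator with `Tr(H[v] Γ) = e` and density `ρ` -/
def IsDM (n : ℕ) (v : E3 → ℝ) (ρ : E3 → ℝ) (e : ℝ) (p : ℕ → ℝ) (Ψ : ℕ → Wave (n + 1))
    (G : ℕ → Spin (n + 1) → Fin (n + 1) → Fin 3 → (Fin (n + 1) → E3) → ℂ) : Prop :=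
  (∀ k, 0 ≤ p k) ∧ HasSum p 1 ∧
  (∀ k, IsWave (n + 1) (Ψ k) (G k) ∧ normSq (n + 1) (Ψ k) = 1) ∧
  HasSum (fun k => p k * energy (n + 1) v (Ψ k) (G k)) e ∧
  ∀ᵐ x, HasSum (fun k => p k * dens n (Ψ k) x) (ρ x)

/-- Task SEQ: averaging -/
def S_SEQ : Prop := ∀ (n : ℕ) (v₁ v₂ : E3 → ℝ), XStar v₁ → XStar v₂ → ∀ ρ : E3 → ℝ,
  Integrable ρ → (∀ ε : ℝ, 0 < ε → ∃ e p Ψ G, IsDM n (fun _ => 0) ρ e p Ψ G ∧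
    e + ∫ x, v₁ x * ρ x ≤ E0 n v₁ + ε ∧ e + ∫ x, v₂ x * ρ x ≤ E0 n v₂ + ε) →
  ∃ (Ψ : ℕ → Wave (n + 1))
    (G : ℕ → Spin (n + 1) → Fin (n + 1) → Fin 3 → (Fin (n + 1) → E3) → ℂ),
  (∀ k, IsWave (n + 1) (Ψ k) (G k) ∧ normSq (n + 1) (Ψ k) = 1) ∧
  Tendsto (fun k => energy (n + 1) v₁ (Ψ k) (G k)) atTop (𝓝 (E0 n v₁)) ∧
  Tendsto (fun k => energy (n + 1) v₂ (Ψ k) (G k)) atTop (𝓝 (E0 n v₂)) ∧ TightD n Ψ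

end Pool.Agent.H998.HK
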