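import Pool.Agent.H998.HK.Spec

set_option autoImplicit false

noncomputable section

namespace Pool.Agent.H998.HK

open MeasureTheory Filter Topology Set
open scoped ENNReal NNReal RealInnerProductSpace

theorem meas_iter (κ : ℝ) (n : ℕ) : Measurable (iteratedDeriv n (yukR κ)) := by
  cases n with
  | zero =>
    rw [iteratedDeriv_zero]
    unfold yukR
    fun_prop
  | succ n =>
    rw [iteratedDeriv_succ]
    exact measurable_deriv _

theorem meas_tc (κ : ℝ) (j : ℕ) : Measurable (fun p : E3 × E3 => tc κ j p.1 p.2) := by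
  unfold tc
  refine Finset.measurable_sum _ fun p _ => ?_
  have h1 : Measurable (fun q : E3 × E3 => iteratedDeriv (j - p) (yukR κ) (‖q.2‖ ^ 2)) :=
    (meas_iter κ (j - p)).comp (by fun_prop)
  have h2 : Measurable (fun q : E3 × E3 => (-2 * ⟪q.1, q.2⟫) ^ (j - 2 * p)) := by fun_prop
  have h3 : Measurable (fun q : E3 × E3 => (‖q.1‖ ^ 2) ^ p) := by fun_prop
  exact (((h1.div_const _).mul h3).mul h2)

theorem meas_yuk (κ : ℝ) : Measurable (yuk κ) := by
  unfold yuk yukR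
  fun_prop

theorem meas_Km (κ : ℝ) (m : ℕ) : Measurable (fun p : E3 × E3 => Km κ m p.1 p.2) := by
  unfold Km
  refine Measurable.sub ((meas_yuk κ).comp (by fun_prop)) ?_
  exact Finset.measurable_sum _ fun j _ => meas_tc κ j

theorem meas_wK (κ : ℝ) (m : ℕ) : Measurable (fun p : E3 × E3 => wK κ m p.1 p.2) := by
  unfold wK
  exact (meas_Km κ m).mul (by fun_prop)

theorem nrm_congr {p : ℝ} {f g : E3 → ℝ≥0∞} (h : f =ᵐ[volume] g) : nrm p f = nrm p g := by
  unfold nrm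
  congr 1
  exact lintegral_congr_ae (h.mono fun x hx => by simp only [hx])

theorem nrm_mono {p : ℝ} (hp : 0 ≤ p) {f g : E3 → ℝ≥0∞} (h : ∀ x, f x ≤ g x) :
    nrm p f ≤ nrm p g := by
  unfold nrm
  have : 0 ≤ 1 / p := by positivity
  gcongr with x
  exact h x

/-- bilinear estimates for a.e.-measurable functions -/
theorem bil_ae {r0 : ℝ} {k : E3 → E3 → ℝ≥0∞} {a b : ℝ} {c : ℝ≥0∞}
    (h : ∀ f g : E3 → ℝ≥0∞, Measurable f → Measurable g → (∀ x, r0 < ‖x‖ → f x = 0) →
      (∀ x, r0 < ‖x‖ → g x = 0) → ∫⁻ x, ∫⁻ y, f x * k x y * g y ≤ c * nrm a f * nrm b g)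
    {f g : E3 → ℝ≥0∞} (hf : AEMeasurable f) (hg : AEMeasurable g)
    (hf0 : ∀ x, r0 < ‖x‖ → f x = 0) (hg0 : ∀ x, r0 < ‖x‖ → g x = 0) :
    ∫⁻ x, ∫⁻ y, f x * k x y * g y ≤ c * nrm a f * nrm b g := by
  set B : Set E3 := {x | ‖x‖ ≤ r0} with hB
  have hBm : MeasurableSet B := measurableSet_le measurable_norm measurable_const
  set f' := B.indicator (hf.mk f) with hf'
  set g' := B.indicator (hg.mk g) with hg'
  have e1 : f =ᵐ[volume] f' := by
    filter_upwards [hf.ae_eq_mk] with x hx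
    by_cases hxB : x ∈ B
    · rw [hf', indicator_of_mem hxB, hx]
    · rw [hf', indicator_of_notMem hxB, hf0 x (by simpa [hB] using hxB)]
  have e2 : g =ᵐ[volume] g' := by
    filter_upwards [hg.ae_eq_mk] with x hx
    by_cases hxB : x ∈ B
    · rw [hg', indicator_of_mem hxB, hx]
    · rw [hg', indicator_of_notMem hxB, hg0 x (by simpa [hB] using hxB)]
  have h1 := h f' g' (hf.measurable_mk.indicator hBm) (hg.measurable_mk.indicator hBm)
    (fun x hx => indicator_of_notMem (by simpa [hB] using hx) _)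
    (fun x hx => indicator_of_notMem (by simpa [hB] using hx) _)
  rw [nrm_congr e1, nrm_congr e2]
  refine le_trans (le_of_eq ?_) h1
  refine lintegral_congr_ae (e1.mono fun x hx => ?_)
  simp only [hx]
  exact lintegral_congr_ae (e2.mono fun y hy => by simp only [hy])

/-- Hölder: `‖√|V| G‖_{6/5} ≤ ‖V‖_{3/2}^{1/2} ‖G‖₂` -/
theorem holder_V {V : E3 → ℝ≥0∞} {G : E3 → ℝ≥0∞} (hV : AEMeasurable V) (hG : AEMeasurable G) :
    nrm (6 / 5) (fun x => V x ^ (1 / 2 : ℝ) * G x) ≤ (nrm (3 / 2) V) ^ (1 / 2 : ℝ) * nrm 2 G := by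
  have h := ENNReal.lintegral_Lp_mul_le_Lq_mul_Lr (μ := (volume : Measure E3))
    (p := 6 / 5) (q := 3) (r := 2) (by norm_num) (by norm_num) (by norm_num)
    (f := fun x => V x ^ (1 / 2 : ℝ)) (g := G) (hV.pow_const _) hG
  have e : ∀ x, (V x ^ (1 / 2 : ℝ)) ^ (3 : ℝ) = V x ^ (3 / 2 : ℝ) := fun x => by
    rw [← ENNReal.rpow_mul]; norm_num
  simp only [e] at h
  unfold nrm
  refine le_trans h (le_of_eq ?_)
  rw [← ENNReal.rpow_mul]
  norm_num

end Pool.Agent.H998.HK
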