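import Pool.Agent.H998.HK.Star1

set_option autoImplicit false

noncomputable section

namespace Pool.Agent.H998.HK

open MeasureTheory Filter Topology Set
open scoped ENNReal NNReal RealInnerProductSpace

attribute [local irreducible] wK

theorem nrm2_eq {G : E3 → ℝ} (hG : MemLp G 2) :
    nrm 2 (fun x => ENNReal.ofReal |G x|) = ENNReal.ofReal √(∫ x, G x ^ 2) := by
  unfold nrm
  have h1 : ∀ x, ENNReal.ofReal |G x| ^ (2 : ℝ) = ENNReal.ofReal (G x ^ 2) := fun x => by
    rw [ENNReal.ofReal_rpow_of_nonneg (abs_nonneg _) (by norm_num)]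
    norm_num
  simp_rw [h1]
  rw [← ofReal_integral_eq_lintegral_ofReal hG.integrable_sq (ae_of_all _ fun x => sq_nonneg _),
    ENNReal.ofReal_rpow_of_nonneg (integral_nonneg fun x => sq_nonneg _) (by norm_num),
    Real.sqrt_eq_rpow]

/-- the lintegral bilinear form with a sum in the second slot -/
theorem absb {U P : E3 → ℝ} {k : E3 → E3 → ℝ} (x : E3) (h : U x = ∫ y, k x y * P y) (c : ℝ≥0∞)
    (hc : c ≠ ∞) :
    c * ENNReal.ofReal |U x| ≤ ∫⁻ y, c * ENNReal.ofReal |k x y| * ENNReal.ofReal |P y| := by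
  have h1 : ENNReal.ofReal |U x| ≤ ∫⁻ y, ENNReal.ofReal |k x y| * ENNReal.ofReal |P y| := by
    rw [h, ← Real.enorm_eq_ofReal_abs]
    refine le_trans (enorm_integral_le_lintegral_enorm _) (lintegral_mono fun y => ?_)
    show ‖k x y * P y‖ₑ ≤ _
    rw [enorm_mul, Real.enorm_eq_ofReal_abs, Real.enorm_eq_ofReal_abs]
  calc c * ENNReal.ofReal |U x| ≤ c * ∫⁻ y, ENNReal.ofReal |k x y| * ENNReal.ofReal |P y| := by
        gcongr
    _ = ∫⁻ y, c * (ENNReal.ofReal |k x y| * ENNReal.ofReal |P y|) :=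
        (lintegral_const_mul' _ _ hc).symm
    _ = _ := by simp_rw [mul_assoc]

theorem ennreal_absorb {a b : ℝ≥0∞} (ha : a ≠ ∞) (h : a * a ≤ b * a) : a ≤ b := by
  by_cases h0 : a = 0
  · rw [h0]; exact zero_le
  · exact (ENNReal.mul_le_mul_iff_left h0 ha).1 h

/-- the abstract core of the scalar Carleman inequality -/
theorem star_core {C : ℝ≥0} {C₂ κ ρ r0 M : ℝ} {m : ℕ} (hκ : 1 ≤ κ) (hρ : 0 < ρ) (hρr : ρ < r0)
    (hM : 0 ≤ M) (hC₂ : 0 < C₂)
    (hB : ∀ f g : E3 → ℝ≥0∞, Measurable f → Measurable g → (∀ x, r0 < ‖x‖ → f x = 0) →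
      (∀ x, r0 < ‖x‖ → g x = 0) →
      (∫⁻ x, ∫⁻ y, f x * ENNReal.ofReal |wK κ m x y| * g y ≤
        C * nrm (6 / 5) f * nrm (6 / 5) g) ∧
      (∫⁻ x, ∫⁻ y, f x * ENNReal.ofReal (√κ * |wK κ m x y|) * g y ≤
        C * ENNReal.ofReal √r0 * nrm (6 / 5) f * nrm 2 g) ∧
      (∫⁻ x, ∫⁻ y, f x * ENNReal.ofReal (√κ * |wK κ m x y|) * g y ≤
        C * ENNReal.ofReal √r0 * nrm 2 f * nrm (6 / 5) g))
    (hL : ∀ f g : E3 → ℝ, MemLp f 2 → MemLp g 2 →
      (∀ x, (‖x‖ < ρ ∨ r0 < ‖x‖) → f x = 0) → (∀ x, (‖x‖ < ρ ∨ r0 < ‖x‖) → g x = 0) →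
      κ * |∫ x, ∫ y, f x * wK κ m x y * g y| ≤ C₂ * r0 * √(∫ x, f x ^ 2) * √(∫ x, g x ^ 2))
    {V U G₁ G₂ G₃ : E3 → ℝ} (hV : Measurable V)
    (hVM : (∫⁻ x in Metric.closedBall (0 : E3) r0, ENNReal.ofReal (|V x| ^ (3 / 2 : ℝ))) ^
      (2 / 3 : ℝ) ≤ ENNReal.ofReal M)
    (hU : MemLp U 2) (h1 : MemLp G₁ 2) (h2 : MemLp G₂ 2) (h3 : MemLp G₃ 2)
    (z : ∀ x, (‖x‖ < ρ ∨ r0 < ‖x‖) → U x = 0 ∧ G₁ x = 0 ∧ G₂ x = 0 ∧ G₃ x = 0)
    (rep : ∀ᵐ x, U x = ∫ y, wK κ m x y * (√|V y| * G₁ y + √κ * G₂ y + G₃ y)) :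
    (∫⁻ x, ENNReal.ofReal (|V x| * U x ^ 2) ≤ ENNReal.ofReal (((C : ℝ) * (√M * (√M *
      √(∫ x, G₁ x ^ 2) + √r0 * √(∫ x, G₂ x ^ 2) + √r0 * √(∫ x, G₃ x ^ 2)))) ^ 2)) ∧
    √κ * √(∫ x, U x ^ 2) ≤ (C : ℝ) * √r0 * √M * √(∫ x, G₁ x ^ 2) +
      2 * C₂ * r0 * (√(∫ x, G₂ x ^ 2) + √(∫ x, G₃ x ^ 2)) := by
  have hr0 : 0 < r0 := hρ.trans hρr
  have hκ0 : 0 < κ := by linarith
  have hsκ : 1 ≤ √κ := by rw [← Real.sqrt_one]; exact Real.sqrt_le_sqrt hκ
  set B : Set E3 := Metric.closedBall (0 : E3) r0 with hBd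
  have hBm : MeasurableSet B := Metric.isClosed_closedBall.measurableSet
  -- the potential restricted to the ball
  set W : E3 → ℝ≥0∞ := B.indicator (fun x => ENNReal.ofReal |V x|) with hW
  have hWm : Measurable W := (by fun_prop : Measurable fun x => ENNReal.ofReal |V x|).indicator hBm
  have hWn : nrm (3 / 2) W ≤ ENNReal.ofReal M := by
    refine le_trans (le_of_eq ?_) hVM
    unfold nrm
    rw [← lintegral_indicator hBm]
    have e2 : (1 / (3 / 2) : ℝ) = 2 / 3 := by norm_num
    rw [e2]
    congr 1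
    refine lintegral_congr fun x => ?_
    by_cases hx : x ∈ B
    · rw [hW, indicator_of_mem hx, indicator_of_mem hx,
        ENNReal.ofReal_rpow_of_nonneg (abs_nonneg _) (by norm_num)]
    · rw [hW, indicator_of_notMem hx, indicator_of_notMem hx]
      exact ENNReal.zero_rpow_of_pos (by norm_num)
  have hout : ∀ x, x ∉ B → r0 < ‖x‖ := fun x hx => by
    rw [hBd, Metric.mem_closedBall, dist_zero_right] at hx
    exact not_le.1 hx
  -- norms
  set n1 := √(∫ x, G₁ x ^ 2) with hn1
  set n2 := √(∫ x, G₂ x ^ 2) with hn2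
  set n3 := √(∫ x, G₃ x ^ 2) with hn3
  set a := √(∫ x, U x ^ 2) with ha
  have N1 : nrm 2 (fun x => ENNReal.ofReal |G₁ x|) = ENNReal.ofReal n1 := nrm2_eq h1
  have N2 : nrm 2 (fun x => ENNReal.ofReal |G₂ x|) = ENNReal.ofReal n2 := nrm2_eq h2
  have N3 : nrm 2 (fun x => ENNReal.ofReal |G₃ x|) = ENNReal.ofReal n3 := nrm2_eq h3
  have NU : nrm 2 (fun x => ENNReal.ofReal |U x|) = ENNReal.ofReal a := nrm2_eq hU
  have sqM : ENNReal.ofReal M ^ (1 / 2 : ℝ) = ENNReal.ofReal √M := by
    rw [ENNReal.ofReal_rpow_of_nonneg hM (by norm_num), Real.sqrt_eq_rpow]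
  have aem : ∀ {G : E3 → ℝ}, MemLp G 2 → AEMeasurable (fun x => ENNReal.ofReal |G x|) :=
    fun hG => (measurable_norm.comp_aemeasurable hG.1.aemeasurable).ennreal_ofReal
  -- the function `P = √|V| G₁`
  have hP : nrm (6 / 5) (fun x => ENNReal.ofReal |√|V x| * G₁ x|) ≤ ENNReal.ofReal (√M * n1) := by
    have e : (fun x => ENNReal.ofReal |√|V x| * G₁ x|) =
        fun x => W x ^ (1 / 2 : ℝ) * ENNReal.ofReal |G₁ x| := by
      funext x
      by_cases hx : x ∈ B
      · rw [hW, indicator_of_mem hx, abs_mul, abs_of_nonneg (Real.sqrt_nonneg _),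
          ENNReal.ofReal_mul (Real.sqrt_nonneg _),
          ENNReal.ofReal_rpow_of_nonneg (abs_nonneg _) (by norm_num), Real.sqrt_eq_rpow]
      · rw [(z x (Or.inr (hout x hx))).2.1]
        simp
    rw [e]
    refine (holder_V hWm.aemeasurable (aem h1)).trans ?_
    rw [N1, ENNReal.ofReal_mul (Real.sqrt_nonneg _), ← sqM]
    gcongr
  have zo : ∀ x, r0 < ‖x‖ → U x = 0 ∧ G₁ x = 0 ∧ G₂ x = 0 ∧ G₃ x = 0 := fun x hx =>
    z x (Or.inr hx)
  -- measurability of P
  have hPm : AEMeasurable (fun x => ENNReal.ofReal |√|V x| * G₁ x|) := by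
    have : AEMeasurable (fun x => √|V x| * G₁ x) :=
      (by fun_prop : Measurable fun x => √|V x|).aemeasurable.mul h1.1.aemeasurable
    exact (measurable_norm.comp_aemeasurable this).ennreal_ofReal
  -- key estimate for `∫ f |U|`
  have key : ∀ f : E3 → ℝ≥0∞, AEMeasurable f → (∀ x, f x ≠ ∞) → (∀ x, r0 < ‖x‖ → f x = 0) →
      ∫⁻ x, f x * ENNReal.ofReal |U x| ≤ ENNReal.ofReal ((C : ℝ) * (√M * n1 + √r0 * n2 + √r0 * n3)) *
        nrm (6 / 5) f := by
    intro f hf hft hf0
    have s1 : ∫⁻ x, f x * ENNReal.ofReal |U x| ≤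
        ∫⁻ x, ∫⁻ y, f x * ENNReal.ofReal |wK κ m x y| *
          ENNReal.ofReal |√|V y| * G₁ y + √κ * G₂ y + G₃ y| := by
      refine lintegral_mono_ae (rep.mono fun x hx => ?_)
      exact absb x hx (f x) (hft x)
    have s2 : ∫⁻ x, ∫⁻ y, f x * ENNReal.ofReal |wK κ m x y| *
          ENNReal.ofReal |√|V y| * G₁ y + √κ * G₂ y + G₃ y| ≤
        ∫⁻ x, ∫⁻ y, (f x * ENNReal.ofReal |wK κ m x y| * ENNReal.ofReal |√|V y| * G₁ y| +
          (f x * ENNReal.ofReal (√κ * |wK κ m x y|) * ENNReal.ofReal |G₂ y| +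
          f x * ENNReal.ofReal (√κ * |wK κ m x y|) * ENNReal.ofReal |G₃ y|)) := by
      refine lintegral_mono fun x => lintegral_mono fun y => ?_
      have t1 : ENNReal.ofReal |√|V y| * G₁ y + √κ * G₂ y + G₃ y| ≤
          ENNReal.ofReal |√|V y| * G₁ y| + (ENNReal.ofReal √κ * ENNReal.ofReal |G₂ y| +
            ENNReal.ofReal √κ * ENNReal.ofReal |G₃ y|) := by
        rw [← ENNReal.ofReal_mul (Real.sqrt_nonneg _), ← ENNReal.ofReal_mul (Real.sqrt_nonneg _),
          ← ENNReal.ofReal_add (by positivity) (by positivity),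
          ← ENNReal.ofReal_add (by positivity) (by positivity)]
        refine ENNReal.ofReal_le_ofReal ?_
        have u1 := abs_add_three (√|V y| * G₁ y) (√κ * G₂ y) (G₃ y)
        have u2 : |√κ * G₂ y| = √κ * |G₂ y| := by
          rw [abs_mul, abs_of_nonneg (Real.sqrt_nonneg κ)]
        have u3 : |G₃ y| ≤ √κ * |G₃ y| := le_mul_of_one_le_left (abs_nonneg _) hsκ
        linarith
      calc _ ≤ f x * ENNReal.ofReal |wK κ m x y| * (ENNReal.ofReal |√|V y| * G₁ y| +
            (ENNReal.ofReal √κ * ENNReal.ofReal |G₂ y| +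
            ENNReal.ofReal √κ * ENNReal.ofReal |G₃ y|)) := by gcongr
        _ = _ := by
            rw [ENNReal.ofReal_mul (Real.sqrt_nonneg κ)]
            ring
    have hwm : Measurable (fun p : E3 × E3 => wK κ m p.1 p.2) := meas_wK κ m
    have hwu : Measurable (Function.uncurry (wK κ m)) := hwm
    have mk : ∀ x, Measurable (wK κ m x) := fun x => hwu.of_uncurry_left
    have s3 : ∫⁻ x, ∫⁻ y, (f x * ENNReal.ofReal |wK κ m x y| * ENNReal.ofReal |√|V y| * G₁ y| +
          (f x * ENNReal.ofReal (√κ * |wK κ m x y|) * ENNReal.ofReal |G₂ y| +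
          f x * ENNReal.ofReal (√κ * |wK κ m x y|) * ENNReal.ofReal |G₃ y|)) =
        ∫⁻ x, ((∫⁻ y, f x * ENNReal.ofReal |wK κ m x y| * ENNReal.ofReal |√|V y| * G₁ y|) +
          ((∫⁻ y, f x * ENNReal.ofReal (√κ * |wK κ m x y|) * ENNReal.ofReal |G₂ y|) +
          ∫⁻ y, f x * ENNReal.ofReal (√κ * |wK κ m x y|) * ENNReal.ofReal |G₃ y|)) := by
      refine lintegral_congr fun x => ?_
      have m1 : AEMeasurable (fun y => f x * ENNReal.ofReal |wK κ m x y| *
          ENNReal.ofReal |√|V y| * G₁ y|) :=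
        ((measurable_norm.comp (mk x)).ennreal_ofReal.const_mul (f x)).aemeasurable.mul hPm
      have m2 : AEMeasurable (fun y => f x * ENNReal.ofReal (√κ * |wK κ m x y|) *
          ENNReal.ofReal |G₂ y|) :=
        (((measurable_norm.comp (mk x)).const_mul √κ).ennreal_ofReal.const_mul
          (f x)).aemeasurable.mul (aem h2)
      rw [lintegral_add_left' m1, lintegral_add_left' m2]
    -- measurability in x of the inner integrals, after replacing f by a measurable function
    have mi : ∀ (k : E3 → E3 → ℝ≥0∞) (g : E3 → ℝ≥0∞), Measurable (Function.uncurry k) →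
        AEMeasurable g → AEMeasurable fun x => ∫⁻ y, f x * k x y * g y := by
      intro k g hk hg
      have e1 : ∀ x, ∫⁻ y, f x * k x y * g y = f x * ∫⁻ y, k x y * hg.mk g y := by
        intro x
        rw [← lintegral_const_mul' _ _ (hft x)]
        refine lintegral_congr_ae (hg.ae_eq_mk.mono fun y hy => ?_)
        simp only [hy, mul_assoc]
      simp_rw [e1]
      refine hf.mul (Measurable.aemeasurable ?_)
      have hkk : Measurable (fun p : E3 × E3 => k p.1 p.2 * hg.mk g p.2) :=
        hk.mul (hg.measurable_mk.comp measurable_snd)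
      exact hkk.lintegral_prod_right' 
    have km1 : Measurable (Function.uncurry fun x y => ENNReal.ofReal |wK κ m x y|) :=
      (measurable_norm.comp hwm).ennreal_ofReal
    have km2 : Measurable (Function.uncurry fun x y => ENNReal.ofReal (√κ * |wK κ m x y|)) :=
      ((measurable_norm.comp hwm).const_mul √κ).ennreal_ofReal
    have b1 := bil_ae (fun f g hf hg hf0 hg0 => (hB f g hf hg hf0 hg0).1) hf hPm hf0
      (fun x hx => by rw [(zo x hx).2.1]; simp)
    have b2 := bil_ae (fun f g hf hg hf0 hg0 => (hB f g hf hg hf0 hg0).2.1) hf (aem h2) hf0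
      (fun x hx => by rw [(zo x hx).2.2.1]; simp)
    have b3 := bil_ae (fun f g hf hg hf0 hg0 => (hB f g hf hg hf0 hg0).2.1) hf (aem h3) hf0
      (fun x hx => by rw [(zo x hx).2.2.2]; simp)
    calc ∫⁻ x, f x * ENNReal.ofReal |U x| ≤ _ := s1
      _ ≤ _ := s2
      _ = _ := s3
      _ = _ := lintegral_add_left' (mi _ _ km1 hPm) _
      _ = _ := by rw [lintegral_add_left' (mi _ _ km2 (aem h2))]
      _ ≤ C * nrm (6 / 5) f * ENNReal.ofReal (√M * n1) +
          (C * ENNReal.ofReal √r0 * nrm (6 / 5) f * ENNReal.ofReal n2 +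
          C * ENNReal.ofReal √r0 * nrm (6 / 5) f * ENNReal.ofReal n3) := by
          refine add_le_add (b1.trans (by gcongr)) (add_le_add (b2.trans (by rw [N2]))
            (b3.trans (by rw [N3])))
      _ = _ := by
          have hC : (C : ℝ≥0∞) = ENNReal.ofReal (C : ℝ) := by simp
          have e3 : ENNReal.ofReal ((C : ℝ) * (√M * n1 + √r0 * n2 + √r0 * n3)) =
              C * (ENNReal.ofReal (√M * n1) + ENNReal.ofReal √r0 * ENNReal.ofReal n2 +
                ENNReal.ofReal √r0 * ENNReal.ofReal n3) := by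
            rw [ENNReal.ofReal_mul (by positivity), ENNReal.ofReal_add (by positivity)
              (by positivity), ENNReal.ofReal_add (by positivity) (by positivity),
              ENNReal.ofReal_mul (Real.sqrt_nonneg r0), ENNReal.ofReal_mul (Real.sqrt_nonneg r0),
              ← hC]
          rw [e3]
          ring
  have aemU : AEMeasurable U := hU.1.aemeasurable
  refine ⟨?_, ?_⟩
  · -- truncation
    set K := (C : ℝ) * (√M * n1 + √r0 * n2 + √r0 * n3) with hK
    have hK0 : 0 ≤ K := by positivity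
    have trunc : ∀ N : ℕ, ∫⁻ x, ENNReal.ofReal (min |V x| N * U x ^ 2) ≤
        ENNReal.ofReal ((√M * K) ^ 2) := by
      intro N
      set VN : E3 → ℝ := fun x => min |V x| N with hVN
      have hVN0 : ∀ x, 0 ≤ VN x := fun x => le_min (abs_nonneg _) (Nat.cast_nonneg _)
      have hVNm : Measurable VN := by
        have : Measurable fun x => |V x| := hV.norm
        exact this.min measurable_const
      -- `f = V_N |U|`
      set f : E3 → ℝ≥0∞ := fun x => ENNReal.ofReal (VN x * |U x|) with hf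
      have hfm : AEMeasurable f := by
        have h1' : AEMeasurable (fun x => |U x|) := measurable_norm.comp_aemeasurable aemU
        exact (hVNm.aemeasurable.mul h1').ennreal_ofReal
      have k1 := key f hfm (fun x => ENNReal.ofReal_ne_top) (fun x hx => by
        rw [hf]; simp only [(zo x hx).1]; simp)
      -- the norm of `√V_N U`
      set aN : ℝ≥0∞ := nrm 2 (fun x => ENNReal.ofReal (√(VN x) * |U x|)) with haN
      have e1 : aN * aN = ∫⁻ x, ENNReal.ofReal (VN x * U x ^ 2) := by
        have : aN * aN = aN ^ (2 : ℝ) := by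
          rw [ENNReal.rpow_two, sq]
        rw [this, haN]
        unfold nrm
        rw [← ENNReal.rpow_mul]
        norm_num
        refine lintegral_congr fun x => ?_
        rw [← ENNReal.ofReal_mul (Real.sqrt_nonneg _), ← ENNReal.ofReal_pow (by positivity), mul_pow,
          Real.sq_sqrt (hVN0 x), sq_abs]
      have e2 : ∫⁻ x, f x * ENNReal.ofReal |U x| = ∫⁻ x, ENNReal.ofReal (VN x * U x ^ 2) := by
        refine lintegral_congr fun x => ?_
        rw [hf]
        simp only
        rw [← ENNReal.ofReal_mul (by have := hVN0 x; positivity), mul_assoc, ← sq, sq_abs]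
      have e3 : nrm (6 / 5) f ≤ ENNReal.ofReal √M * aN := by
        have hWN : ∀ x, f x ≤ W x ^ (1 / 2 : ℝ) * ENNReal.ofReal (√(VN x) * |U x|) := by
          intro x
          by_cases hx : x ∈ B
          · rw [hW, indicator_of_mem hx, ENNReal.ofReal_rpow_of_nonneg (abs_nonneg _) (by norm_num),
              ← ENNReal.ofReal_mul (by positivity), ← Real.sqrt_eq_rpow]
            refine ENNReal.ofReal_le_ofReal ?_
            have : VN x = √(VN x) * √(VN x) := (Real.mul_self_sqrt (hVN0 x)).symm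
            have h5 : √(VN x) ≤ √|V x| := Real.sqrt_le_sqrt (min_le_left _ _)
            calc VN x * |U x| = √(VN x) * √(VN x) * |U x| := by rw [← this]
              _ ≤ √|V x| * √(VN x) * |U x| := by gcongr
              _ = _ := by ring
          · rw [hf]; simp only [(zo x (hout x hx)).1]; simp
        refine (nrm_mono (by norm_num) hWN).trans ?_
        have hm : AEMeasurable (fun x => ENNReal.ofReal (√(VN x) * |U x|)) := by
          have h1' : AEMeasurable (fun x => |U x|) := measurable_norm.comp_aemeasurable aemU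
          exact ((by fun_prop : Measurable fun x => √(VN x)).aemeasurable.mul h1').ennreal_ofReal
        refine (holder_V hWm.aemeasurable hm).trans ?_
        rw [← sqM]
        gcongr
      have fin : aN ≠ ∞ := by
        intro h
        have h6 : aN * aN = ∞ := by rw [h]; simp
        rw [e1] at h6
        have h7 : ∫⁻ x, ENNReal.ofReal (VN x * U x ^ 2) ≤ ∫⁻ x, ENNReal.ofReal (N * U x ^ 2) := by
          refine lintegral_mono fun x => ENNReal.ofReal_le_ofReal ?_
          exact mul_le_mul_of_nonneg_right (min_le_right _ _) (sq_nonneg _)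
        have h8 : ∫⁻ x, ENNReal.ofReal (N * U x ^ 2) < ∞ := by
          have : Integrable fun x => (N : ℝ) * U x ^ 2 := hU.integrable_sq.const_mul _
          exact this.lintegral_lt_top
        exact absurd (h7.trans_lt h8) (by rw [h6]; simp)
      have h9 : aN * aN ≤ ENNReal.ofReal (√M * K) * aN := by
        rw [e1, ← e2]
        refine k1.trans ?_
        calc ENNReal.ofReal K * nrm (6 / 5) f ≤ ENNReal.ofReal K * (ENNReal.ofReal √M * aN) := by
              gcongr
          _ = _ := by
              rw [mul_comm √M K, ENNReal.ofReal_mul hK0]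
              ring
      have h10 := ennreal_absorb fin h9
      rw [← e1, ENNReal.ofReal_pow (by positivity), sq]
      exact mul_le_mul' h10 h10
    have lim : ∫⁻ x, ENNReal.ofReal (|V x| * U x ^ 2) ≤ ENNReal.ofReal ((√M * K) ^ 2) := by
      have e4 : ∀ x, ENNReal.ofReal (|V x| * U x ^ 2) =
          ⨆ N : ℕ, ENNReal.ofReal (min |V x| N * U x ^ 2) := by
        intro x
        refine le_antisymm ?_ (iSup_le fun N => ENNReal.ofReal_le_ofReal
          (mul_le_mul_of_nonneg_right (min_le_left _ _) (sq_nonneg _)))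
        obtain ⟨N, hN⟩ := exists_nat_ge |V x|
        refine le_iSup_of_le N ?_
        rw [min_eq_left hN]
      simp_rw [e4]
      rw [lintegral_iSup']
      · exact iSup_le trunc
      · intro N
        have hVNm : Measurable fun x => min |V x| (N : ℝ) := by
          have : Measurable fun x => |V x| := hV.norm
          exact this.min measurable_const
        exact (hVNm.aemeasurable.mul (aemU.pow_const 2)).ennreal_ofReal
      · refine ae_of_all _ fun x => ?_
        intro a b hab
        refine ENNReal.ofReal_le_ofReal (mul_le_mul_of_nonneg_right ?_ (sq_nonneg _))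
        exact min_le_min_left _ (by exact_mod_cast hab)
    refine lim.trans (ENNReal.ofReal_le_ofReal (le_of_eq ?_))
    rw [hK]; ring
  · -- the `L²` part
    set P : E3 → ℝ := fun y => √|V y| * G₁ y with hPd
    set Q : E3 → ℝ := fun y => √κ * G₂ y + G₃ y with hQd
    have hwm : Measurable (fun p : E3 × E3 => wK κ m p.1 p.2) := meas_wK κ m
    have hwu : Measurable (Function.uncurry (wK κ m)) := hwm
    have mk : ∀ x, Measurable (wK κ m x) := fun x => hwu.of_uncurry_left
    have hPa : AEMeasurable P :=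
      (by fun_prop : Measurable fun x => √|V x|).aemeasurable.mul h1.1.aemeasurable
    have hQL : MemLp Q 2 := (h2.const_mul _).add h3
    have hP0 : ∀ x, (‖x‖ < ρ ∨ r0 < ‖x‖) → P x = 0 := fun x hx => by
      rw [hPd]; simp only [(z x hx).2.1, mul_zero]
    have hQ0 : ∀ x, (‖x‖ < ρ ∨ r0 < ‖x‖) → Q x = 0 := fun x hx => by
      rw [hQd]; simp only [(z x hx).2.2.1, (z x hx).2.2.2, mul_zero, add_zero]
    have hP' : nrm (6 / 5) (fun x => ENNReal.ofReal |P x|) ≤ ENNReal.ofReal (√M * n1) := hP
    have hPm' : AEMeasurable (fun x => ENNReal.ofReal |P x|) := hPm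
    have kabs : Measurable (fun p : E3 × E3 => ENNReal.ofReal (√κ * |wK κ m p.1 p.2|)) :=
      ((measurable_norm.comp hwm).const_mul √κ).ennreal_ofReal
    -- finiteness of the inner integrals
    have mInt : ∀ g : E3 → ℝ≥0∞, AEMeasurable g →
        Measurable fun x => ∫⁻ y, ENNReal.ofReal (√κ * |wK κ m x y|) * g y := by
      intro g hg
      have e1 : ∀ x, ∫⁻ y, ENNReal.ofReal (√κ * |wK κ m x y|) * g y =
          ∫⁻ y, ENNReal.ofReal (√κ * |wK κ m x y|) * hg.mk g y := fun x =>
        lintegral_congr_ae (hg.ae_eq_mk.mono fun y hy => by simp only [hy])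
      simp_rw [e1]
      have hkk : Measurable (fun p : E3 × E3 => ENNReal.ofReal (√κ * |wK κ m p.1 p.2|) *
          hg.mk g p.2) := kabs.mul (hg.measurable_mk.comp measurable_snd)
      exact hkk.lintegral_prod_right'
    have one_ball : ∀ q : ℝ, 0 < q → nrm q (B.indicator fun _ => 1) ≠ ∞ := by
      intro q hq
      unfold nrm
      have e5 : ∀ x, (B.indicator (fun _ => (1 : ℝ≥0∞)) x) ^ q = B.indicator (fun _ => 1) x := by
        intro x
        by_cases hx : x ∈ B
        · rw [indicator_of_mem hx]; simp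
        · rw [indicator_of_notMem hx]; simp [hq]
      simp_rw [e5]
      rw [lintegral_indicator hBm]
      simp only [lintegral_const, Measure.restrict_apply, MeasurableSet.univ, univ_inter, one_mul]
      exact ENNReal.rpow_ne_top_of_nonneg (by positivity)
        (measure_closedBall_lt_top).ne
    have ind1 : Measurable (B.indicator fun _ : E3 => (1 : ℝ≥0∞)) := measurable_const.indicator hBm
    have ind0 : ∀ x, r0 < ‖x‖ → B.indicator (fun _ : E3 => (1 : ℝ≥0∞)) x = 0 := by
      intro x hx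
      refine indicator_of_notMem ?_ _
      rw [hBd, Metric.mem_closedBall, dist_zero_right]
      exact not_le.2 hx
    have finae : ∀ g : E3 → ℝ, AEMeasurable g → (∀ x, r0 < ‖x‖ → g x = 0) →
        ∫⁻ x, ∫⁻ y, B.indicator (fun _ : E3 => (1 : ℝ≥0∞)) x * ENNReal.ofReal (√κ * |wK κ m x y|) *
          ENNReal.ofReal |g y| ≠ ∞ →
        ∀ᵐ x, x ∈ B → Integrable fun y => wK κ m x y * g y := by
      intro g hg hg0 hfin
      have hga : AEMeasurable fun y => ENNReal.ofReal |g y| :=
        (measurable_norm.comp_aemeasurable hg).ennreal_ofReal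
      have e1 : ∀ x, ∫⁻ y, B.indicator (fun _ : E3 => (1 : ℝ≥0∞)) x *
          ENNReal.ofReal (√κ * |wK κ m x y|) * ENNReal.ofReal |g y| =
          B.indicator (fun _ : E3 => (1 : ℝ≥0∞)) x *
            ∫⁻ y, ENNReal.ofReal (√κ * |wK κ m x y|) * ENNReal.ofReal |g y| := by
        intro x
        rw [← lintegral_const_mul']
        · simp_rw [mul_assoc]
        · by_cases hx : x ∈ B
          · rw [indicator_of_mem hx]; simp
          · rw [indicator_of_notMem hx]; simp
      simp_rw [e1] at hfin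
      have h11 := ae_lt_top (ind1.mul (mInt _ hga)) hfin
      filter_upwards [h11] with x hx hxB
      simp only [Pi.mul_apply] at hx
      rw [indicator_of_mem hxB, one_mul] at hx
      refine ⟨(mk x).aestronglyMeasurable.mul hg.aestronglyMeasurable, ?_⟩
      rw [hasFiniteIntegral_iff_enorm]
      refine lt_of_le_of_lt (lintegral_mono fun y => ?_) hx
      rw [enorm_mul, Real.enorm_eq_ofReal_abs, Real.enorm_eq_ofReal_abs]
      gcongr
      exact le_mul_of_one_le_left (abs_nonneg _) hsκ
    have intP : ∀ᵐ x, x ∈ B → Integrable fun y => wK κ m x y * P y := by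
      refine finae P hPa (fun x hx => hP0 x (Or.inr hx)) (ne_of_lt ?_)
      have b := bil_ae (fun f g hf hg hf0 hg0 => (hB f g hf hg hf0 hg0).2.2) ind1.aemeasurable hPm'
        ind0 (fun x hx => by rw [hP0 x (Or.inr hx)]; simp)
      refine lt_of_le_of_lt b ?_
      refine ENNReal.mul_lt_top (ENNReal.mul_lt_top (ENNReal.mul_lt_top ENNReal.coe_lt_top
        ENNReal.ofReal_lt_top) (lt_top_iff_ne_top.2 (one_ball 2 (by norm_num)))) ?_
      exact hP'.trans_lt ENNReal.ofReal_lt_top
    have hQa : AEMeasurable fun x => ENNReal.ofReal |Q x| := aem hQL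
    have intQ : ∀ᵐ x, x ∈ B → Integrable fun y => wK κ m x y * Q y := by
      refine finae Q hQL.1.aemeasurable (fun x hx => hQ0 x (Or.inr hx)) (ne_of_lt ?_)
      have b := bil_ae (fun f g hf hg hf0 hg0 => (hB f g hf hg hf0 hg0).2.1) ind1.aemeasurable hQa
        ind0 (fun x hx => by rw [hQ0 x (Or.inr hx)]; simp)
      refine lt_of_le_of_lt b ?_
      refine ENNReal.mul_lt_top (ENNReal.mul_lt_top (ENNReal.mul_lt_top ENNReal.coe_lt_top
        ENNReal.ofReal_lt_top) (lt_top_iff_ne_top.2 (one_ball (6 / 5) (by norm_num)))) ?_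
      rw [nrm2_eq hQL]
      exact ENNReal.ofReal_lt_top
    -- the two parts
    set A : E3 → ℝ := fun x => ∫ y, wK κ m x y * P y with hA
    set Bq : E3 → ℝ := fun x => ∫ y, wK κ m x y * Q y with hBq
    have split : ∀ᵐ x, U x * U x = U x * A x + U x * Bq x := by
      filter_upwards [rep, intP, intQ] with x hx hxP hxQ
      by_cases hxB : x ∈ B
      · rw [← mul_add]
        congr 1
        rw [hx, hA, hBq]
        simp only
        rw [← integral_add (hxP hxB) (hxQ hxB)]
        refine integral_congr_ae (ae_of_all _ fun y => ?_)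
        simp only [hPd, hQd]
        ring
      · rw [(zo x (hout x hxB)).1]; simp
    have hAm : AEStronglyMeasurable A := by
      have e1 : ∀ x, A x = ∫ y, wK κ m x y * hPa.mk P y := fun x =>
        integral_congr_ae (hPa.ae_eq_mk.mono fun y hy => by simp only [hy])
      have e2 : A = fun x => ∫ y, wK κ m x y * hPa.mk P y := funext e1
      rw [e2]
      have hkk : Measurable (fun p : E3 × E3 => wK κ m p.1 p.2 * hPa.mk P p.2) :=
        hwm.mul (hPa.measurable_mk.comp measurable_snd)
      exact (hkk.stronglyMeasurable.integral_prod_right').aestronglyMeasurable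
    -- the absolute bound of `∫ U A`
    have absUA : ∫⁻ x, ENNReal.ofReal (√κ * |U x * A x|) ≤
        ENNReal.ofReal ((C : ℝ) * √r0 * a * (√M * n1)) := by
      have s1 : ∫⁻ x, ENNReal.ofReal (√κ * |U x * A x|) ≤
          ∫⁻ x, ∫⁻ y, ENNReal.ofReal |U x| * ENNReal.ofReal (√κ * |wK κ m x y|) *
            ENNReal.ofReal |P y| := by
        refine lintegral_mono fun x => ?_
        have t := absb (U := A) (P := P) (k := wK κ m) x rfl (ENNReal.ofReal (√κ * |U x|))
          ENNReal.ofReal_ne_top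
        refine le_trans (le_of_eq ?_) (t.trans (le_of_eq ?_))
        · rw [abs_mul, ← mul_assoc, ENNReal.ofReal_mul (by positivity)]
        · refine lintegral_congr fun y => ?_
          rw [ENNReal.ofReal_mul (Real.sqrt_nonneg κ), ENNReal.ofReal_mul (Real.sqrt_nonneg κ)]
          ring
      have b := bil_ae (fun f g hf hg hf0 hg0 => (hB f g hf hg hf0 hg0).2.2) (aem hU) hPm'
        (fun x hx => by rw [(zo x hx).1]; simp) (fun x hx => by rw [hP0 x (Or.inr hx)]; simp)
      refine s1.trans (b.trans ?_)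
      rw [NU]
      have hC : (C : ℝ≥0∞) = ENNReal.ofReal (C : ℝ) := by simp
      have e3 : ENNReal.ofReal ((C : ℝ) * √r0 * a * (√M * n1)) =
          C * ENNReal.ofReal √r0 * ENNReal.ofReal a * ENNReal.ofReal (√M * n1) := by
        rw [ENNReal.ofReal_mul (by positivity), ENNReal.ofReal_mul (by positivity),
          ENNReal.ofReal_mul (by positivity), ← hC]
      rw [e3]
      gcongr
    have intUA : Integrable fun x => √κ * (U x * A x) := by
      refine ⟨(hU.1.mul hAm).const_mul _, ?_⟩
      rw [hasFiniteIntegral_iff_enorm]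
      refine lt_of_le_of_lt (le_trans (le_of_eq ?_) absUA) ENNReal.ofReal_lt_top
      refine lintegral_congr fun x => ?_
      rw [Real.enorm_eq_ofReal_abs, abs_mul, abs_of_nonneg (Real.sqrt_nonneg κ)]
    have bUA : |∫ x, √κ * (U x * A x)| ≤ (C : ℝ) * √r0 * a * (√M * n1) := by
      have t1 : ENNReal.ofReal |∫ x, √κ * (U x * A x)| ≤
          ENNReal.ofReal ((C : ℝ) * √r0 * a * (√M * n1)) := by
        rw [← Real.enorm_eq_ofReal_abs]
        refine (enorm_integral_le_lintegral_enorm _).trans (le_trans (le_of_eq ?_) absUA)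
        refine lintegral_congr fun x => ?_
        rw [Real.enorm_eq_ofReal_abs, abs_mul, abs_of_nonneg (Real.sqrt_nonneg κ)]
      exact (ENNReal.ofReal_le_ofReal_iff (by positivity)).1 t1
    have intUA' : Integrable fun x => U x * A x := by
      have := intUA.const_mul (√κ)⁻¹
      refine this.congr (ae_of_all _ fun x => ?_)
      have hne : √κ ≠ 0 := by positivity
      field_simp
    have intUU : Integrable fun x => U x * U x := by
      refine hU.integrable_sq.congr (ae_of_all _ fun x => ?_)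
      simp only [sq]
    have intUB : Integrable fun x => U x * Bq x := by
      refine (intUU.sub intUA').congr ?_
      filter_upwards [split] with x hx
      simp only [Pi.sub_apply]
      linarith
    have eqU : a ^ 2 = (∫ x, U x * A x) + ∫ x, U x * Bq x := by
      rw [ha, Real.sq_sqrt (integral_nonneg fun x => sq_nonneg _), ← integral_add intUA' intUB]
      refine integral_congr_ae ?_
      filter_upwards [split] with x hx
      rw [← hx, sq]
    have bUB : κ * |∫ x, U x * Bq x| ≤ C₂ * r0 * a * √(∫ x, Q x ^ 2) := by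
      have t := hL U Q hU hQL (fun x hx => (z x hx).1) hQ0
      have e : (∫ x, ∫ y, U x * wK κ m x y * Q y) = ∫ x, U x * Bq x := by
        refine integral_congr_ae (ae_of_all _ fun x => ?_)
        simp only [hBq]
        rw [← integral_const_mul]
        simp_rw [mul_assoc]
      rw [e] at t
      exact t
    have nQ : √(∫ x, Q x ^ 2) ≤ 2 * (√κ * (n2 + n3)) := by
      have i2 := h2.integrable_sq
      have i3 := h3.integrable_sq
      have t1 : ∫ x, Q x ^ 2 ≤ 2 * κ * (∫ x, G₂ x ^ 2) + 2 * ∫ x, G₃ x ^ 2 := by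
        rw [← integral_const_mul, ← integral_const_mul, ← integral_add (i2.const_mul _)
          (i3.const_mul _)]
        refine integral_mono hQL.integrable_sq ((i2.const_mul _).add (i3.const_mul _)) fun x => ?_
        simp only [hQd, Pi.add_apply]
        have h12 : √κ ^ 2 = κ := Real.sq_sqrt hκ0.le
        nlinarith [sq_nonneg (√κ * G₂ x - G₃ x)]
      have e2 : (∫ x, G₂ x ^ 2) = n2 ^ 2 := by
        rw [hn2, Real.sq_sqrt (integral_nonneg fun x => sq_nonneg _)]
      have e3 : (∫ x, G₃ x ^ 2) = n3 ^ 2 := by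
        rw [hn3, Real.sq_sqrt (integral_nonneg fun x => sq_nonneg _)]
      rw [e2, e3] at t1
      have n20 : 0 ≤ n2 := Real.sqrt_nonneg _
      have n30 : 0 ≤ n3 := Real.sqrt_nonneg _
      refine Real.sqrt_le_iff.2 ⟨by positivity, t1.trans ?_⟩
      have h12 : √κ ^ 2 = κ := Real.sq_sqrt hκ0.le
      have : (2 * (√κ * (n2 + n3))) ^ 2 = 4 * κ * (n2 + n3) ^ 2 := by
        rw [mul_pow, mul_pow, h12]; ring
      rw [this]
      have h13 : n3 ^ 2 ≤ κ * n3 ^ 2 := le_mul_of_one_le_left (sq_nonneg _) hκ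
      have h14 : 0 ≤ κ * (n2 * n3) := by positivity
      have h15 : 0 ≤ κ * n2 ^ 2 := by positivity
      have h16 : 0 ≤ κ * n3 ^ 2 := by positivity
      nlinarith
    have a0 : 0 ≤ a := Real.sqrt_nonneg _
    have fin1 : √κ * a * (√κ * a) ≤ √κ * a * ((C : ℝ) * √r0 * √M * n1 + 2 * C₂ * r0 * (n2 + n3)) := by
      have h12 : √κ * √κ = κ := Real.mul_self_sqrt hκ0.le
      have t1 : κ * (∫ x, U x * A x) ≤ √κ * ((C : ℝ) * √r0 * a * (√M * n1)) := by
        have e : κ * (∫ x, U x * A x) = √κ * ∫ x, √κ * (U x * A x) := by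
          rw [integral_const_mul, ← mul_assoc, h12]
        rw [e]
        exact mul_le_mul_of_nonneg_left ((le_abs_self _).trans bUA) (Real.sqrt_nonneg _)
      have t2 : κ * (∫ x, U x * Bq x) ≤ C₂ * r0 * a * (2 * (√κ * (n2 + n3))) := by
        have := mul_le_mul_of_nonneg_left (le_abs_self (∫ x, U x * Bq x)) hκ0.le
        refine this.trans (bUB.trans ?_)
        gcongr
      have e : √κ * a * (√κ * a) = κ * (∫ x, U x * A x) + κ * ∫ x, U x * Bq x := by
        rw [← mul_add, ← eqU]
        calc √κ * a * (√κ * a) = (√κ * √κ) * a ^ 2 := by ring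
          _ = _ := by rw [h12]
      rw [e]
      calc _ ≤ √κ * ((C : ℝ) * √r0 * a * (√M * n1)) + C₂ * r0 * a * (2 * (√κ * (n2 + n3))) :=
            add_le_add t1 t2
        _ = _ := by ring
    by_cases hz : √κ * a = 0
    · rw [hz]; positivity
    · have : 0 < √κ * a := lt_of_le_of_ne (by positivity) (Ne.symm hz)
      exact le_of_mul_le_mul_left fin1 this

end Pool.Agent.H998.HK
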