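import Pool.Agent.H998.HK.Seq
import Pool.Agent.H998.HK.Final

/-!
# Hohenberg-Kohn in `L^{3/2} + L^∞` : subdifferential form (helper998)
-/

set_option autoImplicit false

noncomputable section

namespace Pool.Agent.H998.HK

open MeasureTheory Filter Topology Set
open scoped ENNReal NNReal
open Pool.Agent.H238.HK

/-- `F[ρ]` -/
def FL (n : ℕ) (ρ : E3 → ℝ) : EReal :=
  sInf {e : EReal | ∃ (r : ℝ) (p : ℕ → ℝ) (Ψ : ℕ → Wave (n + 1)) (G : ℕ → Gr n),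
    IsDM n (fun _ => 0) ρ r p Ψ G ∧ e = (r : EReal)}

/-- the subdifferential of `F` at `ρ` -/
def subD (n : ℕ) (ρ : E3 → ℝ) : Set (E3 → ℝ) :=
  {w | XStar w ∧ ∀ ρ' : E3 → ℝ, MemLp ρ' 1 → MemLp ρ' 3 →
    FL n ρ + ((∫ x, w x * (ρ' x - ρ x) : ℝ) : EReal) ≤ FL n ρ'}

theorem XStar.neg {v : E3 → ℝ} (h : XStar v) : XStar (fun x => -v x) := by
  obtain ⟨a, b, ha, hb, hab⟩ := h
  exact ⟨-a, -b, ha.neg, hb.neg, fun x => by simp [hab x]; ring⟩

theorem XStar.intg {v ρ : E3 → ℝ} (h : XStar v) (h1 : MemLp ρ 1) (h3 : MemLp ρ 3) :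
    Integrable (fun x => v x * ρ x) := by
  obtain ⟨a, b, ha, hb, hab⟩ := h
  have : ENNReal.HolderConjugate (3 / 2 : ℝ≥0∞) 3 := by
    constructor
    rw [inv_one, ENNReal.inv_div (Or.inl (by norm_num)) (Or.inl (by norm_num))]
    have e1 : (2 / 3 : ℝ≥0∞) = ENNReal.ofReal (2 / 3) := by
      rw [ENNReal.ofReal_div_of_pos (by norm_num)]; norm_num
    have e2 : (3 : ℝ≥0∞)⁻¹ = ENNReal.ofReal (1 / 3) := by
      rw [ENNReal.ofReal_div_of_pos (by norm_num)]; norm_num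
    rw [e1, e2, ← ENNReal.ofReal_add (by norm_num) (by norm_num)]
    norm_num
  have i1 : Integrable (fun x => a x * ρ x) := ha.integrable_mul h3
  have i2 : Integrable (fun x => b x * ρ x) := hb.integrable_mul h1
  refine (i1.add i2).congr (Eventually.of_forall fun x => ?_)
  simp only [Pi.add_apply, hab x]
  ring

theorem intg_one {n : ℕ} {Ψ : Wave (n + 1)} {G : Gr n} (h : IsWave (n + 1) Ψ G)
    (s : Spin (n + 1)) (j : Fin (n + 1)) :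
    Integrable fun x : Fin (n + 1) → E3 => (fun _ : E3 => (1 : ℝ)) (x j) * ‖Ψ s x‖ ^ 2 := by
  simpa using (h.memLp s).integrable_norm_pow (by norm_num)

/-- total mass of the density of a density operator -/
theorem dm_mass (hW : S_WFB) {n : ℕ} {ρ : E3 → ℝ} {r : ℝ} {p : ℕ → ℝ} {Ψ : ℕ → Wave (n + 1)}
    {G : ℕ → Gr n} (h : IsDM n (fun _ => 0) ρ r p Ψ G) : ∫ x, ρ x = (n + 1 : ℝ) := by
  obtain ⟨hp, hp1, hΨ, he, hd⟩ := h
  obtain ⟨C₀, _, hf0⟩ := fb_of hW n _ XStar_zero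
  have hX1 : XStar (fun _ => (1 : ℝ)) :=
    ⟨fun _ => 0, fun _ => 1, MemLp.zero', memLp_top_const 1, fun _ => by simp⟩
  obtain ⟨C₁, _, hf1⟩ := fb_of hW n _ hX1
  have s := sum_Pw hf0 hf1 ρ p Ψ G hp hp1 hΨ he.summable hd
  have e : ∀ k, Pv n (fun _ => (1 : ℝ)) (Ψ k) = (n + 1 : ℝ) := by
    intro k
    have h1 := (hΨ k).2
    unfold normSq at h1
    unfold Pv
    simp only [one_mul, Finset.sum_const, Finset.card_univ, Fintype.card_fin, nsmul_eq_mul]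
    rw [← Finset.mul_sum, h1]
    push_cast; ring
  simp only [e] at s
  have s2 := hp1.mul_right (n + 1 : ℝ)
  have := s.unique s2
  simpa using this

theorem FL_nonneg (hW : S_WFB) (n : ℕ) (ρ : E3 → ℝ) : (0 : EReal) ≤ FL n ρ := by
  obtain ⟨C₀, _, hf0⟩ := fb_of hW n _ XStar_zero
  refine le_sInf ?_
  rintro e ⟨r, p, Ψ, G, ⟨hp, hp1, hΨ, he, hd⟩, rfl⟩
  have : 0 ≤ r := by
    refine he.nonneg fun k => mul_nonneg (hp k) ?_
    rw [energy_eq n _ _ _ (hf0 _ _ (hΨ k).1).1, Pv_zero]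
    have := Kin_nonneg n (G k)
    have := Cou_nonneg n (Ψ k)
    linarith
  exact_mod_cast this

/-- the pure state `Ψ` as a density operator -/
theorem pure_dm {n : ℕ} (v : E3 → ℝ) {Ψ : Wave (n + 1)} {G : Gr n} (h : IsWave (n + 1) Ψ G)
    (h1 : normSq (n + 1) Ψ = 1) : IsDM n v (dens n Ψ) (energy (n + 1) v Ψ G)
      (fun k => if k = 0 then 1 else 0) (fun _ => Ψ) (fun _ => G) := by
  refine ⟨fun k => by simp only; split_ifs <;> norm_num, ?_, fun _ => ⟨h, h1⟩, ?_, ?_⟩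
  · exact hasSum_ite_eq 0 1
  · simp only [ite_mul, one_mul, zero_mul]
    exact hasSum_ite_eq 0 _
  · refine Eventually.of_forall fun x => ?_
    simp only [ite_mul, one_mul, zero_mul]
    exact hasSum_ite_eq 0 _

theorem FL_pure {n : ℕ} {Ψ : Wave (n + 1)} {G : Gr n} (h : IsWave (n + 1) Ψ G)
    (h1 : normSq (n + 1) Ψ = 1) :
    FL n (dens n Ψ) ≤ ((energy (n + 1) (fun _ => 0) Ψ G : ℝ) : EReal) :=
  sInf_le ⟨_, _, _, _, pure_dm _ h h1, rfl⟩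

section main

variable (hW : S_WFB) (hEx : S_EXI) (h3 : S_L3)

include hW hEx h3

/-- `F[ρ]` is finite if the subdifferential is nonempty -/
theorem FL_real {n : ℕ} {ρ : E3 → ℝ} {w : E3 → ℝ} (hw : w ∈ subD n ρ) :
    ∃ F₀ : ℝ, FL n ρ = (F₀ : EReal) := by
  obtain ⟨Ψ, G, hΨ, h1⟩ := hEx n
  obtain ⟨a1, a3, -⟩ := h3 n Ψ G hΨ
  have hb := (hw.2 (dens n Ψ) a1 a3).trans (FL_pure hΨ h1)
  have h0 := FL_nonneg hW n ρ
  have hbot : FL n ρ ≠ ⊥ := ne_of_gt (lt_of_lt_of_le (by simp) h0)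
  have htop : FL n ρ ≠ ⊤ := by
    intro h
    rw [h, EReal.top_add_coe] at hb
    exact (lt_of_lt_of_le (EReal.coe_lt_top _) hb).ne rfl
  exact ⟨(FL n ρ).toReal, (EReal.coe_toReal htop hbot).symm⟩

theorem E0_ge {n : ℕ} {ρ : E3 → ℝ} (r1 : MemLp ρ 1) (r3 : MemLp ρ 3) {w : E3 → ℝ}
    (hw : w ∈ subD n ρ) {F₀ : ℝ} (hF : FL n ρ = (F₀ : EReal)) :
    F₀ + ∫ x, (-w x) * ρ x ≤ E0 n (fun x => -w x) := by
  obtain ⟨C₀, _, hf0⟩ := fb_of hW n _ XStar_zero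
  obtain ⟨C₁, _, hf1⟩ := fb_of hW n _ hw.1.neg
  unfold E0
  obtain ⟨Ψ₀, G₀, hΨ₀, h10⟩ := hEx n
  refine le_csInf ⟨_, Ψ₀, G₀, hΨ₀, h10, rfl⟩ ?_
  rintro e ⟨Ψ, G, hΨ, h1, rfl⟩
  obtain ⟨a1, a3, -⟩ := h3 n Ψ G hΨ
  have hb := (hw.2 (dens n Ψ) a1 a3).trans (FL_pure hΨ h1)
  rw [hF] at hb
  have hb' : F₀ + ∫ x, w x * (dens n Ψ x - ρ x) ≤ energy (n + 1) (fun _ => 0) Ψ G := by
    exact_mod_cast hb
  have i1 := hw.1.intg a1 a3
  have i2 := hw.1.intg r1 r3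
  have e1 : ∫ x, w x * (dens n Ψ x - ρ x) = (∫ x, w x * dens n Ψ x) - ∫ x, w x * ρ x := by
    rw [← integral_sub i1 i2]
    exact integral_congr_ae (Eventually.of_forall fun x => by simp only; ring)
  have e2 : Pv n (fun x => -w x) Ψ = -∫ x, w x * dens n Ψ x := by
    rw [(Pv_dens n _ Ψ G hΨ (hf1 Ψ G hΨ).1.1).2, ← integral_neg]
    exact integral_congr_ae (Eventually.of_forall fun x => by simp only; ring)
  have e3 : ∫ x, (-w x) * ρ x = -∫ x, w x * ρ x := by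
    rw [← integral_neg]
    exact integral_congr_ae (Eventually.of_forall fun x => by simp only; ring)
  rw [energy_eq n _ Ψ G (hf1 Ψ G hΨ).1, e2, e3]
  rw [energy_eq n _ Ψ G (hf0 Ψ G hΨ).1, Pv_zero, e1] at hb'
  linarith

/-- two elements of the subdifferential differ by a constant -/
theorem subD_unique (hC : S_COMP) {n : ℕ} {ρ : E3 → ℝ} (r1 : MemLp ρ 1) (r3 : MemLp ρ 3)
    {w₁ w₂ : E3 → ℝ} (h1 : w₁ ∈ subD n ρ) (h2 : w₂ ∈ subD n ρ) :
    ∃ c : ℝ, ∀ᵐ x, w₁ x - w₂ x = c := by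
  obtain ⟨F₀, hF⟩ := FL_real hW hEx h3 h1
  have g1 := E0_ge hW hEx h3 r1 r3 h1 hF
  have g2 := E0_ge hW hEx h3 r1 r3 h2 hF
  have hint : Integrable ρ := memLp_one_iff_integrable.1 r1
  obtain ⟨Ψ, G, a1, a2, a3, a4⟩ := t_SEQ hW n _ _ h1.1.neg h2.1.neg ρ hint (by
    intro ε hε
    have hlt : FL n ρ < ((F₀ + ε : ℝ) : EReal) := by
      rw [hF]; exact_mod_cast (by linarith : F₀ < F₀ + ε)
    obtain ⟨e, ⟨r, p, Ψ, G, hdm, rfl⟩, her⟩ := sInf_lt_iff.1 hlt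
    have : r < F₀ + ε := by exact_mod_cast her
    exact ⟨r, p, Ψ, G, hdm, by linarith, by linarith⟩)
  obtain ⟨Φ, K, b1, b2, b3, b4⟩ := hC n _ _ h1.1.neg h2.1.neg Ψ G a1 a2 a3 a4
  have c1 : IsGSD n (fun x => -w₁ x) (dens n Φ) := by
    refine ⟨fun k => if k = 0 then 1 else 0, fun _ => Φ, fun _ => K, ?_⟩
    have := pure_dm (fun x => -w₁ x) b1 b2
    rw [b3] at this
    exact this
  have c2 : IsGSD n (fun x => -w₂ x) (dens n Φ) := by
    refine ⟨fun k => if k = 0 then 1 else 0, fun _ => Φ, fun _ => K, ?_⟩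
    have := pure_dm (fun x => -w₂ x) b1 b2
    rw [b4] at this
    exact this
  obtain ⟨c, hc⟩ := f_HK n _ _ h1.1.neg h2.1.neg _ c1 c2
  refine ⟨-c, ?_⟩
  filter_upwards [hc] with x hx
  linarith

/-- invariance under constants and changes on null sets -/
theorem subD_add {n : ℕ} {ρ : E3 → ℝ} (r1 : MemLp ρ 1) (r3 : MemLp ρ 3)
    {w w' : E3 → ℝ} (h : w ∈ subD n ρ) (μ : ℝ) (hX : XStar w') (hw' : ∀ᵐ x, w' x = w x + μ) :
    w' ∈ subD n ρ := by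
  obtain ⟨F₀, hF⟩ := FL_real hW hEx h3 h
  refine ⟨hX, fun ρ' q1 q3 => ?_⟩
  by_cases htop : FL n ρ' = ⊤
  · rw [htop]; exact le_top
  have hm' : ∫ x, ρ' x = (n + 1 : ℝ) := by
    have hlt : FL n ρ' < ⊤ := lt_top_iff_ne_top.2 htop
    obtain ⟨e, ⟨r, p, Ψ, G, hdm, rfl⟩, -⟩ := sInf_lt_iff.1 hlt
    exact dm_mass hW hdm
  have hm : ∫ x, ρ x = (n + 1 : ℝ) := by
    have hlt : FL n ρ < ⊤ := by rw [hF]; exact EReal.coe_lt_top _
    obtain ⟨e, ⟨r, p, Ψ, G, hdm, rfl⟩, -⟩ := sInf_lt_iff.1 hlt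
    exact dm_mass hW hdm
  have e : ∫ x, w' x * (ρ' x - ρ x) = ∫ x, w x * (ρ' x - ρ x) := by
    have i1 : Integrable ρ := memLp_one_iff_integrable.1 r1
    have i2 : Integrable ρ' := memLp_one_iff_integrable.1 q1
    have i3 : Integrable (fun x => w x * (ρ' x - ρ x)) := by
      refine ((h.1.intg q1 q3).sub (h.1.intg r1 r3)).congr (Eventually.of_forall fun x => ?_)
      simp only [Pi.sub_apply]; ring
    have e1 : ∫ x, w' x * (ρ' x - ρ x) = ∫ x, (w x * (ρ' x - ρ x) + μ * (ρ' x - ρ x)) := by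
      refine integral_congr_ae ?_
      filter_upwards [hw'] with x hx
      rw [hx]; ring
    have i4 : Integrable (fun x => μ * (ρ' x - ρ x)) := (i2.sub i1).const_mul μ
    rw [e1, integral_add i3 i4, integral_const_mul, integral_sub i2 i1, hm', hm]
    ring
  rw [e]
  exact h.2 ρ' q1 q3

end main

end Pool.Agent.H998.HK
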